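import Mathlib

/-!
# The algorithm

Numbers modulo `p` are natural numbers, vectors are lists, matrices are lists of rows, everything
being read with `getD` (missing entries are zero) and only the indices below `n` being used.
A `Core` is a list of three matrices, one for each colour; an `MPS` is an initial row vector, a list
of cores and a final column vector.
-/

set_option autoImplicit false

namespace Pool.Agent.H79.TC

/-- A matrix: list of rows. -/
abbrev Mat := List (List ℕ)
/-- One matrix for each of the three colours. -/
abbrev Core := List Mat
/-- Initial vector, cores, final vector. -/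
abbrev MPS := List ℕ × List Core × List ℕ

/-- Scalar product of the first `n` entries, modulo `p`. -/
def dot (p n : ℕ) (v w : List ℕ) : ℕ :=
  ((List.range n).map fun s => v.getD s 0 * w.getD s 0).sum % p

/-- Row vector times matrix. -/
def vecMat (p n : ℕ) (v : List ℕ) (M : Mat) : List ℕ :=
  (List.range n).map fun j => ((List.range n).map fun s => v.getD s 0 * (M.getD s []).getD j 0).sum % p

/-- Transpose. -/
def transp (p n : ℕ) (M : Mat) : Mat :=
  (List.range n).map fun j => (List.range n).map fun i => (M.getD i []).getD j 0 % p

/-- `v` minus `v[e.1]` times `e.2`; the coefficient is recorded. -/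
def redStep (p n : ℕ) (s : List ℕ × List ℕ) (e : ℕ × List ℕ) : List ℕ × List ℕ :=
  ((List.range n).map fun i => (s.1.getD i 0 + (p - s.1.getD e.1 0 % p) * e.2.getD i 0) % p,
    s.2 ++ [s.1.getD e.1 0 % p])

/-- Reduce a vector by the basis `E`: remainder and coefficients. -/
def reduceVec (p n : ℕ) (E : List (ℕ × List ℕ)) (v : List ℕ) : List ℕ × List ℕ :=
  E.foldl (redStep p n) ((List.range n).map fun i => v.getD i 0 % p, [])

/-- Inverse modulo `p`. -/
def invMod (p x : ℕ) : ℕ := ((List.range p).filter fun y => decide (x * y % p = 1)).headD 0

/-- Indices of the nonzero entries. -/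
def nonzeros (n : ℕ) (v : List ℕ) : List ℕ := (List.range n).filter fun i => !decide (v.getD i 0 = 0)

/-- Process one row: `(basis, coefficient rows)`. -/
def addRow (p n : ℕ) (s : List (ℕ × List ℕ) × Mat) (v : List ℕ) : List (ℕ × List ℕ) × Mat :=
  bif (nonzeros n (reduceVec p n s.1 v).1).isEmpty || decide (n < s.1.length) then
    (s.1, s.2 ++ [(reduceVec p n s.1 v).2])
  else
    (s.1 ++ [((nonzeros n (reduceVec p n s.1 v).1).headD 0,
      (List.range n).map fun i => ((reduceVec p n s.1 v).1.getD i 0 *
        invMod p ((reduceVec p n s.1 v).1.getD ((nonzeros n (reduceVec p n s.1 v).1).headD 0) 0)) % p)],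
     s.2 ++ [(reduceVec p n s.1 v).2 ++
        [(reduceVec p n s.1 v).1.getD ((nonzeros n (reduceVec p n s.1 v).1).headD 0) 0]])

/-- Gaussian elimination: a basis (with pivots) and the coefficients of the rows in it. -/
def elim (p n : ℕ) (rows : Mat) : List (ℕ × List ℕ) × Mat := rows.foldl (addRow p n) ([], [])

/-- One step of the sweep: `(T, cores done so far, transposed and in reverse order)`. -/
def sweepStep (p n : ℕ) (s : Mat × List Core) (A : Core) : Mat × List Core :=
  let r := elim p n ((List.range 3).flatMap fun a => s.1.map fun v => vecMat p n v (A.getD a []))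
  (r.1.map Prod.snd,
    ((List.range 3).map fun a => transp p n ((r.2.drop (a * s.1.length)).take s.1.length)) :: s.2)

/-- Reduce from the left and reverse. -/
def rr (p n : ℕ) (M : MPS) : MPS :=
  let r := elim p n [M.1]
  let t := M.2.1.foldl (sweepStep p n) (r.1.map Prod.snd, [])
  (t.1.map fun v => dot p n v M.2.2, t.2, r.2.headD [])

/-- Spread out a row over the indices `3 * s + a`. -/
def spreadRow (n a : ℕ) (v : List ℕ) : List ℕ :=
  (List.range n).map fun s => bif decide (s % 3 = a) then v.getD (s / 3) 0 else 0

/-- The cores which come after the closed chord. -/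
def spreadCore (n : ℕ) (A : Core) : Core :=
  (List.range 3).map fun b => (List.range n).map fun s =>
    bif decide (s % 3 = b) then [] else spreadRow n (s % 3) ((A.getD b []).getD (s / 3) [])

/-- The core of the closed chord, as a single matrix. -/
def linkMat (n : ℕ) (A : Core) : Mat :=
  (List.range n).map fun i => (List.range n).map fun s => ((A.getD (s % 3) []).getD i []).getD (s / 3) 0

/-- The final vector after spreading. -/
def spreadVec (n : ℕ) (v : List ℕ) : List ℕ := (List.range n).map fun s => v.getD (s / 3) 0

/-- Multiply by the matrix `X` from the left. -/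
def leftMul (p n : ℕ) (X : Mat) (r : List Core × List ℕ) : List Core × List ℕ :=
  match r.1 with
  | [] => ([], X.map fun v => dot p n v r.2)
  | A :: As => (((List.range 3).map fun a => X.map fun v => vecMat p n v (A.getD a [])) :: As, r.2)

/-- Close the chord number `i`. -/
def closeAt (p n i : ℕ) (M : MPS) : MPS :=
  let r := leftMul p n (linkMat n ((M.2.1.drop i).headD []))
    ((M.2.1.drop (i + 1)).map (spreadCore n), spreadVec n M.2.2)
  (M.1, M.2.1.take i ++ r.1, r.2)

/-- Open a new chord. -/
def openMPS (p n : ℕ) (M : MPS) : MPS :=
  (M.1, M.2.1 ++ [(List.range 3).map fun _ => (List.range n).map fun s => [M.2.2.getD s 0 % p]],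
    [1 % p])

/-- Number of entries before the first occurrence of `x`. -/
def indexOf (l : List ℕ) (x : ℕ) : ℕ := (l.takeWhile fun y => !decide (y = x)).length

/-- Process one endpoint; the state is the list of open chords and the MPS. -/
def stepRun (p n : ℕ) (s : List ℕ × MPS) (x : ℕ) : List ℕ × MPS :=
  bif s.1.any fun y => decide (y = x) then
    (s.1.filter fun y => !decide (y = x), rr p n (rr p n (closeAt p n (indexOf s.1 x) s.2)))
  else (s.1 ++ [x], openMPS p n s.2)

/-- The number of proper 3-colourings modulo `p`. -/
def countMod (p n : ℕ) (w : List ℕ) : ℕ :=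
  let t := w.foldl (stepRun p n) ([], ([1 % p], [], [1 % p]))
  dot p n t.2.1 t.2.2.2

/-- Test for primality. -/
def isPrime (p : ℕ) : Bool :=
  decide (2 ≤ p) && (List.range p).all fun d => decide (d < 2) || !decide (p % d = 0)

/-- The dimension used by the algorithm, as a function of the length of the word. -/
def dimBound (N : ℕ) : ℕ := 3 * (51 * (N + 1) ^ 4)

/-- The bound for the primes. -/
def primeBound (N : ℕ) : ℕ := 64 * (N + 2) ^ 2

/-- The decision procedure for words. -/
def decideWord (w : List ℕ) : Bool :=
  (List.range (primeBound w.length)).any fun p =>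
    isPrime p && !decide (countMod p (dimBound w.length) w = 0)

/-- Is the word a chord diagram? -/
def isDiagram (w : List ℕ) : Bool :=
  (List.range (w.length / 2)).all (fun a => decide ((w.filter fun b => decide (b = a)).length = 2)) &&
    decide (w.length % 2 = 0)

end Pool.Agent.H79.TC
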