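import Mathlib

/-!
# Colourings of the chords of an interval

The endpoints of the chords are natural numbers, and `σ` is the involution which exchanges the two
endpoints of every chord. A colouring of an interval `[a, b)` is a function which vanishes outside.
-/

set_option autoImplicit false

open Finset

namespace Pool.Agent.H79.TC

/-- `x` lies strictly between `u` and `v`. -/
def Btw (u v x : ℕ) : Prop := min u v < x ∧ x < max u v

/-- The chords through `x` and `z` cross. -/
def Cross (σ : ℕ → ℕ) (x z : ℕ) : Prop := Xor' (Btw x (σ x) z) (Btw x (σ x) (σ z))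

/-- `c` is constant on every chord with both endpoints in `[a, b)`, and different on two crossing
chords with an endpoint in `[a, b)`, one of them having both endpoints there. -/
def Good (σ : ℕ → ℕ) (a b : ℕ) (c : ℕ → Fin 3) : Prop :=
  (∀ x ∈ Set.Ico a b, σ x ∈ Set.Ico a b → c (σ x) = c x) ∧
  ∀ x ∈ Set.Ico a b, ∀ z ∈ Set.Ico a b, Cross σ x z →
    (σ x ∈ Set.Ico a b ∨ σ z ∈ Set.Ico a b) → c x ≠ c z

/-- `c` is equal to `w` on the points of `[a, b)` whose chord leaves `[a, b)`. -/
def Agree (σ : ℕ → ℕ) (a b : ℕ) (w c : ℕ → Fin 3) : Prop :=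
  ∀ x ∈ Set.Ico a b, σ x ∉ Set.Ico a b → c x = w x

theorem finite_col (a b : ℕ) : {c : ℕ → Fin 3 | ∀ x, x ∉ Set.Ico a b → c x = 0}.Finite := by
  refine Set.Finite.of_finite_image (f := fun c : ℕ → Fin 3 => fun i : Fin (b - a) => c (a + i))
    (Set.toFinite _) ?_
  intro c hc d hd h
  funext x
  by_cases hx : x ∈ Set.Ico a b
  · have hx1 := hx.1
    have hx2 := hx.2
    have := congrFun h ⟨x - a, by omega⟩
    simp only at this
    rwa [Nat.add_sub_cancel' hx1] at this
  · rw [hc x hx, hd x hx]

/-- The colourings of the interval `[a, b)`. -/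
noncomputable def Col (a b : ℕ) : Finset (ℕ → Fin 3) := (finite_col a b).toFinset

theorem mem_col {a b : ℕ} {c : ℕ → Fin 3} : c ∈ Col a b ↔ ∀ x, x ∉ Set.Ico a b → c x = 0 := by
  simp [Col]

open Classical in
/-- The number of good colourings of `[a, b)` which agree with `w` on the chords that leave it. -/
noncomputable def F (σ : ℕ → ℕ) (a b : ℕ) (w : ℕ → Fin 3) : ℕ :=
  #{c ∈ Col a b | Good σ a b c ∧ Agree σ a b w c}

/-- Equal to `w₁` below `s` and to `w₂` from `s` on. -/
def glue (s : ℕ) (w₁ w₂ : ℕ → Fin 3) (x : ℕ) : Fin 3 := if x < s then w₁ x else w₂ x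

end Pool.Agent.H79.TC
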