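import Pool.Agent.H79.TC.RankLib
import Pool.Agent.H79.TC.Chord

/-!
# Two adjacent external chords of different colours

Chords which pass over both of them have the third colour; this isolates the gap between them.
-/

set_option autoImplicit false

open Finset

namespace Pool.Agent.H79.TC

section cross

variable {σ : ℕ → ℕ}

theorem btw_iff (u v x : ℕ) : Btw u v x ↔ (u < x ∧ x < v) ∨ (v < x ∧ x < u) := by
  unfold Btw; omega

theorem bd_cross_iff (x z : ℕ) : Cross σ x z ↔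
    (Btw x (σ x) z ∧ ¬ Btw x (σ x) (σ z)) ∨ (Btw x (σ x) (σ z) ∧ ¬ Btw x (σ x) z) := by
  unfold Cross Xor' Xor; tauto

theorem btw_comm (u v x : ℕ) : Btw u v x ↔ Btw v u x := by
  rw [btw_iff, btw_iff]; tauto

theorem cross_left (hσ : ∀ x, σ (σ x) = x) {x z : ℕ} : Cross σ (σ x) z ↔ Cross σ x z := by
  unfold Cross
  rw [hσ, btw_comm (σ x) x z, btw_comm (σ x) x (σ z)]

theorem cross_right (hσ : ∀ x, σ (σ x) = x) {x z : ℕ} : Cross σ x (σ z) ↔ Cross σ x z := by
  unfold Cross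
  rw [hσ]
  unfold Xor' Xor; tauto

theorem ne_of_cross (hσ : ∀ x, σ (σ x) = x) {x z : ℕ} (h : Cross σ x z) :
    x ≠ z ∧ σ x ≠ z ∧ x ≠ σ z ∧ σ x ≠ σ z := by
  rw [bd_cross_iff, btw_iff, btw_iff] at h
  refine ⟨?_, ?_, ?_, ?_⟩
  · rintro rfl; omega
  · rintro rfl; rw [hσ] at h; omega
  · rintro rfl; rw [hσ] at h; omega
  · intro h'
    have : x = z := by rw [← hσ x, h', hσ]
    subst this; omega

theorem cross_symm (hσ : ∀ x, σ (σ x) = x) (hne : ∀ x, σ x ≠ x) {x z : ℕ} (h : Cross σ x z) :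
    Cross σ z x := by
  have h1 := ne_of_cross hσ h
  have h2 := hne x
  have h3 := hne z
  rw [bd_cross_iff, btw_iff, btw_iff] at h ⊢
  omega

end cross

theorem col_split {R : Type*} [AddCommMonoid R] {a m b : ℕ} (h1 : a ≤ m) (h2 : m ≤ b)
    (f : (ℕ → Fin 3) → R) :
    ∑ c ∈ Col a b, f c = ∑ c₁ ∈ Col a m, ∑ c₂ ∈ Col m b, f (glue m c₁ c₂) := by
  rw [← Finset.sum_product']
  symm
  refine Finset.sum_bij' (i := fun c _ => glue m c.1 c.2)
    (j := fun c _ => (glue m c (fun _ => 0), glue m (fun _ => 0) c)) ?_ ?_ ?_ ?_ ?_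
  · rintro ⟨c₁, c₂⟩ h
    rw [mem_product, mem_col, mem_col] at h
    rw [mem_col]
    intro x hx
    simp only [glue]
    split_ifs with hxm
    · exact h.1 x (fun h' => hx ⟨h'.1, by have := h'.2; omega⟩)
    · exact h.2 x (fun h' => hx ⟨by omega, h'.2⟩)
  · intro c hc
    rw [mem_col] at hc
    rw [mem_product, mem_col, mem_col]
    constructor
    · intro x hx
      simp only [glue]
      split_ifs with hxm
      · exact hc x (fun h' => hx ⟨h'.1, hxm⟩)
      · rfl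
    · intro x hx
      simp only [glue]
      split_ifs with hxm
      · rfl
      · exact hc x (fun h' => hx ⟨by omega, h'.2⟩)
  · rintro ⟨c₁, c₂⟩ h
    rw [mem_product, mem_col, mem_col] at h
    simp only [Prod.mk.injEq]
    constructor
    · funext x
      simp only [glue]
      split_ifs with hxm
      · rfl
      · exact (h.1 x (fun h' => hxm h'.2)).symm
    · funext x
      simp only [glue]
      split_ifs with hxm
      · exact (h.2 x (fun h' => by have := h'.1; omega)).symm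
      · rfl
  · intro c hc
    funext x
    simp only [glue]
    split_ifs <;> rfl
  · rintro ⟨c₁, c₂⟩ h
    rfl

/-- The conditions on a colouring of the chords which leave the gap `[g, h)`, when the wall on the
left has the colour `α` and the one on the right has the colour `β`. -/
def Supp (σ : ℕ → ℕ) (g h : ℕ) (α β : Fin 3) (w : ℕ → Fin 3) : Prop :=
  (∀ x ∈ Set.Ico g h, σ x < g → w x ≠ α) ∧ (∀ x ∈ Set.Ico g h, h ≤ σ x → w x ≠ β) ∧
  ∀ x ∈ Set.Ico g h, ∀ y ∈ Set.Ico g h, x < y → h ≤ σ x → σ y < g → w x ≠ w y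

open Classical in
/-- The number of colourings of the gap, under the conditions `Supp`. -/
noncomputable def K (σ : ℕ → ℕ) (g h : ℕ) (α β : Fin 3) (w : ℕ → Fin 3) : ℕ :=
  if Supp σ g h α β w then F σ g h w else 0

/-- `w₁` on the points whose chord goes to the left, `w₂` on the others. -/
def mg (σ : ℕ → ℕ) (g : ℕ) (w₁ w₂ : ℕ → Fin 3) (x : ℕ) : Fin 3 := if σ x < g then w₁ x else w₂ x

/-- The rank of the gap is at most `r`. -/
def KB (σ : ℕ → ℕ) (g h r : ℕ) : Prop :=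
  ∀ α β : Fin 3, α ≠ β → RankLE r (fun w₁ w₂ : ℕ → Fin 3 => K σ g h α β (mg σ g w₁ w₂))

/-- Conditions for the part of the colouring on the left of the gap `[g, h)` in `[a, b)`. -/
def AL (σ : ℕ → ℕ) (a b g h : ℕ) (γ : Fin 3) (w c : ℕ → Fin 3) : Prop :=
  (∀ x ∈ Set.Ico a g, σ x ∉ Set.Ico a b → c x = w x) ∧
  (∀ x ∈ Set.Ico a g, σ x ∈ Set.Ico a g → c (σ x) = c x) ∧
  (∀ x ∈ Set.Ico a g, σ x ∈ Set.Ico h b → c x = γ) ∧
  ∀ x ∈ Set.Ico a g, ∀ z ∈ Set.Ico a g, Cross σ x z →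
    (σ x ∈ Set.Ico a b ∨ σ z ∈ Set.Ico a b) → c x ≠ c z

/-- Conditions for the part of the colouring on the right of the gap `[g, h)` in `[a, b)`. -/
def AR (σ : ℕ → ℕ) (a b g h : ℕ) (γ : Fin 3) (w c : ℕ → Fin 3) : Prop :=
  (∀ x ∈ Set.Ico h b, σ x ∉ Set.Ico a b → c x = w x) ∧
  (∀ x ∈ Set.Ico h b, σ x ∈ Set.Ico h b → c (σ x) = c x) ∧
  (∀ x ∈ Set.Ico h b, σ x ∈ Set.Ico a g → c x = γ) ∧
  ∀ x ∈ Set.Ico h b, ∀ z ∈ Set.Ico h b, Cross σ x z →
    (σ x ∈ Set.Ico a b ∨ σ z ∈ Set.Ico a b) → c x ≠ c z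

/-- Conditions for the part in the gap. -/
def AM (σ : ℕ → ℕ) (g h : ℕ) (α β : Fin 3) (w c : ℕ → Fin 3) : Prop :=
  Supp σ g h α β c ∧ Good σ g h c ∧ Agree σ g h w c

section bdry

variable {σ : ℕ → ℕ} {a b e e' s : ℕ} {α β γ : Fin 3} {w₁ w₂ c₁ c₂ c₃ : ℕ → Fin 3}

/-- Both points are in the same part of `[a, b)`, cut at `g` and `h`. -/
def SP (a b g h U V : ℕ) : Prop :=
  (a ≤ U ∧ U < g ∧ a ≤ V ∧ V < g) ∨ (g ≤ U ∧ U < h ∧ g ≤ V ∧ V < h) ∨
    (h ≤ U ∧ U < b ∧ h ≤ V ∧ V < b)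

theorem SP.symm {a b g h U V : ℕ} (H : SP a b g h U V) : SP a b g h V U := by
  rcases H with h | h | h
  · exact Or.inl ⟨h.2.2.1, h.2.2.2, h.1, h.2.1⟩
  · exact Or.inr (Or.inl ⟨h.2.2.1, h.2.2.2, h.1, h.2.1⟩)
  · exact Or.inr (Or.inr ⟨h.2.2.1, h.2.2.2, h.1, h.2.1⟩)

theorem same_part_aux {a b g h lo hi M O : ℕ} (h1 : a ≤ lo) (h2 : lo < M) (h3 : M < hi)
    (h4 : hi < b) (hO : O < lo ∨ hi < O) (hM : g ≤ M → M < h → a ≤ O ∧ O < b) (hag : a ≤ g)
    (hgh : g ≤ h) :
    SP a b g h lo M ∨ SP a b g h hi M ∨ SP a b g h lo O ∨ SP a b g h hi O := by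
  unfold SP
  by_cases c1 : M < g
  · exact Or.inl (Or.inl ⟨h1, by omega, by omega, c1⟩)
  by_cases c2 : h ≤ M
  · exact Or.inr (Or.inl (Or.inr (Or.inr ⟨by omega, h4, c2, by omega⟩)))
  have hO' := hM (by omega) (by omega)
  by_cases c3 : g ≤ lo
  · exact Or.inl (Or.inr (Or.inl ⟨c3, by omega, by omega, by omega⟩))
  by_cases c4 : hi < h
  · exact Or.inr (Or.inl (Or.inr (Or.inl ⟨by omega, c4, by omega, by omega⟩)))
  rcases hO with hO | hO
  · exact Or.inr (Or.inr (Or.inl (Or.inl ⟨h1, by omega, hO'.1, by omega⟩)))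
  · exact Or.inr (Or.inr (Or.inr (Or.inr (Or.inr ⟨by omega, h4, by omega, hO'.2⟩))))

theorem same_part' {a b g h X X' Z Z' : ℕ} (hX : a ≤ X ∧ X < b) (hX' : a ≤ X' ∧ X' < b)
    (hgZ : g ≤ Z → Z < h → a ≤ Z' ∧ Z' < b) (hgZ' : g ≤ Z' → Z' < h → a ≤ Z ∧ Z < b)
    (h1 : X ≠ Z) (h2 : X' ≠ Z) (h3 : X ≠ Z') (h4 : X' ≠ Z') (hag : a ≤ g) (hgh : g ≤ h)
    (hc : (((X < Z ∧ Z < X') ∨ (X' < Z ∧ Z < X)) ∧ ¬ ((X < Z' ∧ Z' < X') ∨ (X' < Z' ∧ Z' < X))) ∨
      (((X < Z' ∧ Z' < X') ∨ (X' < Z' ∧ Z' < X)) ∧ ¬ ((X < Z ∧ Z < X') ∨ (X' < Z ∧ Z < X)))) :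
    SP a b g h X Z ∨ SP a b g h X' Z ∨ SP a b g h X Z' ∨ SP a b g h X' Z' := by
  rcases hc with ⟨hc | hc, hd⟩ | ⟨hc | hc, hd⟩
  · exact same_part_aux hX.1 hc.1 hc.2 hX'.2 (by omega) hgZ hag hgh
  · rcases same_part_aux hX'.1 hc.1 hc.2 hX.2 (O := Z') (by omega) hgZ hag hgh with h | h | h | h
    · exact Or.inr (Or.inl h)
    · exact Or.inl h
    · exact Or.inr (Or.inr (Or.inr h))
    · exact Or.inr (Or.inr (Or.inl h))
  · rcases same_part_aux hX.1 hc.1 hc.2 hX'.2 (O := Z) (by omega) hgZ' hag hgh with h | h | h | h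
    · exact Or.inr (Or.inr (Or.inl h))
    · exact Or.inr (Or.inr (Or.inr h))
    · exact Or.inl h
    · exact Or.inr (Or.inl h)
  · rcases same_part_aux hX'.1 hc.1 hc.2 hX.2 (O := Z) (by omega) hgZ' hag hgh with h | h | h | h
    · exact Or.inr (Or.inr (Or.inr h))
    · exact Or.inr (Or.inr (Or.inl h))
    · exact Or.inr (Or.inl h)
    · exact Or.inl h

/-- Two crossing chords have endpoints in the same part. -/
theorem same_part (hσ : ∀ x, σ (σ x) = x) (hne : ∀ x, σ x ≠ x) {a b g h x z : ℕ}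
    (hag : a ≤ g) (hgh : g ≤ h)
    (hgap : ∀ y, g ≤ y → y < h → a ≤ σ y ∧ σ y < b) (hab : a ≤ g ∧ h ≤ b)
    (hx : a ≤ x ∧ x < b) (hz : a ≤ z ∧ z < b)
    (hxz : (a ≤ σ x ∧ σ x < b) ∨ (a ≤ σ z ∧ σ z < b)) (hc : Cross σ x z) :
    SP a b g h x z ∨ SP a b g h (σ x) z ∨ SP a b g h x (σ z) ∨ SP a b g h (σ x) (σ z) := by
  have hn := ne_of_cross hσ hc
  have hg : ∀ y, g ≤ σ y → σ y < h → a ≤ y ∧ y < b := fun y h1 h2 => by
    have := hgap (σ y) h1 h2
    rwa [hσ] at this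
  rcases hxz with h | h
  · rw [bd_cross_iff, btw_iff, btw_iff] at hc
    exact same_part' hx h (hgap z) (hg z) hn.1 hn.2.1 hn.2.2.1 hn.2.2.2 hag hgh hc
  · have hc' := cross_symm hσ hne hc
    rw [bd_cross_iff, btw_iff, btw_iff] at hc'
    have := same_part' hz h (hgap x) (hg x) hn.1.symm hn.2.2.1.symm hn.2.1.symm hn.2.2.2.symm
      hag hgh hc'
    rcases this with h | h | h | h
    · exact Or.inl h.symm
    · exact Or.inr (Or.inr (Or.inl h.symm))
    · exact Or.inr (Or.inl h.symm)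
    · exact Or.inr (Or.inr (Or.inr h.symm))

theorem fin3 {α β γ t : Fin 3} (h1 : α ≠ β) (h2 : γ ≠ α) (h3 : γ ≠ β) (h4 : t ≠ α) (h5 : t ≠ β) :
    t = γ := by
  omega

theorem good_split (hσ : ∀ x, σ (σ x) = x) (hne : ∀ x, σ x ≠ x) (hae : a ≤ e) (hee : e < e')
    (heb : e' < b) (he : σ e ∉ Set.Ico a b) (he' : σ e' ∉ Set.Ico a b)
    (hgap : ∀ y, e + 1 ≤ y → y < e' → a ≤ σ y ∧ σ y < b) (hαβ : α ≠ β) (hγα : γ ≠ α) (hγβ : γ ≠ β)
    (hes : e < s) (hse : s ≤ e') (h1 : w₁ e = α) (h2 : w₂ e' = β) :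
    (Good σ a b (glue (e + 1) c₁ (glue e' c₂ c₃)) ∧
      Agree σ a b (glue s w₁ w₂) (glue (e + 1) c₁ (glue e' c₂ c₃))) ↔
    AL σ a b (e + 1) e' γ w₁ c₁ ∧
      AM σ (e + 1) e' α β (mg σ (e + 1) (fun x => c₁ (σ x)) (fun x => c₃ (σ x))) c₂ ∧
      AR σ a b (e + 1) e' γ w₂ c₃ := by
  set c := glue (e + 1) c₁ (glue e' c₂ c₃) with hcdef
  have cl : ∀ x, x < e + 1 → c x = c₁ x := fun x hx => by simp [hcdef, glue, hx]
  have cm : ∀ x, e + 1 ≤ x → x < e' → c x = c₂ x := fun x hx hx' => by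
    simp [hcdef, glue, hx', show ¬ x < e + 1 by omega]
  have cr : ∀ x, e' ≤ x → c x = c₃ x := fun x hx => by
    simp [hcdef, glue, show ¬ x < e + 1 by omega, show ¬ x < e' by omega]
  have hea : e ∈ Set.Ico a b := ⟨hae, by omega⟩
  have hea' : e' ∈ Set.Ico a b := ⟨by omega, heb⟩
  constructor
  · rintro ⟨⟨hg1, hg2⟩, hag⟩
    have ce : c e = α := by
      rw [hag e hea he]; simp [glue, hes, h1]
    have ce' : c e' = β := by
      rw [hag e' hea' he']; simp [glue, show ¬ e' < s by omega, h2]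
    -- a chord over `e`
    have ovr1 : ∀ x, a ≤ x → x < e → e < σ x → σ x < b → c x ≠ α := by
      intro x hx1 hx2 hx3 hx4
      rw [← ce]
      refine hg2 x ⟨hx1, by omega⟩ e hea ?_ (Or.inl ⟨by omega, hx4⟩)
      rw [bd_cross_iff, btw_iff, btw_iff]
      simp only [Set.mem_Ico] at he
      omega
    have ovr2 : ∀ x, a ≤ x → x < e' → e' < σ x → σ x < b → c x ≠ β := by
      intro x hx1 hx2 hx3 hx4
      rw [← ce']
      refine hg2 x ⟨hx1, by omega⟩ e' hea' ?_ (Or.inl ⟨by omega, hx4⟩)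
      rw [bd_cross_iff, btw_iff, btw_iff]
      simp only [Set.mem_Ico] at he'
      omega
    have ne1 : ∀ x, σ x ∈ Set.Ico a b → x ≠ e := fun x hx hxe => he (by rw [← hxe]; exact hx)
    have ne1' : ∀ x, σ x ∈ Set.Ico a b → x ≠ e' := fun x hx hxe => he' (by rw [← hxe]; exact hx)
    have ne2 : ∀ x, x ∈ Set.Ico a b → σ x ≠ e := fun x hx hxe => he (by rw [← hxe, hσ]; exact hx)
    have ne2' : ∀ x, x ∈ Set.Ico a b → σ x ≠ e' := fun x hx hxe => he' (by rw [← hxe, hσ]; exact hx)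
    refine ⟨⟨?_, ?_, ?_, ?_⟩, ⟨⟨?_, ?_, ?_⟩, ⟨?_, ?_⟩, ?_⟩, ⟨?_, ?_, ?_, ?_⟩⟩
    · intro x hx hσx
      rw [← cl x hx.2, hag x ⟨hx.1, by have := hx.2; omega⟩ hσx]
      simp [glue, show x < s by have := hx.2; omega]
    · intro x hx hσx
      rw [← cl x hx.2, ← cl _ hσx.2]
      exact hg1 x ⟨hx.1, by have := hx.2; omega⟩ ⟨hσx.1, by have := hσx.2; omega⟩
    · intro x hx hσx
      have hx1 := hx.1
      have hx2 := hx.2
      have hs1 := hσx.1
      have hs2 := hσx.2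
      have n1 := ne1 x ⟨by omega, hs2⟩
      have n2 := ne2' x ⟨hx1, by omega⟩
      rw [← cl x hx2]
      exact fin3 hαβ hγα hγβ (ovr1 x hx1 (by omega) (by omega) hs2)
        (ovr2 x hx1 (by omega) (by omega) hs2)
    · intro x hx z hz hc hi
      rw [← cl x hx.2, ← cl z hz.2]
      exact hg2 x ⟨hx.1, by have := hx.2; omega⟩ z ⟨hz.1, by have := hz.2; omega⟩ hc hi
    · intro x hx hσx
      have hx1 := hx.1
      have hx2 := hx.2
      have hs := hgap x hx1 hx2
      rw [← cm x hx1 hx2, ← hg1 x ⟨by omega, by omega⟩ hs]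
      have n2 := ne2 x ⟨by omega, by omega⟩
      have := ovr1 (σ x) hs.1 (by omega) (by rw [hσ]; omega) (by rw [hσ]; omega)
      exact this
    · intro x hx hσx
      have hx1 := hx.1
      have hx2 := hx.2
      have hs := hgap x hx1 hx2
      rw [← cm x hx1 hx2]
      have n2 := ne2' x ⟨by omega, by omega⟩
      exact ovr2 x (by omega) hx2 (by omega) hs.2
    · intro x hx y hy hxy hσx hσy
      have hx1 := hx.1
      have hx2 := hx.2
      have hy1 := hy.1
      have hy2 := hy.2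
      have hs := hgap x hx1 hx2
      rw [← cm x hx1 hx2, ← cm y hy1 hy2]
      refine hg2 x ⟨by omega, by omega⟩ y ⟨by omega, by omega⟩ ?_ (Or.inl hs)
      rw [bd_cross_iff, btw_iff, btw_iff]
      omega
    · intro x hx hσx
      rw [← cm x hx.1 hx.2, ← cm _ hσx.1 hσx.2]
      have := hx.1; have := hx.2; have := hσx.1; have := hσx.2
      exact hg1 x ⟨by omega, by omega⟩ ⟨by omega, by omega⟩
    · intro x hx z hz hc hi
      rw [← cm x hx.1 hx.2, ← cm z hz.1 hz.2]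
      have := hx.1; have := hx.2; have := hz.1; have := hz.2
      exact hg2 x ⟨by omega, by omega⟩ z ⟨by omega, by omega⟩ hc (Or.inl (hgap x hx.1 hx.2))
    · intro x hx hσx
      have hx1 := hx.1
      have hx2 := hx.2
      have hs := hgap x hx1 hx2
      have hcx := hg1 x ⟨by omega, by omega⟩ hs
      rw [← cm x hx1 hx2, ← hcx]
      simp only [mg]
      simp only [Set.mem_Ico, not_and, not_lt] at hσx
      split_ifs with h
      · exact cl _ h
      · exact cr _ (hσx (by omega))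
    · intro x hx hσx
      have hx1 := hx.1
      rw [← cr x hx.1, hag x ⟨by omega, hx.2⟩ hσx]
      simp [glue, show ¬ x < s by omega]
    · intro x hx hσx
      have hx1 := hx.1
      have := hσx.1
      rw [← cr x hx.1, ← cr _ hσx.1]
      exact hg1 x ⟨by omega, hx.2⟩ ⟨by omega, hσx.2⟩
    · intro x hx hσx
      have hx1 := hx.1
      have hx2 := hx.2
      have hs1 := hσx.1
      have hs2 := hσx.2
      have n1 := ne1' x ⟨by omega, by omega⟩
      have n2 := ne2 x ⟨by omega, by omega⟩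
      rw [← cr x hx1, ← hg1 x ⟨by omega, by omega⟩ ⟨by omega, by omega⟩]
      exact fin3 hαβ hγα hγβ (ovr1 (σ x) hs1 (by omega) (by rw [hσ]; omega) (by rw [hσ]; omega))
        (ovr2 (σ x) hs1 (by omega) (by rw [hσ]; omega) (by rw [hσ]; omega))
    · intro x hx z hz hc hi
      have := hx.1; have := hz.1
      rw [← cr x hx.1, ← cr z hz.1]
      exact hg2 x ⟨by omega, hx.2⟩ z ⟨by omega, hz.2⟩ hc hi
  · rintro ⟨⟨l1, l2, l3, l4⟩, ⟨⟨m1, m2, m3⟩, ⟨m4, m5⟩, m6⟩, ⟨r1, r2, r3, r4⟩⟩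
    -- consistency
    have hcons : ∀ x, a ≤ x → x < b → a ≤ σ x → σ x < b → c (σ x) = c x := by
      have key : ∀ x, a ≤ x → x < b → a ≤ σ x → σ x < b → x < σ x → c (σ x) = c x := by
        intro x hx1 hx2 hs1 hs2 hlt
        by_cases k1 : x < e + 1
        · rw [cl x k1]
          by_cases k2 : σ x < e + 1
          · rw [cl _ k2]; exact l2 x ⟨hx1, k1⟩ ⟨hs1, k2⟩
          · by_cases k3 : σ x < e'
            · rw [cm _ (by omega) k3, m6 (σ x) ⟨by omega, k3⟩ (by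
                rw [hσ]; simp only [Set.mem_Ico]; omega)]
              simp [mg, hσ, k1]
            · rw [cr _ (by omega), r3 (σ x) ⟨by omega, hs2⟩ (by rw [hσ]; exact ⟨hx1, k1⟩),
                l3 x ⟨hx1, k1⟩ ⟨by omega, hs2⟩]
        · by_cases k2 : x < e'
          · rw [cm x (by omega) k2]
            by_cases k3 : σ x < e'
            · rw [cm _ (by omega) k3]
              exact m4 x ⟨by omega, k2⟩ ⟨by omega, k3⟩
            · rw [cr _ (by omega), m6 x ⟨by omega, k2⟩ (by simp only [Set.mem_Ico]; omega)]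
              simp [mg, show ¬ σ x < e + 1 by omega]
          · rw [cr x (by omega), cr _ (by omega)]
            exact r2 x ⟨by omega, hx2⟩ ⟨by omega, hs2⟩
      intro x hx1 hx2 hs1 hs2
      rcases lt_trichotomy x (σ x) with h | h | h
      · exact key x hx1 hx2 hs1 hs2 h
      · exact (hne x h.symm).elim
      · have := key (σ x) hs1 hs2 (by rw [hσ]; exact hx1) (by rw [hσ]; exact hx2) (by
          rw [hσ]; exact h)
        rw [hσ] at this
        exact this.symm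
    refine ⟨⟨fun x hx hs => hcons x hx.1 hx.2 hs.1 hs.2, ?_⟩, ?_⟩
    · -- crossing pairs in the same part
      have key : ∀ x z, a ≤ x → x < b → a ≤ z → z < b → Cross σ x z →
          ((a ≤ σ x ∧ σ x < b) ∨ (a ≤ σ z ∧ σ z < b)) → SP a b (e + 1) e' x z → c x ≠ c z := by
        intro x z hx1 hx2 hz1 hz2 hc hi hsp
        rcases hsp with h | h | h
        · rw [cl x h.2.1, cl z h.2.2.2]
          exact l4 x ⟨hx1, h.2.1⟩ z ⟨hz1, h.2.2.2⟩ hc hi
        · rw [cm x h.1 h.2.1, cm z h.2.2.1 h.2.2.2]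
          by_cases hin : (σ x ∈ Set.Ico (e + 1) e' ∨ σ z ∈ Set.Ico (e + 1) e')
          · exact m5 x ⟨h.1, h.2.1⟩ z h.2.2 hc hin
          · simp only [not_or] at hin
            have sx := hgap x h.1 h.2.1
            have sz := hgap z h.2.2.1 h.2.2.2
            have a1 := m6 x ⟨h.1, h.2.1⟩ hin.1
            have a2 := m6 z h.2.2 hin.2
            have i1 := hin.1
            have i2 := hin.2
            simp only [Set.mem_Ico, not_and, not_lt] at i1 i2
            by_cases t1 : σ x < e + 1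
            · by_cases t2 : σ z < e + 1
              · rw [a1, a2]
                simp only [mg, t1, t2, if_true]
                refine l4 (σ x) ⟨sx.1, t1⟩ (σ z) ⟨sz.1, t2⟩ ?_ (Or.inl ?_)
                · rw [cross_left hσ, cross_right hσ]; exact hc
                · rw [hσ]; exact ⟨hx1, hx2⟩
              · refine (m3 z h.2.2 x ⟨h.1, h.2.1⟩ ?_ (i2 (by omega)) t1).symm
                rw [bd_cross_iff, btw_iff, btw_iff] at hc
                have := i2 (by omega)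
                omega
            · by_cases t2 : σ z < e + 1
              · refine m3 x ⟨h.1, h.2.1⟩ z h.2.2 ?_ (i1 (by omega)) t2
                rw [bd_cross_iff, btw_iff, btw_iff] at hc
                have := i1 (by omega)
                omega
              · rw [a1, a2]
                simp only [mg, t1, t2, if_false]
                refine r4 (σ x) ⟨i1 (by omega), sx.2⟩ (σ z) ⟨i2 (by omega), sz.2⟩ ?_ (Or.inl ?_)
                · rw [cross_left hσ, cross_right hσ]; exact hc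
                · rw [hσ]; exact ⟨hx1, hx2⟩
        · rw [cr x h.1, cr z h.2.2.1]
          exact r4 x ⟨h.1, hx2⟩ z ⟨h.2.2.1, hz2⟩ hc hi
      intro x hx z hz hc hi
      rcases same_part hσ hne (g := e + 1) (h := e') (by omega) (by omega)
        (fun y h1 h2 => hgap y h1 h2) ⟨by omega, by omega⟩ hx hz hi hc with h | h | h | h
      · exact key x z hx.1 hx.2 hz.1 hz.2 hc hi h
      · have hs : a ≤ σ x ∧ σ x < b := by unfold SP at h; omega
        rw [← hcons x hx.1 hx.2 hs.1 hs.2]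
        refine key (σ x) z hs.1 hs.2 hz.1 hz.2 ?_ (Or.inl (by rw [hσ]; exact hx)) h
        rw [cross_left hσ]; exact hc
      · have hs : a ≤ σ z ∧ σ z < b := by unfold SP at h; omega
        rw [← hcons z hz.1 hz.2 hs.1 hs.2]
        refine key x (σ z) hx.1 hx.2 hs.1 hs.2 ?_ (Or.inr (by rw [hσ]; exact hz)) h
        rw [cross_right hσ]; exact hc
      · have hs : a ≤ σ z ∧ σ z < b := by unfold SP at h; omega
        have hs' : a ≤ σ x ∧ σ x < b := by unfold SP at h; omega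
        rw [← hcons z hz.1 hz.2 hs.1 hs.2, ← hcons x hx.1 hx.2 hs'.1 hs'.2]
        refine key (σ x) (σ z) hs'.1 hs'.2 hs.1 hs.2 ?_ (Or.inr (by rw [hσ]; exact hz)) h
        rw [cross_right hσ, cross_left hσ]; exact hc
    · intro x hx hσx
      have hx1 := hx.1
      have hx2 := hx.2
      by_cases k1 : x < e + 1
      · rw [cl x k1, l1 x ⟨hx1, k1⟩ hσx]
        simp [glue, show x < s by omega]
      · by_cases k2 : x < e'
        · exact (hσx (hgap x (by omega) k2)).elim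
        · rw [cr x (by omega), r1 x ⟨by omega, hx2⟩ hσx]
          simp [glue, show ¬ x < s by omega]

open Classical in
theorem F_eq_sum (σ : ℕ → ℕ) (a b : ℕ) (w : ℕ → Fin 3) :
    F σ a b w = ∑ c ∈ Col a b, if Good σ a b c ∧ Agree σ a b w c then 1 else 0 := by
  unfold F
  rw [Finset.card_filter]

theorem supp_congr {σ : ℕ → ℕ} {g h : ℕ} {α β : Fin 3} {w w' : ℕ → Fin 3}
    (hw : ∀ x ∈ Set.Ico g h, σ x ∉ Set.Ico g h → w x = w' x) (H : Supp σ g h α β w) :
    Supp σ g h α β w' := by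
  obtain ⟨h1, h2, h3⟩ := H
  refine ⟨fun x hx hs => ?_, fun x hx hs => ?_, fun x hx y hy hxy hsx hsy => ?_⟩
  · rw [← hw x hx (fun h => by have := h.1; omega)]
    exact h1 x hx hs
  · rw [← hw x hx (fun h => by have := h.2; omega)]
    exact h2 x hx hs
  · rw [← hw x hx (fun h => by have := h.2; omega), ← hw y hy (fun h => by have := h.1; omega)]
    exact h3 x hx y hy hxy hsx hsy

open Classical in
theorem K_eq_sum (σ : ℕ → ℕ) (g h : ℕ) (α β : Fin 3) (w : ℕ → Fin 3) :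
    K σ g h α β w = ∑ c ∈ Col g h, if AM σ g h α β w c then 1 else 0 := by
  unfold K
  split_ifs with hs
  · rw [F_eq_sum]
    refine Finset.sum_congr rfl fun c _ => ?_
    congr 1
    refine propext ⟨fun hc => ⟨supp_congr (fun x hx h => (hc.2 x hx h).symm) hs, hc⟩,
      fun hc => hc.2⟩
  · symm
    refine Finset.sum_eq_zero fun c _ => ?_
    rw [if_neg]
    rintro ⟨h1, h2, h3⟩
    exact hs (supp_congr (fun x hx h => h3 x hx h) h1)

open Classical in
/-- Adjacent external chords of different colours: the rank is at most the one of the gap. -/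
theorem bdry (hσ : ∀ x, σ (σ x) = x) (hne : ∀ x, σ x ≠ x) (hae : a ≤ e) (hee : e < e')
    (heb : e' < b) (he : σ e ∉ Set.Ico a b) (he' : σ e' ∉ Set.Ico a b)
    (hgap : ∀ y, e + 1 ≤ y → y < e' → a ≤ σ y ∧ σ y < b) (hαβ : α ≠ β) {r : ℕ}
    (hK : KB σ (e + 1) e' r) (hes : e < s) (hse : s ≤ e') :
    RankLE r (fun w₁ w₂ : ℕ → Fin 3 =>
      if w₁ e = α ∧ w₂ e' = β then F σ a b (glue s w₁ w₂) else 0) := by
  obtain ⟨γ, hγα, hγβ⟩ : ∃ γ : Fin 3, γ ≠ α ∧ γ ≠ β := by
    revert hαβ; revert α β; decide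
  have h1 := (hK α β hαβ).comp (fun c : ℕ → Fin 3 => fun x => c (σ x))
    (fun c : ℕ → Fin 3 => fun x => c (σ x))
  have h2 := h1.sandwich (Col a (e + 1)) (Col e' b)
    (fun w c => if AL σ a b (e + 1) e' γ w c then 1 else 0)
    (fun c w => if AR σ a b (e + 1) e' γ w c then 1 else 0)
  refine h2.restrict (fun w => w e = α) (fun w => w e' = β) ?_ ?_
  · intro w₁ w₂ hw1 hw2
    rw [if_pos ⟨hw1, hw2⟩, F_eq_sum, col_split (m := e + 1) (by omega) (by omega)]
    refine Finset.sum_congr rfl fun c₁ _ => ?_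
    rw [col_split (m := e') (by omega) (by omega), Finset.sum_comm]
    refine Finset.sum_congr rfl fun c₃ _ => ?_
    rw [K_eq_sum, Finset.mul_sum, Finset.sum_mul]
    refine Finset.sum_congr rfl fun c₂ _ => ?_
    have key := good_split (c₁ := c₁) (c₂ := c₂) (c₃ := c₃) hσ hne hae hee heb he he' hgap hαβ
      hγα hγβ hes hse hw1 hw2
    by_cases k1 : AL σ a b (e + 1) e' γ w₁ c₁
    · by_cases k2 : AM σ (e + 1) e' α β (mg σ (e + 1) (fun x => c₁ (σ x)) (fun x => c₃ (σ x))) c₂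
      · by_cases k3 : AR σ a b (e + 1) e' γ w₂ c₃
        · rw [if_pos (key.2 ⟨k1, k2, k3⟩), if_pos k1, if_pos k2, if_pos k3]; rfl
        · rw [if_neg (fun h => k3 (key.1 h).2.2), if_neg k3, mul_zero]
      · rw [if_neg (fun h => k2 (key.1 h).2.1), if_neg k2, mul_zero, zero_mul]
    · rw [if_neg (fun h => k1 (key.1 h).1), if_neg k1, zero_mul, zero_mul]
  · intro w₁ w₂ h
    rw [if_neg h]

end bdry

end Pool.Agent.H79.TC
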