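import Pool.Agent.H79.TC.Sem

/-!
# Opening and closing a chord
-/

set_option autoImplicit false

open Finset

namespace Pool.Agent.H79.TC

/-! ### Elementary facts -/

theorem cl_leftV_append (p n : ℕ) : ∀ (As Bs : List Core) (u w : List (Fin 3)) (x : ℕ → ZMod p),
    u.length = As.length →
    leftV p n x (As ++ Bs) (u ++ w) = leftV p n (leftV p n x As u) Bs w := by
  intro As
  induction As with
  | nil =>
    intro Bs u w x hu
    have : u = [] := List.eq_nil_of_length_eq_zero (by simpa using hu)
    subst this
    simp [leftV]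
  | cons A As ih =>
    intro Bs u w x hu
    cases u with
    | nil => simp at hu
    | cons a u =>
      simp only [List.cons_append, leftV]
      exact ih Bs u w _ (by simpa using hu)

/-- A list which is given by its entries below `n`. -/
theorem getD_rangeMap {β : Type*} (n : ℕ) (f : ℕ → β) (d : β) (s : ℕ) :
    ((List.range n).map f).getD s d = if s < n then f s else d := by
  rw [List.getD_eq_getElem?_getD, List.getElem?_map]
  by_cases h : s < n
  · rw [List.getElem?_range h, if_pos h]; rfl
  · rw [if_neg h, List.getElem?_eq_none (by simpa using h)]; rfl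

theorem getD_mapF {α β : Type*} (l : List α) (f : α → β) (d : α) (d' : β) (s : ℕ) :
    (l.map f).getD s d' = if s < l.length then f (l.getD s d) else d' := by
  rw [List.getD_eq_getElem?_getD, List.getElem?_map]
  by_cases h : s < l.length
  · rw [if_pos h, List.getElem?_eq_getElem h, List.getD_eq_getElem _ _ h]; rfl
  · rw [if_neg h, List.getElem?_eq_none (by simpa using h)]; rfl

theorem cast_listSum_range (p n : ℕ) (f : ℕ → ℕ) :
    ((((List.range n).map f).sum : ℕ) : ZMod p) = ∑ s ∈ range n, (f s : ZMod p) := by
  induction n with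
  | zero => simp
  | succ n ih =>
    rw [List.range_succ, List.map_append, List.sum_append, Nat.cast_add, ih, sum_range_succ]
    simp

theorem toV_dot (p n : ℕ) (v w : List ℕ) :
    ((dot p n v w : ℕ) : ZMod p) = ∑ s ∈ range n, toV p v s * toV p w s := by
  unfold dot
  rw [ZMod.natCast_mod, cast_listSum_range]
  refine sum_congr rfl fun s _ => ?_
  rw [Nat.cast_mul]; rfl

theorem cl_toV_vecMat (p n : ℕ) (v : List ℕ) (M : Mat) (j : ℕ) :
    toV p (vecMat p n v M) j = stepV p n (toV p v) M j := by
  unfold toV vecMat stepV
  rw [getD_rangeMap]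
  by_cases hj : j < n
  · rw [if_pos hj, if_pos hj, ZMod.natCast_mod, cast_listSum_range]
    refine sum_congr rfl fun s _ => ?_
    rw [Nat.cast_mul]; rfl
  · rw [if_neg hj, if_neg hj, Nat.cast_zero]

/-- The rows of a matrix as vectors. -/
theorem entM_eq_toV (p : ℕ) (M : Mat) (i j : ℕ) : entM p M i j = toV p (M.getD i []) j := rfl

theorem toV_nil (p i : ℕ) : toV p [] i = 0 := by simp [toV]

theorem stepV_congr (p n : ℕ) {x y : ℕ → ZMod p} (h : ∀ s < n, x s = y s) (M : Mat) :
    stepV p n x M = stepV p n y M := by
  funext j
  unfold stepV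
  by_cases hj : j < n
  · rw [if_pos hj, if_pos hj]
    exact sum_congr rfl fun s hs => by rw [h s (mem_range.mp hs)]
  · rw [if_neg hj, if_neg hj]

theorem getD_range3 (f : ℕ → Mat) (a : Fin 3) :
    ((List.range 3).map f).getD (a : ℕ) [] = f a := by
  rw [getD_rangeMap, if_pos a.2]

/-! ### Multiplication by a matrix from the left -/

theorem leftMul_spec (p n : ℕ) (X : Mat) (cores : List Core) (fin : List ℕ) (y : ℕ → ZMod p)
    (u : List (Fin 3)) (hu : u.length = cores.length) :
    ∑ s ∈ range n, leftV p n y (leftMul p n X (cores, fin)).1 u s *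
      toV p (leftMul p n X (cores, fin)).2 s =
    ∑ s ∈ range n, leftV p n (stepV p n y X) cores u s * toV p fin s := by
  cases cores with
  | nil =>
    have : u = [] := List.eq_nil_of_length_eq_zero (by simpa using hu)
    subst this
    simp only [leftMul, leftV]
    have h1 : ∀ s, toV p (X.map fun v => dot p n v fin) s =
        ∑ t ∈ range n, entM p X s t * toV p fin t := by
      intro s
      unfold toV
      rw [getD_mapF X _ [] 0]
      by_cases hs : s < X.length
      · rw [if_pos hs, toV_dot]; rfl
      · rw [if_neg hs, Nat.cast_zero]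
        symm
        refine sum_eq_zero fun t _ => ?_
        rw [entM_eq_toV, List.getD_eq_default _ _ (by omega), toV_nil, zero_mul]
    simp_rw [h1]
    have h2 : ∀ t ∈ range n, stepV p n y X t * toV p fin t =
        ∑ s ∈ range n, y s * (entM p X s t * toV p fin t) := by
      intro t ht
      unfold stepV
      rw [if_pos (mem_range.mp ht), sum_mul]
      exact sum_congr rfl fun s _ => by ring
    rw [sum_congr rfl h2, sum_comm]
    exact sum_congr rfl fun s _ => by rw [mul_sum]
  | cons A As =>
    cases u with
    | nil => simp at hu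
    | cons a u =>
      simp only [leftMul, leftV]
      have h1 : stepV p n y (((List.range 3).map fun a =>
          X.map fun v => vecMat p n v (A.getD a [])).getD (a : ℕ) []) =
          stepV p n (stepV p n y X) (A.getD (a : ℕ) []) := by
        rw [getD_range3 (fun a => X.map fun v => vecMat p n v (A.getD a [])) a]
        funext j
        unfold stepV
        by_cases hj : j < n
        · rw [if_pos hj, if_pos hj]
          have h2 : ∀ s, entM p (X.map fun v => vecMat p n v (A.getD (a : ℕ) [])) s j =
              ∑ t ∈ range n, entM p X s t * entM p (A.getD (a : ℕ) []) t j := by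
            intro s
            rw [entM_eq_toV, getD_mapF X _ [] []]
            by_cases hs : s < X.length
            · rw [if_pos hs, cl_toV_vecMat, stepV, if_pos hj]; rfl
            · rw [if_neg hs, toV_nil]
              symm
              refine sum_eq_zero fun t _ => ?_
              rw [entM_eq_toV p X, List.getD_eq_default _ _ (by omega), toV_nil, zero_mul]
          simp_rw [h2]
          have h3 : ∀ t ∈ range n, (if t < n then ∑ s ∈ range n, y s * entM p X s t else 0) *
              entM p (A.getD (a : ℕ) []) t j =
              ∑ s ∈ range n, y s * (entM p X s t * entM p (A.getD (a : ℕ) []) t j) := by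
            intro t ht
            rw [if_pos (mem_range.mp ht), sum_mul]
            exact sum_congr rfl fun s _ => by ring
          rw [sum_congr rfl h3, sum_comm]
          exact sum_congr rfl fun s _ => by rw [mul_sum]
        · rw [if_neg hj, if_neg hj]
      rw [h1]

/-! ### Spreading -/

theorem sum_three_mul {R : Type*} [AddCommMonoid R] (D : ℕ) (f : ℕ → ℕ → R) :
    ∑ s ∈ range (3 * D), f (s % 3) (s / 3) = ∑ a : Fin 3, ∑ g ∈ range D, f a g := by
  induction D with
  | zero => simp
  | succ D ih =>
    rw [show 3 * (D + 1) = 3 * D + 1 + 1 + 1 by ring, sum_range_succ, sum_range_succ,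
      sum_range_succ, ih]
    have h0 : 3 * D % 3 = 0 := by omega
    have h1 : (3 * D + 1) % 3 = 1 := by omega
    have h2 : (3 * D + 1 + 1) % 3 = 2 := by omega
    have h0' : 3 * D / 3 = D := by omega
    have h1' : (3 * D + 1) / 3 = D := by omega
    have h2' : (3 * D + 1 + 1) / 3 = D := by omega
    rw [h0, h1, h2, h0', h1', h2']
    simp only [Fin.sum_univ_three, sum_range_succ, Fin.val_zero, Fin.val_one, Fin.val_two]
    abel

theorem sum_range_supp {R : Type*} [AddCommMonoid R] {n D : ℕ} (hn : D ≤ n) (f : ℕ → R)
    (hf : ∀ g, D ≤ g → f g = 0) : ∑ g ∈ range n, f g = ∑ g ∈ range D, f g := by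
  symm
  refine sum_subset (fun x hx => mem_range.mpr ((mem_range.mp hx).trans_le hn)) ?_
  intro x _ hx
  exact hf x (by simpa using hx)

/-- A sum over `s < n` as a sum over `s = 3 * g + a`. -/
theorem sum_spread {R : Type*} [AddCommMonoid R] {n D : ℕ} (hn : 3 * D ≤ n) (f : ℕ → ℕ → R)
    (hf : ∀ a g, D ≤ g → f a g = 0) :
    ∑ s ∈ range n, f (s % 3) (s / 3) = ∑ a : Fin 3, ∑ g ∈ range n, f a g := by
  rw [sum_range_supp hn (fun s => f (s % 3) (s / 3)) (fun s hs => hf _ _ (by omega)),
    sum_three_mul]
  exact sum_congr rfl fun a _ => (sum_range_supp (by omega) _ (hf a)).symm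

theorem entM_spreadCore (p n : ℕ) (A : Core) (b : Fin 3) {s j : ℕ} (hs : s < n) (hj : j < n) :
    entM p ((spreadCore n A).getD (b : ℕ) []) s j =
      if s % 3 = b then 0 else if j % 3 = s % 3 then entM p (A.getD (b : ℕ) []) (s / 3) (j / 3)
        else 0 := by
  unfold spreadCore
  rw [getD_range3 (fun b => (List.range n).map fun s =>
    bif decide (s % 3 = b) then [] else spreadRow n (s % 3) ((A.getD b []).getD (s / 3) [])) b]
  rw [entM_eq_toV, getD_rangeMap, if_pos hs]
  by_cases h : s % 3 = b
  · rw [if_pos h, decide_eq_true h, cond_true, toV_nil]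
  · rw [if_neg h, decide_eq_false h, cond_false]
    unfold toV spreadRow
    rw [getD_rangeMap, if_pos hj]
    by_cases h' : j % 3 = s % 3
    · rw [if_pos h', decide_eq_true h', cond_true]; rfl
    · rw [if_neg h', decide_eq_false h', cond_false, Nat.cast_zero]

/-- Zero from `D` on. -/
def Zero (p D : ℕ) (z : ℕ → ZMod p) : Prop := ∀ g, D ≤ g → z g = 0

theorem Zero.stepV {p n D : ℕ} (z : ℕ → ZMod p) {M : Mat}
    (hM : ∀ i s, D ≤ s → (M.getD i []).getD s 0 = 0) : Zero p D (stepV p n z M) := by
  intro g hg
  unfold TC.stepV
  by_cases h : g < n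
  · rw [if_pos h]
    refine sum_eq_zero fun s _ => ?_
    unfold entM
    rw [hM s g hg, Nat.cast_zero, mul_zero]
  · rw [if_neg h]

theorem leftV_zero {p n D : ℕ} : ∀ (cores : List Core) (w : List (Fin 3)) (z : ℕ → ZMod p),
    Zero p D z → (∀ A ∈ cores, ∀ a i s, D ≤ s → (((A.getD a []).getD i []).getD s 0) = 0) →
    Zero p D (leftV p n z cores w) := by
  intro cores
  induction cores with
  | nil => intro w z hz _; simpa [leftV] using hz
  | cons A As ih =>
    intro w z hz hA
    cases w with
    | nil => simpa [leftV] using hz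
    | cons b w =>
      exact ih w _ (Zero.stepV _ fun i s hs => hA A (by simp) _ i s hs)
        (fun A' hA' => hA A' (by simp [hA']))

theorem stepV_zero (p n : ℕ) (M : Mat) : stepV p n (fun _ => 0) M = fun _ => 0 := by
  funext j
  unfold stepV
  simp

theorem leftV_of_zero (p n : ℕ) : ∀ (cores : List Core) (w : List (Fin 3)),
    leftV p n (fun _ => 0) cores w = fun _ => 0 := by
  intro cores
  induction cores with
  | nil => intro w; rfl
  | cons A As ih =>
    intro w
    cases w with
    | nil => rfl
    | cons b w =>
      simp only [leftV]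
      rw [stepV_zero]
      exact ih w

/-- Reading the spread cores. -/
theorem leftV_spread {p n D : ℕ} (hn : 3 * D ≤ n) : ∀ (cores : List Core) (w : List (Fin 3))
    (x : ℕ → ZMod p) (z : ℕ → ℕ → ZMod p),
    w.length = cores.length → (∀ a, Zero p D (z a)) → (∀ s < n, x s = z (s % 3) (s / 3)) →
    (∀ A ∈ cores, ∀ a i s, D ≤ s → (((A.getD a []).getD i []).getD s 0) = 0) →
    ∀ s < n, leftV p n x (cores.map (spreadCore n)) w s =
      if (∀ b ∈ w, (b : ℕ) ≠ s % 3) then leftV p n (z (s % 3)) cores w (s / 3) else 0 := by
  intro cores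
  induction cores with
  | nil =>
    intro w x z hw hz hx _
    have : w = [] := List.eq_nil_of_length_eq_zero (by simpa using hw)
    subst this
    intro s hs
    simp [leftV, hx s hs]
  | cons A As ih =>
    intro w x z hw hz hx hA
    cases w with
    | nil => simp at hw
    | cons b w =>
      have hw' : w.length = As.length := by simpa using hw
      set z' : ℕ → ℕ → ZMod p := fun a =>
        if (b : ℕ) = a then fun _ => 0 else stepV p n (z a) (A.getD (b : ℕ) []) with hz'
      have hzero : ∀ a, Zero p D (stepV p n (z a) (A.getD (b : ℕ) [])) := fun a =>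
        Zero.stepV _ fun i s hs => hA A (by simp) _ i s hs
      have h1 : ∀ a, Zero p D (z' a) := by
        intro a g hg
        simp only [hz']
        split_ifs
        · rfl
        · exact hzero a g hg
      have h2 : ∀ s < n, stepV p n x ((spreadCore n A).getD (b : ℕ) []) s = z' (s % 3) (s / 3) := by
        intro j hj
        unfold stepV
        rw [if_pos hj]
        have h3 : ∀ s ∈ range n, x s * entM p ((spreadCore n A).getD (b : ℕ) []) s j =
            (fun a g => if a = j % 3 ∧ (b : ℕ) ≠ a then
              z a g * entM p (A.getD (b : ℕ) []) g (j / 3) else 0) (s % 3) (s / 3) := by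
          intro s hs
          have hs' := mem_range.mp hs
          rw [entM_spreadCore p n A b hs' hj, hx s hs']
          by_cases h4 : s % 3 = b
          · have h5 : ¬(s % 3 = j % 3 ∧ (b : ℕ) ≠ s % 3) := fun h => h.2 h4.symm
            simp only [if_pos h4, if_neg h5, mul_zero]
          · by_cases h5 : j % 3 = s % 3
            · have h6 : s % 3 = j % 3 ∧ (b : ℕ) ≠ s % 3 := ⟨h5.symm, fun h => h4 h.symm⟩
              simp only [if_neg h4, if_pos h5, if_pos h6]
            · have h6 : ¬(s % 3 = j % 3 ∧ (b : ℕ) ≠ s % 3) := fun h => h5 h.1.symm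
              simp only [if_neg h4, if_neg h5, if_neg h6, mul_zero]
        rw [sum_congr rfl h3]
        rw [sum_spread hn (fun a g => if a = j % 3 ∧ (b : ℕ) ≠ a then
              z a g * entM p (A.getD (b : ℕ) []) g (j / 3) else 0)]
        · have hj3 : j % 3 < 3 := Nat.mod_lt _ (by norm_num)
          rw [sum_eq_single (⟨j % 3, hj3⟩ : Fin 3)]
          · simp only [true_and, hz']
            by_cases h6 : (b : ℕ) = j % 3
            · simp [h6]
            · have h7 : j / 3 < n := by omega
              simp [h6, stepV, h7]
          · intro a _ ha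
            refine sum_eq_zero fun g _ => if_neg fun h => ha ?_
            exact Fin.ext h.1
          · intro h; exact absurd (mem_univ _) h
        · intro a g hg
          simp only [hz a g hg, zero_mul, ite_self]
      have h3 := ih w (stepV p n x ((spreadCore n A).getD (b : ℕ) [])) z' hw' h1 h2
        (fun A' hA' => hA A' (by simp [hA']))
      intro s hs
      simp only [List.map_cons, leftV]
      rw [h3 s hs]
      by_cases h4 : (b : ℕ) = s % 3
      · have h5 : ¬(∀ b' ∈ b :: w, (b' : ℕ) ≠ s % 3) := fun h => h b (by simp) h4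
        rw [if_neg h5]
        simp only [hz', if_pos h4, leftV_of_zero, ite_self]
      · simp only [hz', if_neg h4, List.mem_cons, forall_eq_or_imp, ne_eq, not_false_eq_true,
          true_and, h4]

/-! ### The statements -/

theorem entM_linkMat (p n : ℕ) (A : Core) {t s : ℕ} (ht : t < n) (hs : s < n) :
    entM p (linkMat n A) t s = entM p (A.getD (s % 3) []) t (s / 3) := by
  unfold entM linkMat
  rw [getD_rangeMap, if_pos ht, getD_rangeMap, if_pos hs]

theorem val_openMPS {p : ℕ} (hp : p.Prime) {n : ℕ} (hn : 0 < n) (M : MPS) (u : List (Fin 3))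
    (a : Fin 3) (hu : u.length = M.2.1.length) :
    val p n (openMPS p n M) (u ++ [a]) = val p n M u := by
  unfold val openMPS
  simp only
  rw [cl_leftV_append p n _ _ _ _ _ hu]
  simp only [leftV]
  rw [getD_range3 (fun _ => (List.range n).map fun s => [M.2.2.getD s 0 % p]) a]
  rw [sum_eq_single 0]
  · have h1 : toV p [1 % p] 0 = 1 := by
      simp [toV]
    rw [h1, mul_one]
    unfold stepV
    rw [if_pos hn]
    refine sum_congr rfl fun s hs => ?_
    rw [entM_eq_toV, getD_rangeMap, if_pos (mem_range.mp hs)]
    congr 1
    simp [toV]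
  · intro s _ hs
    have : toV p [1 % p] s = 0 := by
      unfold toV
      rw [List.getD_eq_default _ _ (by simp; omega), Nat.cast_zero]
    rw [this, mul_zero]
  · intro h; exact absurd (mem_range.mpr hn) h

theorem length_openMPS (p n : ℕ) (M : MPS) : (openMPS p n M).2.1.length = M.2.1.length + 1 := by
  simp [openMPS]

theorem supp_openMPS {p n D : ℕ} (hD : 0 < D) {M : MPS} (h : SuppLE D M) :
    SuppLE D (openMPS p n M) := by
  refine ⟨h.1, ?_⟩
  intro A hA a i s hs
  simp only [openMPS, List.mem_append, List.mem_singleton] at hA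
  rcases hA with hA | hA
  · exact h.2 A hA a i s hs
  · rw [hA, getD_rangeMap]
    split_ifs
    · rw [getD_rangeMap]
      split_ifs
      · rw [List.getD_eq_default _ _ (by simp; omega)]
      · simp
    · simp

theorem val_closeAt {p : ℕ} (hp : p.Prime) {n D : ℕ} (hn : 3 * D ≤ n) (M : MPS) (hM : SuppLE D M)
    {i : ℕ} (hi : i < M.2.1.length) (u : List (Fin 3)) (hu : u.length + 1 = M.2.1.length) :
    val p n (closeAt p n i M) u =
      ∑ a : Fin 3, if (∀ b ∈ u.drop i, b ≠ a) then val p n M (u.take i ++ a :: u.drop i) else 0 := by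
  set A := (M.2.1.drop i).headD [] with hA
  have hdrop : M.2.1.drop i = A :: M.2.1.drop (i + 1) := by
    rw [hA, List.drop_eq_getElem_cons hi]; rfl
  have hlen : (u.take i).length = (M.2.1.take i).length := by
    simp only [List.length_take]; omega
  have hlen2 : (u.drop i).length = (M.2.1.drop (i + 1)).length := by
    simp only [List.length_drop]; omega
  set y := leftV p n (toV p M.1) (M.2.1.take i) (u.take i) with hy
  have hsupp : ∀ A' ∈ M.2.1.drop (i + 1), ∀ a i s, D ≤ s →
      (((A'.getD a []).getD i []).getD s 0) = 0 :=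
    fun A' hA' => hM.2 A' (List.mem_of_mem_drop hA')
  have hAmem : A ∈ M.2.1 := List.mem_of_mem_drop (i := i) (by rw [hdrop]; simp)
  -- the left side
  have hL : val p n (closeAt p n i M) u = ∑ s ∈ range n,
      leftV p n (stepV p n y (linkMat n A)) ((M.2.1.drop (i + 1)).map (spreadCore n)) (u.drop i) s *
        toV p (spreadVec n M.2.2) s := by
    rw [← leftMul_spec p n (linkMat n A) ((M.2.1.drop (i + 1)).map (spreadCore n))
      (spreadVec n M.2.2) y (u.drop i) (by rw [List.length_map]; exact hlen2)]
    unfold val closeAt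
    simp only [← hA]
    conv_lhs => rw [← List.take_append_drop i u]
    rw [cl_leftV_append p n _ _ _ _ _ hlen]
  rw [hL]
  have hz : ∀ a, Zero p D ((fun a : ℕ => stepV p n y (A.getD a [])) a) := fun a =>
    Zero.stepV _ fun i s hs => hM.2 A hAmem a i s hs
  have h1 := leftV_spread hn (M.2.1.drop (i + 1)) (u.drop i) (stepV p n y (linkMat n A))
    (fun a : ℕ => stepV p n y (A.getD a [])) hlen2 hz (by
      intro s hs
      have h2 : s / 3 < n := by omega
      simp only [stepV, if_pos hs, if_pos h2]
      exact sum_congr rfl fun t ht => by rw [entM_linkMat p n A (mem_range.mp ht) hs]) hsupp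
  have h2 : ∀ s ∈ range n, leftV p n (stepV p n y (linkMat n A))
      ((M.2.1.drop (i + 1)).map (spreadCore n)) (u.drop i) s * toV p (spreadVec n M.2.2) s =
      (fun a g => if (∀ b ∈ u.drop i, (b : ℕ) ≠ a) then
        leftV p n (stepV p n y (A.getD a [])) (M.2.1.drop (i + 1)) (u.drop i) g * toV p M.2.2 g
        else 0) (s % 3) (s / 3) := by
    intro s hs
    rw [h1 s (mem_range.mp hs)]
    have h3 : toV p (spreadVec n M.2.2) s = toV p M.2.2 (s / 3) := by
      unfold toV spreadVec
      rw [getD_rangeMap, if_pos (mem_range.mp hs)]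
    rw [h3]
    simp only
    split_ifs
    · rfl
    · rw [zero_mul]
  rw [sum_congr rfl h2, sum_spread hn (fun a g => if (∀ b ∈ u.drop i, (b : ℕ) ≠ a) then
        leftV p n (stepV p n y (A.getD a [])) (M.2.1.drop (i + 1)) (u.drop i) g * toV p M.2.2 g
        else 0)]
  · refine sum_congr rfl fun a _ => ?_
    have h4 : (∀ b ∈ u.drop i, (b : ℕ) ≠ (a : ℕ)) ↔ ∀ b ∈ u.drop i, b ≠ a := by
      constructor
      · intro h b hb hba; exact h b hb (by rw [hba])
      · intro h b hb hba; exact h b hb (Fin.ext hba)
    by_cases h5 : ∀ b ∈ u.drop i, b ≠ a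
    · simp only [if_pos (h4.mpr h5), if_pos h5]
      unfold val
      conv_rhs => rw [← List.take_append_drop i M.2.1]
      rw [cl_leftV_append p n _ _ _ _ _ hlen, hdrop]
      simp only [leftV]
      rfl
    · simp only [if_neg (fun h => h5 (h4.mp h)), if_neg h5, sum_const_zero]
  · intro a g hg
    have := leftV_zero (n := n) (M.2.1.drop (i + 1)) (u.drop i) _ (hz a) hsupp g hg
    simp only at this
    rw [this, zero_mul, ite_self]

theorem length_closeAt (p n : ℕ) (M : MPS) {i : ℕ} (hi : i < M.2.1.length) :
    (closeAt p n i M).2.1.length + 1 = M.2.1.length := by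
  have h : ∀ (X : Mat) (r : List Core × List ℕ), (leftMul p n X r).1.length = r.1.length := by
    intro X r
    unfold leftMul
    cases hr : r.1 with
    | nil => simp
    | cons A As => simp
  unfold closeAt
  simp only [List.length_append, List.length_take, h, List.length_map, List.length_drop]
  omega

end Pool.Agent.H79.TC
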