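import Mathlib

/-!
# 3-colouring circle graphs: the decision problem

A chord diagram with `n` chords is a (cyclic) word of length `2 * n` in which each of the labels
`0, ..., n - 1` occurs exactly twice. Its circle graph has the labels as vertices, two labels being
adjacent if they alternate in the word.
-/

set_option autoImplicit false

namespace Pool.Agent.H79.TC

/-- The labels `a` and `b` alternate in the word `w`: the chords `a` and `b` cross. -/
def Alternate (w : List ℕ) (a b : ℕ) : Prop :=
  List.Sublist [a, b, a, b] w ∨ List.Sublist [b, a, b, a] w

/-- `w` is a chord diagram with `n` chords. -/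
def IsChordDiagram (n : ℕ) (w : List ℕ) : Prop :=
  w.length = 2 * n ∧ ∀ a < n, w.count a = 2

/-- The circle graph of a chord diagram with `n` chords. -/
def circleGraph (n : ℕ) (w : List ℕ) : SimpleGraph (Fin n) where
  Adj a b := a ≠ b ∧ Alternate w a b
  symm := ⟨fun a b h => ⟨h.1.symm, h.2.symm⟩⟩
  loopless := ⟨fun a h => h.1 rfl⟩

/-- Binary encoding of a word: each label `a` is written as `a` ones followed by a zero. -/
def encodeWord (w : List ℕ) : List Bool :=
  w.flatMap fun a => List.replicate a true ++ [false]

/-- The decision problem 3-COL-CIRCLE. -/
def ThreeColCircle : Set (List Bool) :=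
  {x | ∃ (n : ℕ) (w : List ℕ), IsChordDiagram n w ∧ (circleGraph n w).Colorable 3 ∧
    x = encodeWord w}

end Pool.Agent.H79.TC
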