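import Pool.Agent.H79.TC.Sweep

/-!
# After two reductions the dimensions are minimal
-/

set_option autoImplicit false

open Finset

namespace Pool.Agent.H79.TC

namespace Dim

/-! ## Lists -/

theorem sum_range_list (n : ℕ) (f : ℕ → ℕ) :
    ((List.range n).map f).sum = ∑ s ∈ range n, f s := by
  induction n with
  | zero => simp
  | succ n ih => rw [List.range_succ, List.map_append, List.sum_append, ih, sum_range_succ]; simp

theorem getD_map_range {α : Type*} (n : ℕ) (f : ℕ → α) (d : α) (i : ℕ) :
    ((List.range n).map f).getD i d = if i < n then f i else d := by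
  by_cases h : i < n
  · rw [List.getD_eq_getElem _ _ (by simpa using h)]; simp [h]
  · rw [List.getD_eq_default _ _ (by simpa using h)]; simp [h]

theorem getD_take_drop {α : Type*} (L : List α) (d : α) (a b i : ℕ) :
    ((L.drop a).take b).getD i d = if i < b then L.getD (a + i) d else d := by
  by_cases h : i < b
  · rw [if_pos h, List.getD_eq_getElem?_getD, List.getD_eq_getElem?_getD,
      List.getElem?_take_of_lt h, List.getElem?_drop]
  · rw [if_neg h, List.getD_eq_getElem?_getD, List.getElem?_take_eq_none (by omega)]
    rfl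

theorem range_three {α : Type*} (f : ℕ → List α) :
    (List.range 3).flatMap f = f 0 ++ (f 1 ++ f 2) := by
  simp [List.range_succ]

/-! ## One step of the sweep -/

/-- the rows of one step -/
def rowsOf (p n : ℕ) (T : Mat) (A : Core) : Mat :=
  (List.range 3).flatMap fun a => T.map fun v => vecMat p n v (A.getD a [])

/-- the next basis -/
def newT (p n : ℕ) (T : Mat) (A : Core) : Mat := (elim p n (rowsOf p n T A)).1.map Prod.snd

/-- the new core -/
def coreT (p n : ℕ) (T : Mat) (A : Core) : Core :=
  (List.range 3).map fun a =>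
    transp p n (((elim p n (rowsOf p n T A)).2.drop (a * T.length)).take T.length)

theorem sweepStep_eq (p n : ℕ) (s : Mat × List Core) (A : Core) :
    sweepStep p n s A = (newT p n s.1 A, coreT p n s.1 A :: s.2) := rfl

/-- the last basis -/
def TT (p n : ℕ) : Mat → List Core → Mat
  | T, [] => T
  | T, A :: As => TT p n (newT p n T A) As

/-- the cores of the result -/
def CC (p n : ℕ) : Mat → List Core → List Core
  | _, [] => []
  | T, A :: As => CC p n (newT p n T A) As ++ [coreT p n T A]

theorem foldl_sweep (p n : ℕ) (As : List Core) (T : Mat) (acc : List Core) :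
    As.foldl (sweepStep p n) (T, acc) = (TT p n T As, CC p n T As ++ acc) := by
  induction As generalizing T acc with
  | nil => rfl
  | cons A As ih =>
    rw [List.foldl_cons, sweepStep_eq, ih, TT, CC, List.append_assoc, List.singleton_append]

theorem TT_append (p n : ℕ) (As Bs : List Core) (T : Mat) :
    TT p n T (As ++ Bs) = TT p n (TT p n T As) Bs := by
  induction As generalizing T with
  | nil => rfl
  | cons A As ih => rw [List.cons_append, TT, TT, ih]

theorem CC_append (p n : ℕ) (As Bs : List Core) (T : Mat) :
    CC p n T (As ++ Bs) = CC p n (TT p n T As) Bs ++ CC p n T As := by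
  induction As generalizing T with
  | nil => simp [TT, CC]
  | cons A As ih => rw [List.cons_append, CC, CC, TT, ih, List.append_assoc]

theorem length_CC (p n : ℕ) (As : List Core) (T : Mat) : (CC p n T As).length = As.length := by
  induction As generalizing T with
  | nil => rfl
  | cons A As ih => simp [CC, ih]

theorem length_rowsOf (p n : ℕ) (T : Mat) (A : Core) : (rowsOf p n T A).length = 3 * T.length := by
  rw [rowsOf, range_three]
  simp
  ring

theorem getD_rowsOf (p n : ℕ) (T : Mat) (A : Core) {a i : ℕ} (ha : a < 3) (hi : i < T.length) :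
    (rowsOf p n T A).getD (a * T.length + i) [] = vecMat p n (T.getD i []) (A.getD a []) := by
  have key : ∀ M : Mat, (T.map fun v => vecMat p n v M).getD i [] = vecMat p n (T.getD i []) M := by
    intro M
    rw [List.getD_eq_getElem _ _ (by simpa using hi), List.getD_eq_getElem _ _ hi,
      List.getElem_map]
  rw [rowsOf, range_three]
  interval_cases a
  · rw [List.getD_append _ _ _ _ (by simpa using hi)]
    simpa using key (A.getD 0 [])
  · rw [List.getD_append_right _ _ _ _ (by simp), List.getD_append _ _ _ _ (by simpa using hi)]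
    simpa using key (A.getD 1 [])
  · rw [List.getD_append_right _ _ _ _ (by simp; omega),
      List.getD_append_right _ _ _ _ (by simp; omega)]
    have : 2 * T.length + i - (T.map fun v => vecMat p n v (A.getD 0 [])).length -
        (T.map fun v => vecMat p n v (A.getD 1 [])).length = i := by simp; omega
    rw [this]
    exact key (A.getD 2 [])

theorem toV_vecMat (p n : ℕ) (v : List ℕ) (M : Mat) (j : ℕ) :
    toV p (vecMat p n v M) j = stepV p n (toV p v) M j := by
  unfold toV vecMat stepV
  rw [getD_map_range]
  split_ifs with h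
  · rw [ZMod.natCast_mod, sum_range_list]
    push_cast
    rfl
  · simp

theorem entM_transp (p n : ℕ) (M : Mat) (i j : ℕ) :
    entM p (transp p n M) i j = if i < n ∧ j < n then entM p M j i else 0 := by
  unfold entM transp
  rw [getD_map_range]
  by_cases hi : i < n
  · rw [if_pos hi, getD_map_range]
    by_cases hj : j < n
    · rw [if_pos hj, if_pos ⟨hi, hj⟩, ZMod.natCast_mod]
    · rw [if_neg hj, if_neg (fun h => hj h.2)]; simp
  · rw [if_neg hi, if_neg (fun h => hi h.1)]; simp

theorem entM_coreT (p n : ℕ) (T : Mat) (A : Core) {a : ℕ} (ha : a < 3) (i j : ℕ) :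
    entM p ((coreT p n T A).getD a []) i j =
      if i < n ∧ j < n ∧ j < T.length then
        toV p ((elim p n (rowsOf p n T A)).2.getD (a * T.length + j) []) i else 0 := by
  rw [coreT, getD_map_range, if_pos ha, entM_transp]
  by_cases h1 : i < n ∧ j < n
  · rw [if_pos h1]
    unfold entM
    rw [getD_take_drop]
    by_cases h2 : j < T.length
    · rw [if_pos h2, if_pos ⟨h1.1, h1.2, h2⟩]; rfl
    · rw [if_neg h2, if_neg (fun h => h2 h.2.2)]; simp
  · rw [if_neg h1, if_neg (fun h => h1 ⟨h.1, h.2.1⟩)]

theorem getD_coreT_zero (p n : ℕ) (T : Mat) (A : Core) (a i j : ℕ) (hj : T.length ≤ j) :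
    (((coreT p n T A).getD a []).getD i []).getD j 0 = 0 := by
  rw [coreT, getD_map_range]
  split_ifs with ha
  · rw [transp, getD_map_range]
    split_ifs with hi
    · rw [getD_map_range]
      split_ifs with hj'
      · rw [getD_take_drop, if_neg (by omega)]; simp
      · rfl
    · simp
  · simp

/-! ## Linear maps -/

section Lin
variable (p n : ℕ)

/-- restriction to the first `n` indices -/
def rho : (ℕ → ZMod p) →ₗ[ZMod p] (ℕ → ZMod p) where
  toFun x := fun j => if j < n then x j else 0
  map_add' x y := by funext j; by_cases h : j < n <;> simp [h]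
  map_smul' c x := by funext j; by_cases h : j < n <;> simp [h]

theorem rho_apply (x : ℕ → ZMod p) (j : ℕ) : rho p n x j = if j < n then x j else 0 := rfl

/-- one step as a linear map -/
def stepL (M : Mat) : (ℕ → ZMod p) →ₗ[ZMod p] (ℕ → ZMod p) where
  toFun x := stepV p n x M
  map_add' x y := by
    funext j
    simp only [stepV, Pi.add_apply, add_mul, sum_add_distrib]
    split_ifs <;> simp
  map_smul' c x := by
    funext j
    simp only [stepV, Pi.smul_apply, smul_eq_mul, RingHom.id_apply, mul_assoc, ← mul_sum]
    split_ifs <;> simp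

theorem stepL_apply (M : Mat) (x : ℕ → ZMod p) : stepL p n M x = stepV p n x M := rfl

theorem stepV_rho (M : Mat) (x : ℕ → ZMod p) : stepV p n (rho p n x) M = stepV p n x M := by
  funext j
  unfold stepV
  split_ifs
  · refine sum_congr rfl fun s hs => ?_
    rw [rho_apply, if_pos (mem_range.1 hs)]
  · rfl

theorem rho_stepV (M : Mat) (x : ℕ → ZMod p) : rho p n (stepV p n x M) = stepV p n x M := by
  funext j
  rw [rho_apply]
  split_ifs with h
  · rfl
  · rw [stepV, if_neg h]

/-- several steps as a linear map -/
def leftL : List Core → List (Fin 3) → (ℕ → ZMod p) →ₗ[ZMod p] (ℕ → ZMod p)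
  | A :: As, a :: u => (leftL As u).comp (stepL p n (A.getD (a : ℕ) []))
  | [], _ => LinearMap.id
  | _ :: _, [] => LinearMap.id

theorem leftL_apply (As : List Core) (u : List (Fin 3)) (x : ℕ → ZMod p) :
    leftL p n As u x = leftV p n x As u := by
  induction As generalizing x u with
  | nil => simp [leftL, leftV]
  | cons A As ih =>
    cases u with
    | nil => simp [leftL, leftV]
    | cons a u => rw [leftL, leftV, LinearMap.comp_apply, ih, stepL_apply]

theorem leftV_append (As Bs : List Core) (u v : List (Fin 3)) (x : ℕ → ZMod p)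
    (h : u.length = As.length) :
    leftV p n x (As ++ Bs) (u ++ v) = leftV p n (leftV p n x As u) Bs v := by
  induction As generalizing x u with
  | nil =>
    have : u = [] := List.length_eq_zero_iff.1 (by simpa using h)
    subst this
    rfl
  | cons A As ih =>
    cases u with
    | nil => simp at h
    | cons a u =>
      rw [List.cons_append, List.cons_append, leftV, leftV, ih _ _ (by simpa using h)]

theorem leftV_snoc (As : List Core) (A : Core) (u : List (Fin 3)) (a : Fin 3) (x : ℕ → ZMod p)
    (h : u.length = As.length) :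
    leftV p n x (As ++ [A]) (u ++ [a]) = stepV p n (leftV p n x As u) (A.getD (a : ℕ) []) := by
  rw [leftV_append p n _ _ _ _ _ h]
  rfl

/-- the final functional -/
def finL (As : List Core) (v : List (Fin 3)) (c : List ℕ) : (ℕ → ZMod p) →ₗ[ZMod p] ZMod p where
  toFun x := ∑ s ∈ range n, leftV p n x As v s * toV p c s
  map_add' x y := by
    rw [← leftL_apply, map_add, leftL_apply, leftL_apply, ← sum_add_distrib]
    exact sum_congr rfl fun s _ => by rw [Pi.add_apply, add_mul]
  map_smul' r x := by
    rw [← leftL_apply, map_smul, leftL_apply, RingHom.id_apply, smul_eq_mul, mul_sum]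
    exact sum_congr rfl fun s _ => by rw [Pi.smul_apply, smul_eq_mul, mul_assoc]

theorem finL_apply (As : List Core) (v : List (Fin 3)) (c : List ℕ) (x : ℕ → ZMod p) :
    finL p n As v c x = ∑ s ∈ range n, leftV p n x As v s * toV p c s := rfl

theorem finL_rho (As : List Core) (v : List (Fin 3)) (c : List ℕ) (x : ℕ → ZMod p) :
    finL p n As v c (rho p n x) = finL p n As v c x := by
  rw [finL_apply, finL_apply]
  cases As with
  | nil =>
    refine sum_congr rfl fun s hs => ?_
    simp [leftV, rho_apply, mem_range.1 hs]
  | cons A As =>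
    cases v with
    | nil =>
      refine sum_congr rfl fun s hs => ?_
      simp [leftV, rho_apply, mem_range.1 hs]
    | cons a v => rw [leftV, leftV, stepV_rho]

end Lin

/-! ## Triangular systems -/

theorem tri {p : ℕ} (hp : p.Prime) (n N d : ℕ) (hd : d ≤ n) (C : ℕ → ℕ → ZMod p)
    (hC : ∀ k < d, ∃ i < N, C i k ≠ 0 ∧ ∀ l, k < l → C i l = 0) (x : ℕ → ZMod p)
    (hx : ∀ i < N, ∑ s ∈ range n, x s * C i s = 0) : ∀ k < d, x k = 0 := by
  have := Fact.mk hp
  intro k
  induction k using Nat.strong_induction_on with
  | _ k ih =>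
  intro hk
  obtain ⟨i, hi, h1, h2⟩ := hC k hk
  have h3 := hx i hi
  rw [sum_eq_single k] at h3
  · exact (mul_eq_zero.1 h3).resolve_right h1
  · intro s _ hsk
    rcases lt_or_gt_of_ne hsk with h | h
    · rw [ih s h (h.trans hk), zero_mul]
    · rw [h2 s h, mul_zero]
  · intro h
    exact absurd (mem_range.2 (lt_of_lt_of_le hk hd)) h

theorem tri_span {p : ℕ} (hp : p.Prime) (n N d : ℕ) (C : ℕ → ℕ → ZMod p)
    (hC : ∀ k < d, ∃ i < N, C i k ≠ 0 ∧ ∀ l, k < l → C i l = 0)
    (r E : ℕ → ℕ → ZMod p)
    (hr : ∀ i < N, ∀ j < n, r i j = ∑ k ∈ range d, C i k * E k j)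
    (W : Submodule (ZMod p) (ℕ → ZMod p)) (hW : ∀ i < N, rho p n (r i) ∈ W) :
    ∀ k < d, rho p n (E k) ∈ W := by
  have := Fact.mk hp
  intro k
  induction k using Nat.strong_induction_on with
  | _ k ih =>
  intro hk
  obtain ⟨i, hi, h1, h2⟩ := hC k hk
  have h3 : rho p n (E k) = (C i k)⁻¹ • (rho p n (r i) - ∑ l ∈ range k, C i l • rho p n (E l)) := by
    funext j
    rw [Pi.smul_apply, Pi.sub_apply, Finset.sum_apply, smul_eq_mul]
    simp only [Pi.smul_apply, rho_apply, smul_eq_mul]
    by_cases hj : j < n
    · simp only [if_pos hj]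
      rw [hr i hi j hj]
      have h4 : ∑ l ∈ range d, C i l * E l j = ∑ l ∈ range (k + 1), C i l * E l j := by
        symm
        refine sum_subset (range_subset_range.2 hk) fun l _ hl => ?_
        rw [h2 l (by simpa using hl), zero_mul]
      rw [h4, sum_range_succ]
      field_simp
      ring
    · simp [hj]
  rw [h3]
  exact W.smul_mem _ (W.sub_mem (hW i hi)
    (W.sum_mem fun l hl => W.smul_mem _ (ih l (mem_range.1 hl) ((mem_range.1 hl).trans hk))))

/-! ## Invariants of the sweep -/

section Inv
variable {p : ℕ} (hp : p.Prime) (n : ℕ)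

theorem getD_snd (E : List (ℕ × List ℕ)) (k : ℕ) :
    (E.map Prod.snd).getD k [] = (E.getD k (0, [])).2 := by
  rw [List.getD_eq_getElem?_getD, List.getD_eq_getElem?_getD, List.getElem?_map]
  cases E[k]? <;> rfl

/-- independence of a basis -/
def Ind (p n : ℕ) (T : Mat) : Prop :=
  ∀ c : ℕ → ZMod p, (∀ j < n, ∑ k ∈ range T.length, c k * toV p (T.getD k []) j = 0) →
    ∀ k < T.length, c k = 0

include hp in
theorem ind_elim (rows : Mat) : Ind p n ((elim p n rows).1.map Prod.snd) := by
  intro c hc k hk
  rw [List.length_map] at hc hk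
  refine (elim_spec hp n rows).2.2.2.2.2 c (fun j hj => ?_) k hk
  rw [← hc j hj]
  exact sum_congr rfl fun k _ => by rw [getD_snd]

include hp in
theorem length_TT (As : List Core) (T : Mat) (h : T.length ≤ n) : (TT p n T As).length ≤ n := by
  induction As generalizing T with
  | nil => exact h
  | cons A As ih =>
    refine ih _ ?_
    rw [newT, List.length_map]
    exact (elim_spec hp n _).2.2.1

include hp in
theorem ind_TT (As : List Core) (T : Mat) (h : Ind p n T) : Ind p n (TT p n T As) := by
  induction As generalizing T with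
  | nil => exact h
  | cons A As ih => exact ih _ (ind_elim hp n _)

/-- the first basis -/
def T0 (p n : ℕ) (v : List ℕ) : Mat := (elim p n [v]).1.map Prod.snd

/-- the first coefficients -/
def c0 (p n : ℕ) (v : List ℕ) : List ℕ := (elim p n [v]).2.headD []

theorem rr_eq (p n : ℕ) (M : MPS) : rr p n M =
    ((TT p n (T0 p n M.1) M.2.1).map (fun v => dot p n v M.2.2), CC p n (T0 p n M.1) M.2.1,
      c0 p n M.1) := by
  simp only [rr, foldl_sweep, List.append_nil]
  rfl

theorem headD_eq (L : Mat) : L.headD [] = L.getD 0 [] := by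
  cases L <;> rfl

include hp in
theorem length_T0 (v : List ℕ) : (T0 p n v).length ≤ n := by
  rw [T0, List.length_map]
  exact (elim_spec hp n _).2.2.1

include hp in
/-- the basis vectors lie in the span of the left vectors -/
theorem span_TT (v : List ℕ) (Bs : List Core) : ∀ k < (TT p n (T0 p n v) Bs).length,
    rho p n (toV p ((TT p n (T0 p n v) Bs).getD k [])) ∈ Submodule.span (ZMod p)
      {x | ∃ u : List (Fin 3), u.length = Bs.length ∧ x = rho p n (leftV p n (toV p v) Bs u)} := by
  induction Bs using List.reverseRecOn with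
  | nil =>
    intro k hk
    rw [TT, T0, List.length_map] at hk
    rw [TT, T0, getD_snd]
    obtain ⟨e1, e2, e3, e4, e5, e6⟩ := elim_spec hp n [v]
    refine tri_span hp n _ _ (fun i s => toV p ((elim p n [v]).2.getD i []) s) e5
      (fun i => toV p ([v].getD i [])) (fun k => toV p ((elim p n [v]).1.getD k (0, [])).2)
      e4 _ ?_ k hk
    intro i hi
    have : i = 0 := by simpa using hi
    subst this
    refine Submodule.subset_span ⟨[], rfl, ?_⟩
    simp [leftV]
  | append_singleton Bs B ih =>
    intro k hk
    rw [TT_append] at hk ⊢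
    rw [TT, TT] at hk ⊢
    set T := TT p n (T0 p n v) Bs with hT
    rw [newT, List.length_map] at hk
    rw [newT, getD_snd]
    obtain ⟨e1, e2, e3, e4, e5, e6⟩ := elim_spec hp n (rowsOf p n T B)
    refine tri_span hp n _ _ (fun i s => toV p ((elim p n (rowsOf p n T B)).2.getD i []) s) e5
      (fun i => toV p ((rowsOf p n T B).getD i []))
      (fun k => toV p ((elim p n (rowsOf p n T B)).1.getD k (0, [])).2) e4 _ ?_ k hk
    intro i hi
    rw [length_rowsOf] at hi
    have hTpos : 0 < T.length := by
      rcases Nat.eq_zero_or_pos T.length with h | h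
      · rw [h] at hi; omega
      · exact h
    have ha : i / T.length < 3 := by rw [Nat.div_lt_iff_lt_mul hTpos]; exact hi
    have hb : i % T.length < T.length := Nat.mod_lt _ hTpos
    have hi' : i / T.length * T.length + i % T.length = i := Nat.div_add_mod' i T.length
    rw [← hi', getD_rowsOf p n T B ha hb]
    have h1 : rho p n (toV p (vecMat p n (T.getD (i % T.length) []) (B.getD (i / T.length) []))) =
        stepL p n (B.getD (i / T.length) []) (rho p n (toV p (T.getD (i % T.length) []))) := by
      rw [stepL_apply, stepV_rho]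
      have : toV p (vecMat p n (T.getD (i % T.length) []) (B.getD (i / T.length) [])) =
          stepV p n (toV p (T.getD (i % T.length) [])) (B.getD (i / T.length) []) :=
        funext fun j => toV_vecMat p n _ _ j
      rw [this, rho_stepV]
    rw [h1]
    have h2 := ih _ hb
    have h3 := Submodule.mem_map_of_mem (f := stepL p n (B.getD (i / T.length) [])) h2
    rw [Submodule.map_span] at h3
    refine Submodule.span_mono ?_ h3
    rintro _ ⟨_, ⟨u, hu, rfl⟩, rfl⟩
    refine ⟨u ++ [⟨i / T.length, ha⟩], by simp [hu], ?_⟩
    rw [leftV_snoc p n _ _ _ _ _ hu, stepL_apply, stepV_rho, rho_stepV]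

include hp in
/-- the right vectors are nondegenerate -/
theorem nondeg (v : List ℕ) (As : List Core) : ∀ x : ℕ → ZMod p,
    (∀ u : List (Fin 3), u.length = As.length →
      finL p n (CC p n (T0 p n v) As) u (c0 p n v) x = 0) →
    ∀ k < (TT p n (T0 p n v) As).length, x k = 0 := by
  induction As using List.reverseRecOn with
  | nil =>
    intro x hx k hk
    rw [TT, T0, List.length_map] at hk
    obtain ⟨e1, e2, e3, e4, e5, e6⟩ := elim_spec hp n [v]
    refine tri hp n _ _ e3 (fun i s => toV p ((elim p n [v]).2.getD i []) s) e5 x ?_ k hk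
    intro i hi
    have : i = 0 := by simpa using hi
    subst this
    have h1 := hx [] rfl
    rw [finL_apply, CC, c0, headD_eq] at h1
    exact h1
  | append_singleton As A ih =>
    intro x hx k hk
    rw [TT_append] at hk
    rw [TT, TT] at hk
    rw [CC_append] at hx
    set T := TT p n (T0 p n v) As with hT
    rw [newT, List.length_map] at hk
    have hTn : T.length ≤ n := length_TT hp n As _ (length_T0 hp n v)
    obtain ⟨e1, e2, e3, e4, e5, e6⟩ := elim_spec hp n (rowsOf p n T A)
    refine tri hp n _ _ e3 (fun i s => toV p ((elim p n (rowsOf p n T A)).2.getD i []) s) e5 x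
      ?_ k hk
    intro i hi
    rw [length_rowsOf] at hi
    have hTpos : 0 < T.length := by
      rcases Nat.eq_zero_or_pos T.length with h | h
      · rw [h] at hi; omega
      · exact h
    have ha : i / T.length < 3 := by rw [Nat.div_lt_iff_lt_mul hTpos]; exact hi
    have hb : i % T.length < T.length := Nat.mod_lt _ hTpos
    have hi' : i / T.length * T.length + i % T.length = i := Nat.div_add_mod' i T.length
    have h1 := ih (stepV p n x ((coreT p n T A).getD (i / T.length) [])) (fun u hu => by
      have h2 := hx (⟨i / T.length, ha⟩ :: u) (by simp [hu])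
      simp only [CC, List.nil_append, List.singleton_append] at h2
      rw [finL_apply, leftV] at h2
      rw [finL_apply]
      exact h2) (i % T.length) hb
    rw [stepV, if_pos (hb.trans_le hTn)] at h1
    rw [← h1]
    refine sum_congr rfl fun s hs => ?_
    rw [entM_coreT p n T A ha, if_pos ⟨mem_range.1 hs, hb.trans_le hTn, hb⟩, hi']

/-- the left vectors vanish beyond the dimension -/
theorem supp_left (T : Mat) (As : List Core) (hAs : As ≠ []) (x : ℕ → ZMod p) (u : List (Fin 3))
    (hu : u.length = As.length) (s : ℕ) (hs : T.length ≤ s) :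
    leftV p n x (CC p n T As) u s = 0 := by
  cases As with
  | nil => exact absurd rfl hAs
  | cons A As =>
    rw [CC]
    obtain ⟨u', a, rfl⟩ : ∃ u' a, u = u' ++ [a] := by
      rcases List.eq_nil_or_concat u with h | ⟨u', a, h⟩
      · subst h; simp at hu
      · exact ⟨u', a, by rw [h]; simp⟩
    rw [leftV_snoc p n _ _ _ _ _ (by rw [length_CC]; simpa using hu)]
    unfold stepV
    split_ifs with h
    · refine sum_eq_zero fun i _ => ?_
      rw [entM, getD_coreT_zero p n T A _ _ _ hs]
      simp
    · rfl

end Inv

/-! ## The main estimate -/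

theorem main {p : ℕ} (hp : p.Prime) (n D : ℕ) (M : MPS) (h : CutRank p n D M)
    (Bs₁ Bs₂ : List Core) (hB : (rr p n M).2.1 = Bs₁ ++ Bs₂) :
    (TT p n (T0 p n (rr p n M).1) Bs₁).length ≤ D := by
  have hfact := Fact.mk hp
  set m := M.2.1.length with hm
  have hlen : Bs₁.length + Bs₂.length = m := by
    have := congrArg List.length hB
    rw [length_rr] at this
    rw [List.length_append] at this
    omega
  -- split the old cores
  set As₁ := M.2.1.take Bs₂.length with hAs₁
  set As₂ := M.2.1.drop Bs₂.length with hAs₂
  have hsplit : M.2.1 = As₁ ++ As₂ := (List.take_append_drop _ _).symm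
  have hl1 : As₁.length = Bs₂.length := by rw [hAs₁, List.length_take]; omega
  have hl2 : As₂.length = Bs₁.length := by rw [hAs₂, List.length_drop]; omega
  set U := T0 p n M.1 with hU
  have hcores : (rr p n M).2.1 = CC p n (TT p n U As₁) As₂ ++ CC p n U As₁ := by
    rw [rr_eq]
    simp only
    rw [← CC_append, ← hsplit]
  have hBs : Bs₁ = CC p n (TT p n U As₁) As₂ ∧ Bs₂ = CC p n U As₁ := by
    rw [hcores] at hB
    have := List.append_inj hB (by rw [length_CC]; omega)
    exact ⟨this.1.symm, this.2.symm⟩
  set W := TT p n U As₁ with hW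
  -- the left vectors vanish beyond W.length
  have hsupp : ∀ u : List (Fin 3), u.length = Bs₁.length → ∀ s, W.length ≤ s →
      rho p n (leftV p n (toV p (rr p n M).1) Bs₁ u) s = 0 := by
    intro u hu s hs
    rw [rho_apply]
    split_ifs with hsn
    · by_cases hne : As₂ = []
      · have hB1 : Bs₁ = [] := by rw [hBs.1, hne]; rfl
        have hu0 : u = [] := by rw [hB1] at hu; simpa using hu
        rw [hB1, hu0, leftV, toV, List.getD_eq_default]
        · simp
        · rw [rr_eq]
          simp only [List.length_map]
          rw [hsplit, hne, List.append_nil]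
          exact hs
      · rw [hBs.1]
        exact supp_left n W As₂ hne _ u (by omega) s hs
    · rfl
  set T := TT p n (T0 p n (rr p n M).1) Bs₁ with hT
  have hTn : T.length ≤ n := length_TT hp n _ _ (length_T0 hp n _)
  have hInd : Ind p n T := ind_TT hp n _ _ (ind_elim hp n _)
  have hspan := span_TT hp n (rr p n M).1 Bs₁
  rw [← hT] at hspan
  -- the value at the cut
  obtain ⟨f, g, hfg⟩ := h Bs₂.length (by omega)
  -- the linear map
  let Y := {l : List (Fin 3) // l.length = Bs₂.length}
  let lc : (Fin T.length → ZMod p) →ₗ[ZMod p] (ℕ → ZMod p) :=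
    Fintype.linearCombination (ZMod p) (fun k : Fin T.length => rho p n (toV p (T.getD k [])))
  let ψ : (Fin T.length → ZMod p) →ₗ[ZMod p] (Y → ZMod p) :=
    LinearMap.pi fun y : Y => (finL p n Bs₂ y.1.reverse (rr p n M).2.2).comp lc
  have hlc : ∀ c, lc c = ∑ k : Fin T.length, c k • rho p n (toV p (T.getD k [])) := fun c => rfl
  have hinj : Function.Injective ψ := by
    rw [← LinearMap.ker_eq_bot, LinearMap.ker_eq_bot']
    intro c hc
    have h1 : ∀ v : List (Fin 3), v.length = Bs₂.length →
        finL p n Bs₂ v (rr p n M).2.2 (lc c) = 0 := by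
      intro v hv
      have := congrFun hc ⟨v.reverse, by rw [List.length_reverse, hv]⟩
      simpa [ψ] using this
    have h2 : ∀ k < W.length, lc c k = 0 := by
      refine nondeg hp n M.1 As₁ (lc c) fun u hu => ?_
      have := h1 u (by omega)
      rw [hBs.2, rr_eq] at this
      exact this
    have hmem : lc c ∈ Submodule.span (ZMod p) {x | ∃ u : List (Fin 3), u.length = Bs₁.length ∧
        x = rho p n (leftV p n (toV p (rr p n M).1) Bs₁ u)} := by
      rw [hlc]
      exact Submodule.sum_mem _ fun k _ => Submodule.smul_mem _ _ (hspan k k.2)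
    have h3 : ∀ s, W.length ≤ s → lc c s = 0 := by
      intro s hs
      have : Submodule.span (ZMod p) {x | ∃ u : List (Fin 3), u.length = Bs₁.length ∧
          x = rho p n (leftV p n (toV p (rr p n M).1) Bs₁ u)} ≤
          LinearMap.ker (LinearMap.proj s : (ℕ → ZMod p) →ₗ[ZMod p] ZMod p) := by
        rw [Submodule.span_le]
        rintro _ ⟨u, hu, rfl⟩
        exact hsupp u hu s hs
      exact this hmem
    have h4 : lc c = 0 := by
      funext s
      rcases lt_or_ge s W.length with hs | hs
      · exact h2 s hs
      · exact h3 s hs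
    have h5 := hInd (fun k => if hk : k < T.length then c ⟨k, hk⟩ else 0) (fun j hj => by
      have h6 := congrFun h4 j
      rw [hlc, Finset.sum_apply, Pi.zero_apply] at h6
      rw [← Fin.sum_univ_eq_sum_range (fun k => (if hk : k < T.length then c ⟨k, hk⟩ else 0) *
        toV p (T.getD k []) j)]
      rw [← h6]
      refine sum_congr rfl fun k _ => ?_
      rw [dif_pos k.2, Pi.smul_apply, rho_apply, if_pos hj, smul_eq_mul])
    funext k
    have := h5 k k.2
    rw [dif_pos k.2] at this
    exact this
  -- the image lies in a space of dimension at most D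
  let S : Submodule (ZMod p) (Y → ZMod p) := Submodule.span (ZMod p) (Set.range f)
  have hrange : LinearMap.range ψ ≤ S := by
    rintro _ ⟨c, rfl⟩
    have hmem : lc c ∈ Submodule.span (ZMod p) {x | ∃ u : List (Fin 3), u.length = Bs₁.length ∧
        x = rho p n (leftV p n (toV p (rr p n M).1) Bs₁ u)} := by
      rw [hlc]
      exact Submodule.sum_mem _ fun k _ => Submodule.smul_mem _ _ (hspan k k.2)
    let θ : (ℕ → ZMod p) →ₗ[ZMod p] (Y → ZMod p) :=
      LinearMap.pi fun y : Y => finL p n Bs₂ y.1.reverse (rr p n M).2.2
    have hθ : ψ c = θ (lc c) := rfl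
    rw [hθ]
    have : Submodule.span (ZMod p) {x | ∃ u : List (Fin 3), u.length = Bs₁.length ∧
        x = rho p n (leftV p n (toV p (rr p n M).1) Bs₁ u)} ≤ S.comap θ := by
      rw [Submodule.span_le]
      rintro _ ⟨u, hu, rfl⟩
      show θ _ ∈ S
      have hval' : θ (rho p n (leftV p n (toV p (rr p n M).1) Bs₁ u)) =
          ∑ k, g k ⟨u.reverse, by rw [List.length_reverse]; omega⟩ • f k := by
        funext y
        rw [Finset.sum_apply]
        show finL p n Bs₂ y.1.reverse (rr p n M).2.2 _ = _
        have hy : y.1.reverse.length = Bs₂.length := by rw [List.length_reverse]; exact y.2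
        rw [finL_rho, finL_apply]
        have h1 : val p n (rr p n M) (u ++ y.1.reverse) = val p n M (u ++ y.1.reverse).reverse := by
          have := val_rr hp n M (u ++ y.1.reverse).reverse (by
            rw [List.length_reverse, List.length_append]; omega)
          rwa [List.reverse_reverse] at this
        rw [val, hB, leftV_append p n _ _ _ _ _ hu] at h1
        rw [h1, List.reverse_append, List.reverse_reverse]
        have h2 : val p n M (y.1 ++ u.reverse) = _ :=
          hfg y ⟨u.reverse, by rw [List.length_reverse]; omega⟩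
        rw [h2]
        exact sum_congr rfl fun k _ => mul_comm _ _
      rw [hval']
      exact S.sum_mem fun k _ => S.smul_mem _ (Submodule.subset_span ⟨k, rfl⟩)
    exact this hmem
  have hfin : Module.finrank (ZMod p) S ≤ D := by
    have := finrank_range_le_card (R := ZMod p) f
    rw [Fintype.card_fin] at this
    exact this
  have hψ : Module.finrank (ZMod p) (Fin T.length → ZMod p) ≤ Module.finrank (ZMod p) S := by
    have : FiniteDimensional (ZMod p) S := FiniteDimensional.span_of_finite _ (Set.finite_range f)
    refine LinearMap.finrank_le_finrank_of_injective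
      (f := ψ.codRestrict S fun c => hrange ⟨c, rfl⟩) ?_
    intro c c' hcc
    exact hinj (congrArg Subtype.val hcc)
  rw [Module.finrank_fin_fun] at hψ
  omega

/-- the cores of a sweep -/
theorem mem_CC (p n : ℕ) (As : List Core) (T : Mat) (A : Core) (h : A ∈ CC p n T As) :
    ∃ As₁ B As₂, As = As₁ ++ B :: As₂ ∧ A = coreT p n (TT p n T As₁) B := by
  induction As generalizing T with
  | nil => simp [CC] at h
  | cons B As ih =>
    rw [CC, List.mem_append] at h
    rcases h with h | h
    · obtain ⟨As₁, B', As₂, h1, h2⟩ := ih _ h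
      exact ⟨B :: As₁, B', As₂, by rw [h1]; rfl, h2⟩
    · exact ⟨[], B, As, rfl, by simpa [TT] using h⟩

end Dim

open Dim in
theorem supp_rr_rr {p : ℕ} (hp : p.Prime) (n D : ℕ) (M : MPS) (h : CutRank p n D M) :
    SuppLE D (rr p n (rr p n M)) := by
  rw [rr_eq p n (rr p n M)]
  constructor
  · intro s hs
    have h1 := main hp n D M h (rr p n M).2.1 [] (by simp)
    simp only
    rw [List.getD_eq_default]
    rw [List.length_map]
    omega
  · intro A hA a i s hs
    obtain ⟨As₁, B, As₂, h1, h2⟩ := mem_CC p n _ _ A hA
    have h3 := main hp n D M h As₁ (B :: As₂) h1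
    rw [h2]
    exact getD_coreT_zero p n _ _ _ _ _ (h3.trans hs)

end Pool.Agent.H79.TC
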