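import Pool.Agent.H79.TC.Sem

/-!
# Module B1: Gaussian elimination
-/

set_option autoImplicit false

open Finset

namespace Pool.Agent.H79.TC

/-! ### Entries of lists -/

theorem h59_toV_map {p n : ℕ} (f : ℕ → ℕ) {i : ℕ} (hi : i < n) :
    toV p ((List.range n).map f) i = ((f i : ℕ) : ZMod p) := by
  unfold toV
  rw [List.getD_eq_getElem _ _ (by simpa using hi)]
  simp

theorem h59_getD_map {n : ℕ} (f : ℕ → ℕ) {i : ℕ} (hi : i < n) :
    ((List.range n).map f).getD i 0 = f i := by
  rw [List.getD_eq_getElem _ _ (by simpa using hi)]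
  simp

theorem h59_getD_map_ge {n : ℕ} (f : ℕ → ℕ) {i : ℕ} (hi : n ≤ i) :
    ((List.range n).map f).getD i 0 = 0 := by
  rw [List.getD_eq_default _ _ (by simpa using hi)]

theorem h59_toV_ge {p : ℕ} {v : List ℕ} {i : ℕ} (hi : v.length ≤ i) : toV p v i = 0 := by
  unfold toV
  rw [List.getD_eq_default _ _ hi]
  simp

theorem h59_toV_append_lt {p : ℕ} {v w : List ℕ} {i : ℕ} (hi : i < v.length) :
    toV p (v ++ w) i = toV p v i := by
  unfold toV
  rw [List.getD_append _ _ _ _ hi]

theorem h59_toV_append_eq {p : ℕ} {v : List ℕ} {x : ℕ} :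
    toV p (v ++ [x]) v.length = (x : ZMod p) := by
  unfold toV
  rw [List.getD_append_right _ _ _ _ le_rfl]
  simp

theorem h59_getD_snoc_lt {α : Type} (l : List α) (a d : α) {i : ℕ} (hi : i < l.length) :
    (l ++ [a]).getD i d = l.getD i d := List.getD_append _ _ _ _ hi

theorem h59_getD_snoc_eq {α : Type} (l : List α) (a d : α) :
    (l ++ [a]).getD l.length d = a := by
  rw [List.getD_append_right _ _ _ _ le_rfl]
  simp

theorem h59_headD_mem {l : List ℕ} (h : l ≠ []) : l.headD 0 ∈ l := by
  cases l with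
  | nil => exact absurd rfl h
  | cons a l => simp

/-! ### Combinations -/

/-- combination of the basis vectors -/
def h59_S (p : ℕ) (E : List (ℕ × List ℕ)) (c : List ℕ) (j : ℕ) : ZMod p :=
  ∑ k ∈ range E.length, toV p c k * toV p (E.getD k (0, [])).2 j

theorem h59_S_snoc (p : ℕ) (E : List (ℕ × List ℕ)) (e : ℕ × List ℕ) (c : List ℕ) (j : ℕ) :
    h59_S p (E ++ [e]) c j = h59_S p E c j + toV p c E.length * toV p e.2 j := by
  unfold h59_S
  rw [List.length_append, List.length_singleton, Finset.sum_range_succ]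
  congr 1
  · refine Finset.sum_congr rfl fun k hk => ?_
    rw [h59_getD_snoc_lt _ _ _ (Finset.mem_range.1 hk)]
  · rw [h59_getD_snoc_eq]

theorem h59_S_coef (p : ℕ) (E : List (ℕ × List ℕ)) (c : List ℕ) (x : ℕ) (j : ℕ)
    (hc : c.length = E.length) : h59_S p E (c ++ [x]) j = h59_S p E c j := by
  unfold h59_S
  refine Finset.sum_congr rfl fun k hk => ?_
  rw [h59_toV_append_lt (by rw [hc]; exact Finset.mem_range.1 hk)]

/-- well-formed basis -/
def h59_WF (p n : ℕ) (E : List (ℕ × List ℕ)) : Prop :=
  (∀ e ∈ E, e.1 < n ∧ toV p e.2 e.1 = 1) ∧ E.Pairwise (fun e e' => toV p e'.2 e.1 = 0)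

theorem h59_WF_snoc {p n : ℕ} {E : List (ℕ × List ℕ)} {e : ℕ × List ℕ} (h : h59_WF p n E)
    (h1 : e.1 < n) (h2 : toV p e.2 e.1 = 1) (h3 : ∀ e' ∈ E, toV p e.2 e'.1 = 0) :
    h59_WF p n (E ++ [e]) := by
  refine ⟨?_, ?_⟩
  · intro e' he'
    rcases List.mem_append.1 he' with h4 | h4
    · exact h.1 e' h4
    · rw [List.mem_singleton] at h4
      subst h4
      exact ⟨h1, h2⟩
  · rw [List.pairwise_append]
    refine ⟨h.2, List.pairwise_singleton _ _, ?_⟩
    intro a ha b hb
    rw [List.mem_singleton] at hb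
    subst hb
    exact h3 a ha

theorem h59_WF_length {p n : ℕ} (hp : p.Prime) {E : List (ℕ × List ℕ)} (h : h59_WF p n E) :
    E.length ≤ n := by
  have := Fact.mk hp
  have hnd : (E.map Prod.fst).Nodup := by
    rw [List.Nodup, List.pairwise_map]
    refine List.Pairwise.imp_of_mem ?_ h.2
    intro a b ha hb hab heq
    have h1 := (h.1 b hb).2
    rw [heq] at hab
    rw [hab] at h1
    exact zero_ne_one h1
  have h1 : (E.map Prod.fst).toFinset ⊆ range n := by
    intro x hx
    rw [List.mem_toFinset, List.mem_map] at hx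
    obtain ⟨e, he, rfl⟩ := hx
    exact Finset.mem_range.2 (h.1 e he).1
  have h2 := Finset.card_le_card h1
  rw [List.toFinset_card_of_nodup hnd, Finset.card_range, List.length_map] at h2
  exact h2

theorem h59_WF_getD {p n : ℕ} {E : List (ℕ × List ℕ)} (h : h59_WF p n E) {k : ℕ}
    (hk : k < E.length) : (E.getD k (0, [])).1 < n ∧
      toV p (E.getD k (0, [])).2 (E.getD k (0, [])).1 = 1 ∧
      ∀ l, k < l → l < E.length → toV p (E.getD l (0, [])).2 (E.getD k (0, [])).1 = 0 := by
  rw [List.getD_eq_getElem _ _ hk]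
  have h1 := h.1 _ (List.getElem_mem hk)
  refine ⟨h1.1, h1.2, ?_⟩
  intro l hkl hl
  rw [List.getD_eq_getElem _ _ hl]
  exact (List.pairwise_iff_getElem.1 h.2) k l hk hl hkl

/-! ### Reduction of a vector -/

theorem h59_reduce {p n : ℕ} (hp : p.Prime) (v : List ℕ) (E : List (ℕ × List ℕ)) :
    h59_WF p n E → (reduceVec p n E v).2.length = E.length ∧
      (∀ i, (reduceVec p n E v).1.getD i 0 < p) ∧
      (∀ j < n, toV p v j = h59_S p E (reduceVec p n E v).2 j + toV p (reduceVec p n E v).1 j) ∧
      (∀ e ∈ E, toV p (reduceVec p n E v).1 e.1 = 0) := by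
  induction E using List.reverseRecOn with
  | nil =>
    intro _
    refine ⟨rfl, ?_, ?_, by simp⟩
    · intro i
      show ((List.range n).map fun i => v.getD i 0 % p).getD i 0 < p
      by_cases hi : i < n
      · rw [h59_getD_map _ hi]
        exact Nat.mod_lt _ hp.pos
      · rw [h59_getD_map_ge _ (not_lt.1 hi)]
        exact hp.pos
    · intro j hj
      show toV p v j = h59_S p [] [] j + toV p ((List.range n).map fun i => v.getD i 0 % p) j
      rw [h59_toV_map _ hj]
      unfold h59_S toV
      simp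
  | append_singleton E e ih =>
    intro hWF
    have hWE : h59_WF p n E := by
      refine ⟨fun e' he' => hWF.1 e' (List.mem_append_left _ he'), ?_⟩
      exact (List.pairwise_append.1 hWF.2).1
    have he := hWF.1 e (List.mem_append_right _ (List.mem_singleton_self e))
    have hpe : ∀ e' ∈ E, toV p e.2 e'.1 = 0 := fun e' he' =>
      (List.pairwise_append.1 hWF.2).2.2 e' he' e (List.mem_singleton_self e)
    obtain ⟨i1, i2, i3, i4⟩ := ih hWE
    have hstep : reduceVec p n (E ++ [e]) v = redStep p n (reduceVec p n E v) e := by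
      unfold reduceVec
      rw [List.foldl_append]
      rfl
    rw [hstep]
    set s := reduceVec p n E v with hs
    have hval : ∀ i < n, toV p (redStep p n s e).1 i =
        toV p s.1 i - toV p s.1 e.1 * toV p e.2 i := by
      intro i hi
      show toV p ((List.range n).map fun i =>
        (s.1.getD i 0 + (p - s.1.getD e.1 0 % p) * e.2.getD i 0) % p) i = _
      rw [h59_toV_map _ hi]
      have h1 : s.1.getD e.1 0 % p ≤ p := (Nat.mod_lt _ hp.pos).le
      unfold toV
      rw [ZMod.natCast_mod, Nat.cast_add, Nat.cast_mul, Nat.cast_sub h1, ZMod.natCast_mod,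
        ZMod.natCast_self]
      ring
    have hcoef : (redStep p n s e).2 = s.2 ++ [s.1.getD e.1 0 % p] := rfl
    refine ⟨?_, ?_, ?_, ?_⟩
    · rw [hcoef, List.length_append, List.length_append, i1]
      rfl
    · intro i
      show ((List.range n).map fun i =>
        (s.1.getD i 0 + (p - s.1.getD e.1 0 % p) * e.2.getD i 0) % p).getD i 0 < p
      by_cases hi : i < n
      · rw [h59_getD_map _ hi]
        exact Nat.mod_lt _ hp.pos
      · rw [h59_getD_map_ge _ (not_lt.1 hi)]
        exact hp.pos
    · intro j hj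
      rw [hcoef, h59_S_snoc, h59_S_coef _ _ _ _ _ i1, hval j hj]
      have h1 : toV p (s.2 ++ [s.1.getD e.1 0 % p]) E.length = toV p s.1 e.1 := by
        rw [← i1, h59_toV_append_eq, ZMod.natCast_mod]
        rfl
      rw [h1, i3 j hj]
      ring
    · intro e' he'
      rcases List.mem_append.1 he' with h4 | h4
      · rw [hval _ (hWE.1 e' h4).1, i4 e' h4, hpe e' h4]
        ring
      · rw [List.mem_singleton] at h4
        subst h4
        rw [hval _ he.1, he.2]
        ring

/-! ### Inverses -/

theorem h59_invMod {p : ℕ} (hp : p.Prime) {x : ℕ} (hx : (x : ZMod p) ≠ 0) :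
    (x : ZMod p) * (invMod p x : ZMod p) = 1 := by
  have := Fact.mk hp
  have hne : (List.range p).filter (fun y => decide (x * y % p = 1)) ≠ [] := by
    intro h
    have h1 : ((x : ZMod p)⁻¹).val ∈ (List.range p).filter (fun y => decide (x * y % p = 1)) := by
      rw [List.mem_filter, List.mem_range]
      refine ⟨ZMod.val_lt _, ?_⟩
      rw [decide_eq_true_eq]
      have h2 : ((x * ((x : ZMod p)⁻¹).val : ℕ) : ZMod p) = ((1 : ℕ) : ZMod p) := by
        rw [Nat.cast_mul, ZMod.natCast_zmod_val, mul_inv_cancel₀ hx, Nat.cast_one]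
      rw [ZMod.natCast_eq_natCast_iff'] at h2
      rw [h2]
      exact Nat.mod_eq_of_lt hp.one_lt
    rw [h] at h1
    exact absurd h1 (by simp)
  have h1 := h59_headD_mem hne
  rw [List.mem_filter, decide_eq_true_eq] at h1
  have h2 : ((x * invMod p x : ℕ) : ZMod p) = ((1 : ℕ) : ZMod p) := by
    rw [ZMod.natCast_eq_natCast_iff', Nat.mod_eq_of_lt hp.one_lt]
    exact h1.2
  rw [Nat.cast_mul, Nat.cast_one] at h2
  exact h2

/-! ### The invariant -/

/-- state after the rows `R` -/
structure h59_Inv (p n : ℕ) (R : Mat) (s : List (ℕ × List ℕ) × Mat) : Prop where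
  wf : h59_WF p n s.1
  len : s.2.length = R.length
  len2 : ∀ i, (s.2.getD i []).length ≤ s.1.length
  rows : ∀ i < R.length, ∀ j < n, toV p (R.getD i []) j = h59_S p s.1 (s.2.getD i []) j
  tri : ∀ k < s.1.length, ∃ i < R.length, toV p (s.2.getD i []) k ≠ 0 ∧
    ∀ l, k < l → toV p (s.2.getD i []) l = 0

theorem h59_inv_nil (p n : ℕ) : h59_Inv p n [] ([], []) :=
  ⟨⟨by simp, List.Pairwise.nil⟩, rfl, by simp, by simp, by simp⟩

theorem h59_inv_step {p n : ℕ} (hp : p.Prime) {R : Mat} {s : List (ℕ × List ℕ) × Mat}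
    (h : h59_Inv p n R s) (v : List ℕ) : h59_Inv p n (R ++ [v]) (addRow p n s v) := by
  have := Fact.mk hp
  obtain ⟨r1, r2, r3, r4⟩ := h59_reduce hp v s.1 h.wf
  have hn : ¬ n < s.1.length := not_lt.2 (h59_WF_length hp h.wf)
  unfold addRow
  set rem := (reduceVec p n s.1 v).1 with hrem
  set cs := (reduceVec p n s.1 v).2 with hcs
  have hlenR : (R ++ [v]).length = R.length + 1 := by simp
  by_cases hz : nonzeros n rem = []
  · -- zero remainder
    have hc : ((nonzeros n rem).isEmpty || decide (n < s.1.length)) = true := by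
      rw [hz]; rfl
    rw [hc]
    show h59_Inv p n (R ++ [v]) (s.1, s.2 ++ [cs])
    have hrem0 : ∀ j < n, toV p rem j = 0 := by
      intro j hj
      by_contra hne
      have h1 : j ∈ nonzeros n rem := by
        unfold nonzeros
        rw [List.mem_filter, List.mem_range]
        refine ⟨hj, ?_⟩
        have h2 : rem.getD j 0 ≠ 0 := by
          intro h3
          apply hne
          unfold toV
          rw [h3]
          simp
        show (!decide (rem.getD j 0 = 0)) = true
        rw [decide_eq_false h2]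
        rfl
      rw [hz] at h1
      exact absurd h1 (by simp)
    refine ⟨h.wf, by simp [h.len], ?_, ?_, ?_⟩
    · intro i
      show ((s.2 ++ [cs]).getD i []).length ≤ s.1.length
      rcases lt_trichotomy i s.2.length with h1 | h1 | h1
      · rw [h59_getD_snoc_lt _ _ _ h1]
        exact h.len2 i
      · rw [h1, h59_getD_snoc_eq, r1]
      · rw [List.getD_eq_default _ _ (by simp; omega)]
        exact Nat.zero_le _
    · intro i hi j hj
      show toV p ((R ++ [v]).getD i []) j = h59_S p s.1 ((s.2 ++ [cs]).getD i []) j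
      rcases Nat.lt_or_ge i R.length with h1 | h1
      · rw [h59_getD_snoc_lt _ _ _ h1, h59_getD_snoc_lt _ _ _ (by rw [h.len]; exact h1)]
        exact h.rows i h1 j hj
      · have h2 : i = R.length := by omega
        rw [h2, h59_getD_snoc_eq, ← h.len, h59_getD_snoc_eq, r3 j hj, hrem0 j hj, add_zero]
    · intro k hk
      obtain ⟨i, h1, h2, h3⟩ := h.tri k hk
      refine ⟨i, by omega, ?_⟩
      show toV p ((s.2 ++ [cs]).getD i []) k ≠ 0 ∧
        ∀ l, k < l → toV p ((s.2 ++ [cs]).getD i []) l = 0
      rw [h59_getD_snoc_lt _ _ _ (by rw [h.len]; exact h1)]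
      exact ⟨h2, h3⟩
  · -- new basis vector
    have hc : ((nonzeros n rem).isEmpty || decide (n < s.1.length)) = false := by
      have h1 : (nonzeros n rem).isEmpty = false := by
        rw [List.isEmpty_eq_false_iff]
        exact hz
      rw [h1]
      simp [hn]
    rw [hc]
    set q := (nonzeros n rem).headD 0 with hq
    have hqm : q ∈ nonzeros n rem := h59_headD_mem hz
    unfold nonzeros at hqm
    rw [List.mem_filter, List.mem_range] at hqm
    have hqn : q < n := hqm.1
    have hq0 : rem.getD q 0 ≠ 0 := by simpa using hqm.2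
    have hqc : ((rem.getD q 0 : ℕ) : ZMod p) ≠ 0 := by
      intro h1
      rw [ZMod.natCast_eq_zero_iff] at h1
      exact hq0 (Nat.eq_zero_of_dvd_of_lt h1 (r2 q))
    have hinv := h59_invMod hp hqc
    set w := (List.range n).map fun i => (rem.getD i 0 * invMod p (rem.getD q 0)) % p with hw
    show h59_Inv p n (R ++ [v]) (s.1 ++ [(q, w)], s.2 ++ [cs ++ [rem.getD q 0]])
    have hwv : ∀ i < n, toV p w i = toV p rem i * (invMod p (rem.getD q 0) : ZMod p) := by
      intro i hi
      rw [hw, h59_toV_map _ hi, ZMod.natCast_mod, Nat.cast_mul]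
      rfl
    have hwr : ∀ i < n, toV p rem i = ((rem.getD q 0 : ℕ) : ZMod p) * toV p w i := by
      intro i hi
      rw [hwv i hi]
      have : ((rem.getD q 0 : ℕ) : ZMod p) * (toV p rem i * (invMod p (rem.getD q 0) : ZMod p)) =
        toV p rem i * (((rem.getD q 0 : ℕ) : ZMod p) * (invMod p (rem.getD q 0) : ZMod p)) := by
        ring
      rw [this, hinv, mul_one]
    refine ⟨?_, by simp [h.len], ?_, ?_, ?_⟩
    · refine h59_WF_snoc h.wf hqn ?_ ?_
      · show toV p w q = 1
        rw [hwv q hqn]
        exact hinv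
      · intro e' he'
        show toV p w e'.1 = 0
        rw [hwv _ (h.wf.1 e' he').1, r4 e' he', zero_mul]
    · intro i
      show ((s.2 ++ [cs ++ [rem.getD q 0]]).getD i []).length ≤ (s.1 ++ [(q, w)]).length
      rw [List.length_append, List.length_singleton]
      rcases lt_trichotomy i s.2.length with h1 | h1 | h1
      · rw [h59_getD_snoc_lt _ _ _ h1]
        exact (h.len2 i).trans (Nat.le_succ _)
      · rw [h1, h59_getD_snoc_eq, List.length_append, r1]
        rfl
      · rw [List.getD_eq_default _ _ (by simp; omega)]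
        exact Nat.zero_le _
    · intro i hi j hj
      show toV p ((R ++ [v]).getD i []) j =
        h59_S p (s.1 ++ [(q, w)]) ((s.2 ++ [cs ++ [rem.getD q 0]]).getD i []) j
      rw [h59_S_snoc]
      rcases Nat.lt_or_ge i R.length with h1 | h1
      · rw [h59_getD_snoc_lt _ _ _ h1, h59_getD_snoc_lt _ _ _ (by rw [h.len]; exact h1),
          h59_toV_ge (h.len2 i), zero_mul, add_zero]
        exact h.rows i h1 j hj
      · have h2 : i = R.length := by omega
        rw [h2, h59_getD_snoc_eq, ← h.len, h59_getD_snoc_eq, h59_S_coef _ _ _ _ _ r1, r3 j hj]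
        congr 1
        have h3 : toV p (cs ++ [rem.getD q 0]) s.1.length = ((rem.getD q 0 : ℕ) : ZMod p) := by
          rw [← r1, h59_toV_append_eq]
        rw [h3]
        exact hwr j hj
    · intro k hk
      have hk' : k < s.1.length + 1 := by simpa using hk
      show ∃ i < (R ++ [v]).length, toV p ((s.2 ++ [cs ++ [rem.getD q 0]]).getD i []) k ≠ 0 ∧
        ∀ l, k < l → toV p ((s.2 ++ [cs ++ [rem.getD q 0]]).getD i []) l = 0
      rcases Nat.lt_or_ge k s.1.length with h1 | h1
      · obtain ⟨i, h2, h3, h4⟩ := h.tri k h1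
        refine ⟨i, by omega, ?_⟩
        rw [h59_getD_snoc_lt _ _ _ (by rw [h.len]; exact h2)]
        exact ⟨h3, h4⟩
      · have h2 : k = s.1.length := by omega
        refine ⟨R.length, by omega, ?_⟩
        rw [← h.len, h59_getD_snoc_eq, h2]
        constructor
        · rw [← r1, h59_toV_append_eq]
          exact hqc
        · intro l hl
          refine h59_toV_ge ?_
          rw [List.length_append, r1, List.length_singleton]
          omega

theorem h59_inv_fold {p n : ℕ} (hp : p.Prime) (rows : Mat) :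
    h59_Inv p n rows (elim p n rows) := by
  induction rows using List.reverseRecOn with
  | nil => exact h59_inv_nil p n
  | append_singleton R v ih =>
    have : elim p n (R ++ [v]) = addRow p n (elim p n R) v := by
      unfold elim
      rw [List.foldl_append]
      rfl
    rw [this]
    exact h59_inv_step hp ih v

theorem h59_indep {p n : ℕ} {E : List (ℕ × List ℕ)} (h : h59_WF p n E) (c : ℕ → ZMod p)
    (hc : ∀ j < n, ∑ k ∈ range E.length, c k * toV p (E.getD k (0, [])).2 j = 0) :
    ∀ k < E.length, c k = 0 := by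
  intro k
  induction k using Nat.strong_induction_on with
  | _ k ih =>
  intro hk
  obtain ⟨h1, h2, h3⟩ := h59_WF_getD h hk
  have h4 := hc _ h1
  rw [Finset.sum_eq_single k] at h4
  · rw [h2, mul_one] at h4
    exact h4
  · intro l hl hlk
    rw [Finset.mem_range] at hl
    rcases lt_or_gt_of_ne hlk with h5 | h5
    · rw [ih l h5 hl, zero_mul]
    · rw [h3 l h5 hl, mul_zero]
  · intro h5
    exact absurd (Finset.mem_range.2 hk) h5

theorem elim_spec {p : ℕ} (hp : p.Prime) (n : ℕ) (rows : Mat) :
    (elim p n rows).2.length = rows.length ∧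
    (∀ i, ((elim p n rows).2.getD i []).length ≤ (elim p n rows).1.length) ∧
    (elim p n rows).1.length ≤ n ∧
    (∀ i < rows.length, ∀ j < n, toV p (rows.getD i []) j =
      ∑ k ∈ range (elim p n rows).1.length,
        toV p ((elim p n rows).2.getD i []) k * toV p ((elim p n rows).1.getD k (0, [])).2 j) ∧
    (∀ k < (elim p n rows).1.length, ∃ i < rows.length,
      toV p ((elim p n rows).2.getD i []) k ≠ 0 ∧
      ∀ l, k < l → toV p ((elim p n rows).2.getD i []) l = 0) ∧
    (∀ c : ℕ → ZMod p, (∀ j < n, ∑ k ∈ range (elim p n rows).1.length,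
        c k * toV p ((elim p n rows).1.getD k (0, [])).2 j = 0) →
      ∀ k < (elim p n rows).1.length, c k = 0) := by
  have h := h59_inv_fold hp (n := n) rows
  exact ⟨h.len, h.len2, h59_WF_length hp h.wf, h.rows, h.tri, h59_indep h.wf⟩

end Pool.Agent.H79.TC
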