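import Pool.Agent.H79.TC.Bdry

/-!
# The rank of a gap
-/

set_option autoImplicit false

open Finset

namespace Pool.Agent.H79.TC

section split

variable {X Y : Type*}

open Classical in
/-- Classification by the last element of `s` with the property `Q`. -/
theorem split_last (s : Finset ℕ) (Q : X → Y → ℕ → Prop) (f : X → Y → ℕ) (r₀ : ℕ) (r : ℕ → ℕ)
    (h0 : RankLE r₀ (fun x y => if (∀ i ∈ s, ¬ Q x y i) then f x y else 0))
    (h : ∀ i ∈ s, RankLE (r i) (fun x y => if (Q x y i ∧ ∀ j ∈ s, i < j → ¬ Q x y j) then f x y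
      else 0)) : RankLE (r₀ + ∑ i ∈ s, r i) f := by
  refine (h0.add (RankLE.sum s r _ h)).congr fun x y => ?_
  by_cases hn : ∀ i ∈ s, ¬ Q x y i
  · rw [if_pos hn, Finset.sum_eq_zero, add_zero]
    intro i hi
    rw [if_neg]
    exact fun hq => hn i hi hq.1
  · rw [if_neg hn, zero_add]
    have hne : (s.filter (Q x y)).Nonempty := by
      push Not at hn
      obtain ⟨i, hi, hq⟩ := hn
      exact ⟨i, Finset.mem_filter.2 ⟨hi, hq⟩⟩
    set m := (s.filter (Q x y)).max' hne with hm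
    have hmm := Finset.mem_filter.1 (Finset.max'_mem _ hne)
    rw [← hm] at hmm
    have hlast : ∀ j ∈ s, m < j → ¬ Q x y j := by
      intro j hj hlt hq
      have := Finset.le_max' _ j (Finset.mem_filter.2 ⟨hj, hq⟩)
      omega
    rw [Finset.sum_eq_single m]
    · rw [if_pos ⟨hmm.2, hlast⟩]
    · intro j hj hjm
      rw [if_neg]
      rintro ⟨h1, h2⟩
      rcases lt_or_gt_of_ne hjm with hlt | hlt
      · exact h2 m hmm.1 hlt hmm.2
      · exact hlast j hj hlt h1
    · intro hms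
      exact (hms hmm.1).elim

open Classical in
/-- Classification by the first element of `s` with the property `Q`. -/
theorem split_first (s : Finset ℕ) (Q : X → Y → ℕ → Prop) (f : X → Y → ℕ) (r₀ : ℕ) (r : ℕ → ℕ)
    (h0 : RankLE r₀ (fun x y => if (∀ i ∈ s, ¬ Q x y i) then f x y else 0))
    (h : ∀ i ∈ s, RankLE (r i) (fun x y => if (Q x y i ∧ ∀ j ∈ s, j < i → ¬ Q x y j) then f x y
      else 0)) : RankLE (r₀ + ∑ i ∈ s, r i) f := by
  refine (h0.add (RankLE.sum s r _ h)).congr fun x y => ?_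
  by_cases hn : ∀ i ∈ s, ¬ Q x y i
  · rw [if_pos hn, Finset.sum_eq_zero, add_zero]
    intro i hi
    rw [if_neg]
    exact fun hq => hn i hi hq.1
  · rw [if_neg hn, zero_add]
    have hne : (s.filter (Q x y)).Nonempty := by
      push Not at hn
      obtain ⟨i, hi, hq⟩ := hn
      exact ⟨i, Finset.mem_filter.2 ⟨hi, hq⟩⟩
    set m := (s.filter (Q x y)).min' hne with hm
    have hmm := Finset.mem_filter.1 (Finset.min'_mem _ hne)
    rw [← hm] at hmm
    have hlast : ∀ j ∈ s, j < m → ¬ Q x y j := by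
      intro j hj hlt hq
      have := Finset.min'_le _ j (Finset.mem_filter.2 ⟨hj, hq⟩)
      omega
    rw [Finset.sum_eq_single m]
    · rw [if_pos ⟨hmm.2, hlast⟩]
    · intro j hj hjm
      rw [if_neg]
      rintro ⟨h1, h2⟩
      rcases lt_or_gt_of_ne hjm with hlt | hlt
      · exact hlast j hj hlt h1
      · exact h2 m hmm.1 hlt hmm.2
    · intro hms
      exact (hms hmm.1).elim

end split

/-- The points of `[g, h)` whose chord leaves `[g, h)`. -/
def Ext (σ : ℕ → ℕ) (g h : ℕ) : Finset ℕ := {x ∈ Finset.Ico g h | σ x < g ∨ h ≤ σ x}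

theorem mem_ext {σ : ℕ → ℕ} {g h x : ℕ} :
    x ∈ Ext σ g h ↔ (g ≤ x ∧ x < h) ∧ (σ x < g ∨ h ≤ σ x) := by
  simp [Ext]

theorem ext_notMem {σ : ℕ → ℕ} {g h x : ℕ} (hx : x ∈ Ext σ g h) : σ x ∉ Set.Ico g h := by
  rw [mem_ext] at hx
  simp only [Set.mem_Ico]
  omega

theorem ka_agree_congr {σ : ℕ → ℕ} {g h : ℕ} {w w' c : ℕ → Fin 3} (hw : ∀ x ∈ Ext σ g h, w x = w' x)
    (H : Agree σ g h w c) : Agree σ g h w' c := by
  intro x hx hs
  rw [H x hx hs]
  apply hw
  rw [mem_ext]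
  simp only [Set.mem_Ico] at hx hs
  omega

theorem F_congr {σ : ℕ → ℕ} {g h : ℕ} {w w' : ℕ → Fin 3} (hw : ∀ x ∈ Ext σ g h, w x = w' x) :
    F σ g h w = F σ g h w' := by
  classical
  rw [F_eq_sum, F_eq_sum]
  refine Finset.sum_congr rfl fun c _ => ?_
  congr 1
  refine propext ⟨fun H => ⟨H.1, ka_agree_congr hw H.2⟩, fun H => ⟨H.1, ka_agree_congr (fun x hx =>
    (hw x hx).symm) H.2⟩⟩

theorem exists_nxt (σ : ℕ → ℕ) (g h y : ℕ) : ∃ x, y < x ∧ (x ∈ Ext σ g h ∨ h ≤ x) :=
  ⟨y + h + 1, by omega, Or.inr (by omega)⟩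

/-- The next external point after `y`, or `h`. -/
def nxt (σ : ℕ → ℕ) (g h y : ℕ) : ℕ := Nat.find (exists_nxt σ g h y)

section nxt

variable {σ : ℕ → ℕ} {g h : ℕ}

theorem lt_nxt (y : ℕ) : y < nxt σ g h y := (Nat.find_spec (exists_nxt σ g h y)).1

theorem nxt_mem (y : ℕ) : nxt σ g h y ∈ Ext σ g h ∨ h ≤ nxt σ g h y :=
  (Nat.find_spec (exists_nxt σ g h y)).2

theorem nxt_le {x y : ℕ} (h1 : y < x) (h2 : x ∈ Ext σ g h) : nxt σ g h y ≤ x :=
  Nat.find_min' _ ⟨h1, Or.inl h2⟩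

theorem nxt_le' {y : ℕ} (h1 : y < h) : nxt σ g h y ≤ h :=
  Nat.find_min' _ ⟨h1, Or.inr le_rfl⟩

theorem nxt_inj {y y' : ℕ} (hy : y ∈ Ext σ g h) (hy' : y' ∈ Ext σ g h)
    (H : nxt σ g h y = nxt σ g h y') : y = y' := by
  by_contra hne
  rcases lt_or_gt_of_ne hne with hlt | hlt
  · have := nxt_le hlt hy'
    have := lt_nxt (σ := σ) (g := g) (h := h) y'
    omega
  · have := nxt_le hlt hy
    have := lt_nxt (σ := σ) (g := g) (h := h) y
    omega

/-- Every external point after `y` follows an external point which is at least `y`. -/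
theorem exists_prev {x y : ℕ} (hy : y ∈ Ext σ g h) (hx : x ∈ Ext σ g h) (hyx : y < x) :
    ∃ j ∈ Ext σ g h, y ≤ j ∧ j < x ∧ nxt σ g h j = x := by
  have hne : ((Ext σ g h).filter (· < x)).Nonempty := ⟨y, Finset.mem_filter.2 ⟨hy, hyx⟩⟩
  have hm := Finset.mem_filter.1 (Finset.max'_mem _ hne)
  refine ⟨_, hm.1, Finset.le_max' _ y (Finset.mem_filter.2 ⟨hy, hyx⟩), hm.2, ?_⟩
  apply le_antisymm (nxt_le hm.2 hx)
  by_contra hlt
  rw [not_le] at hlt
  set j := ((Ext σ g h).filter (· < x)).max' hne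
  have h1 : nxt σ g h j ∈ Ext σ g h := by
    rcases nxt_mem (σ := σ) (g := g) (h := h) j with h1 | h1
    · exact h1
    · have := (mem_ext.1 hx).1.2; omega
  have h2 := Finset.le_max' ((Ext σ g h).filter (· < x)) (nxt σ g h j)
    (Finset.mem_filter.2 ⟨h1, hlt⟩)
  have h3 := lt_nxt (σ := σ) (g := g) (h := h) j
  omega

theorem sum_nxt_sub (σ : ℕ → ℕ) (g h : ℕ) : ∑ e ∈ Ext σ g h, (nxt σ g h e - e) ≤ h - g := by
  have h1 : ∀ e ∈ Ext σ g h, nxt σ g h e - e = (Finset.Ico e (nxt σ g h e)).card := by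
    intro e _; rw [Nat.card_Ico]
  rw [Finset.sum_congr rfl h1, ← Finset.card_biUnion]
  · rw [← Nat.card_Ico]
    apply Finset.card_le_card
    intro x hx
    rw [Finset.mem_biUnion] at hx
    obtain ⟨e, he, hx⟩ := hx
    rw [Finset.mem_Ico] at hx ⊢
    have := (mem_ext.1 he).1
    have := nxt_le' (σ := σ) (g := g) (h := h) this.2
    omega
  · intro e he e' he' hne
    rw [Function.onFun, Finset.disjoint_left]
    intro x hx hx'
    rw [Finset.mem_Ico] at hx hx'
    rcases lt_or_gt_of_ne hne with hlt | hlt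
    · have := nxt_le hlt he'; omega
    · have := nxt_le hlt he; omega

end nxt

/-- The bound for the rank of the gap after `e`. -/
def rho (σ : ℕ → ℕ) (g h e : ℕ) : ℕ := 8 * (nxt σ g h e - e) ^ 4

/-- The gap after `e` is small. -/
def Small (σ : ℕ → ℕ) (g h e : ℕ) : Prop := 2 * (nxt σ g h e - e) ≤ h - g + 1

instance (σ : ℕ → ℕ) (g h e : ℕ) : Decidable (Small σ g h e) := by unfold Small; infer_instance

theorem small_unique {σ : ℕ → ℕ} {g h e e' : ℕ} (he : e ∈ Ext σ g h) (he' : e' ∈ Ext σ g h)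
    (h1 : ¬ Small σ g h e) (h2 : ¬ Small σ g h e') : e = e' := by
  by_contra hne
  have h3 := sum_nxt_sub σ g h
  have h4 : ∑ x ∈ {e, e'}, (nxt σ g h x - x) ≤ ∑ x ∈ Ext σ g h, (nxt σ g h x - x) := by
    apply Finset.sum_le_sum_of_subset
    intro x hx
    rw [Finset.mem_insert, Finset.mem_singleton] at hx
    rcases hx with rfl | rfl <;> assumption
  rw [Finset.sum_pair hne] at h4
  unfold Small at h1 h2
  omega

/-- Sum of the ranks of the small gaps. -/
def SS (σ : ℕ → ℕ) (g h : ℕ) : ℕ := ∑ e ∈ Ext σ g h with Small σ g h e, rho σ g h e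

theorem SS_le (σ : ℕ → ℕ) (g h : ℕ) : SS σ g h ≤ (h - g + 1) ^ 4 := by
  have h1 : SS σ g h ≤ ∑ e ∈ Ext σ g h, (h - g + 1) ^ 3 * (nxt σ g h e - e) := by
    unfold SS
    rw [Finset.sum_filter]
    apply Finset.sum_le_sum
    intro e _
    split_ifs with hs
    · unfold Small at hs
      unfold rho
      have := Nat.pow_le_pow_left hs 3
      calc 8 * (nxt σ g h e - e) ^ 4 = (2 * (nxt σ g h e - e)) ^ 3 * (nxt σ g h e - e) := by ring
        _ ≤ _ := Nat.mul_le_mul_right _ this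
    · exact Nat.zero_le _
  rw [← Finset.mul_sum] at h1
  calc _ ≤ _ := h1
    _ ≤ (h - g + 1) ^ 3 * (h - g) := Nat.mul_le_mul_left _ (sum_nxt_sub σ g h)
    _ ≤ (h - g + 1) ^ 3 * (h - g + 1) := Nat.mul_le_mul_left _ (by omega)
    _ = _ := by ring

section blocks

open Classical

variable {σ : ℕ → ℕ} {g h : ℕ} {α β γ : Fin 3}

/-- Rows: the part up to `y`. -/
def RP (σ : ℕ → ℕ) (g h : ℕ) (α γ : Fin 3) (y : ℕ) (p : ℕ → Fin 3) : Prop :=
  p y = γ ∧ ∀ x ∈ Ext σ g h, x ≤ y → (σ x < g → p x ≠ α) ∧ (h ≤ σ x → p x = α)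

/-- Columns: the part after `y`. -/
def CQ (σ : ℕ → ℕ) (g h : ℕ) (β : Fin 3) (y : ℕ) (q : ℕ → Fin 3) : Prop :=
  ∀ x ∈ Ext σ g h, y < x → (σ x < g → q x = β) ∧ (h ≤ σ x → q x ≠ β)

/-- The class of `y`. -/
noncomputable def BY (σ : ℕ → ℕ) (g h : ℕ) (α β γ : Fin 3) (y : ℕ) (p q : ℕ → Fin 3) : ℕ :=
  if RP σ g h α γ y p ∧ CQ σ g h β y q then F σ g h (glue (y + 1) p q) else 0

theorem bdE (hσ : ∀ x, σ (σ x) = x) (hne : ∀ x, σ x ≠ x) {e s : ℕ} (he : e ∈ Ext σ g h)
    (hn : nxt σ g h e ∈ Ext σ g h) (hK : KB σ (e + 1) (nxt σ g h e) (rho σ g h e))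
    {c c' : Fin 3} (hc : c ≠ c') (hes : e < s) (hse : s ≤ nxt σ g h e) :
    RankLE (rho σ g h e) (fun p q : ℕ → Fin 3 =>
      if p e = c ∧ q (nxt σ g h e) = c' then F σ g h (glue s p q) else 0) := by
  have h1 := (mem_ext.1 he).1
  have h2 := (mem_ext.1 hn).1
  refine bdry hσ hne h1.1 (lt_nxt e) h2.2 (ext_notMem he) (ext_notMem hn) ?_ hc hK hes hse
  intro y hy1 hy2
  by_contra hcon
  have : y ∈ Ext σ g h := by rw [mem_ext]; omega
  have := nxt_le (σ := σ) (g := g) (h := h) (by omega : e < y) this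
  omega

theorem tau_ne (hγα : γ ≠ α) (hγβ : γ ≠ β) (P : Prop) : (if P then β else α) ≠ γ := by
  split_ifs
  · exact hγβ.symm
  · exact hγα.symm

theorem rowblk (hσ : ∀ x, σ (σ x) = x) (hne : ∀ x, σ x ≠ x) (hαβ : α ≠ β) (hγα : γ ≠ α)
    (hγβ : γ ≠ β) (hIH : ∀ e ∈ Ext σ g h, nxt σ g h e ∈ Ext σ g h →
      KB σ (e + 1) (nxt σ g h e) (rho σ g h e)) {y e : ℕ} (hy : y ∈ Ext σ g h)
    (he : e ∈ Ext σ g h) (hey : e < y) :
    RankLE (rho σ g h e) (fun p q : ℕ → Fin 3 =>
      if (p e ≠ γ ∧ ∀ j ∈ (Ext σ g h).filter (· < y), e < j → ¬ p j ≠ γ) then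
        BY σ g h α β γ y p q else 0) := by
  have hny := nxt_le hey hy
  have hn : nxt σ g h e ∈ Ext σ g h := by
    rcases nxt_mem (σ := σ) (g := g) (h := h) e with h1 | h1
    · exact h1
    · have := (mem_ext.1 hy).1; omega
  have h1 := bdE (s := e + 1) hσ hne he hn (hIH e he hn) (tau_ne hγα hγβ (σ e < g)) (by omega)
    (lt_nxt e)
  refine (h1.comp (fun p => p) (fun q => glue (y + 1) (fun _ => γ) q)).restrict
    (fun p => RP σ g h α γ y p ∧ (p e ≠ γ ∧ ∀ j ∈ (Ext σ g h).filter (· < y), e < j → ¬ p j ≠ γ))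
    (fun q => CQ σ g h β y q) ?_ ?_
  · rintro p q ⟨hp1, hp2⟩ hq
    rw [if_pos hp2, BY, if_pos ⟨hp1, hq⟩, if_pos]
    · apply F_congr
      intro x hx
      simp only [glue]
      by_cases k1 : x < e + 1
      · simp [k1, show x < y + 1 by omega]
      · by_cases k2 : x < y + 1
        · simp only [k1, k2, if_true, if_false]
          by_cases k3 : x = y
          · rw [k3]; exact hp1.1
          · by_contra hcon
            exact hp2.2 x (Finset.mem_filter.2 ⟨hx, by omega⟩) (by omega) hcon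
        · simp [k1, k2]
    · constructor
      · have := hp1.2 e he (by omega)
        split_ifs with k
        · exact fin3 (α := α) (β := γ) (Ne.symm hγα) (Ne.symm hαβ) (Ne.symm hγβ) (this.1 k) hp2.1
        · exact this.2 (by have := (mem_ext.1 he).2; omega)
      · simp [glue, show nxt σ g h e < y + 1 by omega]
  · intro p q hpq
    by_cases k : (p e ≠ γ ∧ ∀ j ∈ (Ext σ g h).filter (· < y), e < j → ¬ p j ≠ γ)
    · rw [if_pos k, BY, if_neg]
      exact fun h' => hpq ⟨⟨h'.1, k⟩, h'.2⟩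
    · rw [if_neg k]

theorem rowblk0 (y : ℕ) :
    RankLE 1 (fun p q : ℕ → Fin 3 =>
      if (∀ j ∈ (Ext σ g h).filter (· < y), ¬ p j ≠ γ) then BY σ g h α β γ y p q else 0) := by
  refine (RankLE.of_right (X := ℕ → Fin 3) (fun q : ℕ → Fin 3 => F σ g h (glue (y + 1)
    (fun _ => γ) q))).restrict
    (fun p => RP σ g h α γ y p ∧ (∀ j ∈ (Ext σ g h).filter (· < y), ¬ p j ≠ γ))
    (fun q => CQ σ g h β y q) ?_ ?_
  · rintro p q ⟨hp1, hp2⟩ hq
    rw [if_pos hp2, BY, if_pos ⟨hp1, hq⟩]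
    apply F_congr
    intro x hx
    simp only [glue]
    split_ifs with k
    · by_cases k3 : x = y
      · rw [k3]; exact hp1.1
      · by_contra hcon
        exact hp2 x (Finset.mem_filter.2 ⟨hx, by omega⟩) hcon
    · rfl
  · intro p q hpq
    by_cases k : (∀ j ∈ (Ext σ g h).filter (· < y), ¬ p j ≠ γ)
    · rw [if_pos k, BY, if_neg]
      exact fun h' => hpq ⟨⟨h'.1, k⟩, h'.2⟩
    · rw [if_neg k]

/-- The columns after `y`, with a fixed first letter different from `γ`. -/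
theorem colblk (hσ : ∀ x, σ (σ x) = x) (hne : ∀ x, σ x ≠ x) (hαβ : α ≠ β) (hγα : γ ≠ α)
    (hγβ : γ ≠ β) (hIH : ∀ e ∈ Ext σ g h, nxt σ g h e ∈ Ext σ g h →
      KB σ (e + 1) (nxt σ g h e) (rho σ g h e)) {y j : ℕ} (hy : y ∈ Ext σ g h)
    (hj : j ∈ Ext σ g h) (hyj : y ≤ j) (hn : nxt σ g h j ∈ Ext σ g h) :
    RankLE (rho σ g h j) (fun p q : ℕ → Fin 3 =>
      if (q (nxt σ g h j) ≠ γ ∧
        ∀ i ∈ (Ext σ g h).filter (fun i => y ≤ i ∧ nxt σ g h i ∈ Ext σ g h), i < j →
          ¬ q (nxt σ g h i) ≠ γ) then BY σ g h α β γ y p q else 0) := by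
  have hlt := lt_nxt (σ := σ) (g := g) (h := h) j
  have h1 := bdE (s := nxt σ g h j) hσ hne hj hn (hIH j hj hn)
    (tau_ne hγα hγβ (σ (nxt σ g h j) < g)).symm (lt_nxt j) le_rfl
  refine (h1.comp (fun p => glue (y + 1) p (fun _ => γ)) (fun q => q)).restrict
    (fun p => RP σ g h α γ y p)
    (fun q => CQ σ g h β y q ∧ (q (nxt σ g h j) ≠ γ ∧
        ∀ i ∈ (Ext σ g h).filter (fun i => y ≤ i ∧ nxt σ g h i ∈ Ext σ g h), i < j →
          ¬ q (nxt σ g h i) ≠ γ)) ?_ ?_
  · rintro p q hp ⟨hq1, hq2⟩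
    rw [if_pos hq2, BY, if_pos ⟨hp, hq1⟩, if_pos]
    · apply F_congr
      intro x hx
      simp only [glue]
      by_cases k1 : x < y + 1
      · simp [k1, show x < nxt σ g h j by omega]
      · by_cases k2 : x < nxt σ g h j
        · simp only [k1, k2, if_true, if_false]
          obtain ⟨i, hi, hyi, hix, hnx⟩ := exists_prev hy hx (by omega)
          have hxj : x ≤ j := by
            by_contra hcon
            have := nxt_le (by omega : j < x) hx
            omega
          have := hq2.2 i (Finset.mem_filter.2 ⟨hi, hyi, by rw [hnx]; exact hx⟩) (by omega)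
          rw [hnx] at this
          exact not_not.1 this
        · simp [k1, k2]
    · constructor
      · simp only [glue]
        split_ifs with k
        · rw [show j = y by omega]; exact hp.1
        · rfl
      · have := hq1 _ hn (by omega)
        split_ifs with k
        · exact this.1 k
        · exact fin3 (α := β) (β := γ) (Ne.symm hγβ) hαβ (Ne.symm hγα)
            (this.2 (by have := (mem_ext.1 hn).2; omega)) hq2.1
  · intro p q hpq
    by_cases k : (q (nxt σ g h j) ≠ γ ∧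
        ∀ i ∈ (Ext σ g h).filter (fun i => y ≤ i ∧ nxt σ g h i ∈ Ext σ g h), i < j →
          ¬ q (nxt σ g h i) ≠ γ)
    · rw [if_pos k, BY, if_neg]
      exact fun h' => hpq ⟨h'.1, ⟨h'.2, k⟩⟩
    · rw [if_neg k]

theorem colblk0 {y : ℕ} (hy : y ∈ Ext σ g h) :
    RankLE 1 (fun p q : ℕ → Fin 3 =>
      if (∀ i ∈ (Ext σ g h).filter (fun i => y ≤ i ∧ nxt σ g h i ∈ Ext σ g h),
          ¬ q (nxt σ g h i) ≠ γ) then BY σ g h α β γ y p q else 0) := by
  refine (RankLE.of_left (Y := ℕ → Fin 3) (fun p : ℕ → Fin 3 => F σ g h (glue (y + 1)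
    p (fun _ => γ)))).restrict
    (fun p => RP σ g h α γ y p)
    (fun q => CQ σ g h β y q ∧ (∀ i ∈ (Ext σ g h).filter (fun i => y ≤ i ∧
      nxt σ g h i ∈ Ext σ g h), ¬ q (nxt σ g h i) ≠ γ)) ?_ ?_
  · rintro p q hp ⟨hq1, hq2⟩
    rw [if_pos hq2, BY, if_pos ⟨hp, hq1⟩]
    apply F_congr
    intro x hx
    simp only [glue]
    split_ifs with k
    · rfl
    · obtain ⟨i, hi, hyi, hix, hnx⟩ := exists_prev hy hx (by omega)
      have := hq2 i (Finset.mem_filter.2 ⟨hi, hyi, by rw [hnx]; exact hx⟩)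
      rw [hnx] at this
      exact not_not.1 this
  · intro p q hpq
    by_cases k : (∀ i ∈ (Ext σ g h).filter (fun i => y ≤ i ∧ nxt σ g h i ∈ Ext σ g h),
          ¬ q (nxt σ g h i) ≠ γ)
    · rw [if_pos k, BY, if_neg]
      exact fun h' => hpq ⟨h'.1, ⟨h'.2, k⟩⟩
    · rw [if_neg k]

theorem rho_small_sum_le (S : Finset ℕ) (hS : S ⊆ Ext σ g h) (hs : ∀ e ∈ S, Small σ g h e) :
    ∑ e ∈ S, rho σ g h e ≤ SS σ g h := by
  unfold SS
  apply Finset.sum_le_sum_of_subset
  intro e he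
  exact Finset.mem_filter.2 ⟨hS he, hs e he⟩

/-- All external points strictly between `e` and `y` have their chord to the left. -/
def Run (σ : ℕ → ℕ) (g h e y : ℕ) : Prop := ∀ j ∈ Ext σ g h, e < j → j < y → σ j < g

/-- The contribution of the pair `(y, e)`. -/
noncomputable def tt (σ : ℕ → ℕ) (g h y e : ℕ) : ℕ :=
  if e < y ∧ Run σ g h e y ∧ nxt σ g h y ∈ Ext σ g h ∧ h ≤ σ (nxt σ g h y) then
    (if Small σ g h e then rho σ g h e else 1 + SS σ g h) else 0

theorem rank_BY_all (hσ : ∀ x, σ (σ x) = x) (hne : ∀ x, σ x ≠ x) (hαβ : α ≠ β) (hγα : γ ≠ α)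
    (hγβ : γ ≠ β) (hIH : ∀ e ∈ Ext σ g h, nxt σ g h e ∈ Ext σ g h →
      KB σ (e + 1) (nxt σ g h e) (rho σ g h e)) {y : ℕ} (hy : y ∈ Ext σ g h)
    (hb : ¬ Small σ g h y) : RankLE (1 + SS σ g h) (BY σ g h α β γ y) := by
  refine (split_last ((Ext σ g h).filter (· < y)) (fun p _ e => p e ≠ γ) (BY σ g h α β γ y) 1
    (rho σ g h) ((rowblk0 y).congr fun p q => by congr) ?_).mono ?_
  · intro e he
    rw [Finset.mem_filter] at he
    exact (rowblk hσ hne hαβ hγα hγβ hIH hy he.1 he.2).congr fun p q => by congr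
  · apply Nat.add_le_add_left
    apply rho_small_sum_le _ (Finset.filter_subset _ _)
    intro e he
    rw [Finset.mem_filter] at he
    by_contra hcon
    have := small_unique hy he.1 hb hcon
    omega

theorem rank_BY_cols (hσ : ∀ x, σ (σ x) = x) (hne : ∀ x, σ x ≠ x) (hαβ : α ≠ β) (hγα : γ ≠ α)
    (hγβ : γ ≠ β) (hIH : ∀ e ∈ Ext σ g h, nxt σ g h e ∈ Ext σ g h →
      KB σ (e + 1) (nxt σ g h e) (rho σ g h e)) {y e : ℕ} (hy : y ∈ Ext σ g h)
    (he : e ∈ Ext σ g h) (hey : e < y) (hb : ¬ Small σ g h e) :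
    RankLE (1 + SS σ g h) (BY σ g h α β γ y) := by
  refine (split_first ((Ext σ g h).filter (fun i => y ≤ i ∧ nxt σ g h i ∈ Ext σ g h))
    (fun _ q i => q (nxt σ g h i) ≠ γ) (BY σ g h α β γ y) 1
    (rho σ g h) ((colblk0 hy).congr fun p q => by congr) ?_).mono ?_
  · intro i hi
    rw [Finset.mem_filter] at hi
    exact (colblk hσ hne hαβ hγα hγβ hIH hy hi.1 hi.2.1 hi.2.2).congr fun p q => by congr
  · apply Nat.add_le_add_left
    apply rho_small_sum_le _ (Finset.filter_subset _ _)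
    intro i hi
    rw [Finset.mem_filter] at hi
    by_contra hcon
    have := small_unique he hi.1 hb hcon
    omega

/-- The part of `BY` where the letter after `y` is not `γ`. -/
theorem rank_BY_beta (hσ : ∀ x, σ (σ x) = x) (hne : ∀ x, σ x ≠ x) (hαβ : α ≠ β) (hγα : γ ≠ α)
    (hγβ : γ ≠ β) (hIH : ∀ e ∈ Ext σ g h, nxt σ g h e ∈ Ext σ g h →
      KB σ (e + 1) (nxt σ g h e) (rho σ g h e)) {y : ℕ} (hy : y ∈ Ext σ g h)
    (hn : nxt σ g h y ∈ Ext σ g h) :
    RankLE (rho σ g h y) (fun p q : ℕ → Fin 3 =>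
      if q (nxt σ g h y) ≠ γ then BY σ g h α β γ y p q else 0) := by
  have hlt := lt_nxt (σ := σ) (g := g) (h := h) y
  refine (bdE (s := y + 1) hσ hne hy hn (hIH y hy hn)
    (tau_ne hγα hγβ (σ (nxt σ g h y) < g)).symm (by omega) hlt).restrict
    (fun p => RP σ g h α γ y p) (fun q => CQ σ g h β y q ∧ q (nxt σ g h y) ≠ γ) ?_ ?_
  · rintro p q hp ⟨hq1, hq2⟩
    rw [if_pos hq2, BY, if_pos ⟨hp, hq1⟩, if_pos]
    refine ⟨hp.1, ?_⟩
    have := hq1 _ hn (by omega)
    split_ifs with k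
    · exact this.1 k
    · exact fin3 (α := β) (β := γ) (Ne.symm hγβ) hαβ (Ne.symm hγα)
        (this.2 (by have := (mem_ext.1 hn).2; omega)) hq2
  · intro p q hpq
    by_cases k : q (nxt σ g h y) ≠ γ
    · rw [if_pos k, BY, if_neg]
      exact fun h' => hpq ⟨h'.1, ⟨h'.2, k⟩⟩
    · rw [if_neg k]

theorem restrict_q {r : ℕ} {f : (ℕ → Fin 3) → (ℕ → Fin 3) → ℕ} (hf : RankLE r f)
    (Q : (ℕ → Fin 3) → Prop) : RankLE r (fun p q => if Q q then f p q else 0) := by
  refine hf.restrict (fun _ => True) Q (fun p q _ hq => by rw [if_pos hq]) (fun p q hpq => ?_)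
  rw [if_neg]
  exact fun h' => hpq ⟨trivial, h'⟩

theorem restrict_p {r : ℕ} {f : (ℕ → Fin 3) → (ℕ → Fin 3) → ℕ} (hf : RankLE r f)
    (P : (ℕ → Fin 3) → Prop) : RankLE r (fun p q => if P p then f p q else 0) := by
  refine hf.restrict P (fun _ => True) (fun p q hp _ => by rw [if_pos hp]) (fun p q hpq => ?_)
  rw [if_neg]
  exact fun h' => hpq ⟨h', trivial⟩

/-- The part of `BY` where the letter after `y` is `γ`. -/
theorem rank_BY_alpha (hσ : ∀ x, σ (σ x) = x) (hne : ∀ x, σ x ≠ x) (hαβ : α ≠ β) (hγα : γ ≠ α)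
    (hγβ : γ ≠ β) (hIH : ∀ e ∈ Ext σ g h, nxt σ g h e ∈ Ext σ g h →
      KB σ (e + 1) (nxt σ g h e) (rho σ g h e)) {y : ℕ} (hy : y ∈ Ext σ g h)
    (hn : nxt σ g h y ∈ Ext σ g h) :
    RankLE (1 + ∑ e ∈ (Ext σ g h).filter (· < y), tt σ g h y e) (fun p q : ℕ → Fin 3 =>
      if q (nxt σ g h y) = γ then BY σ g h α β γ y p q else 0) := by
  refine split_last ((Ext σ g h).filter (· < y)) (fun p _ e => p e ≠ γ) _ 1 _ ?_ ?_
  · refine (restrict_q (rowblk0 (σ := σ) (g := g) (h := h) (α := α) (β := β) (γ := γ) y)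
      (fun q => q (nxt σ g h y) = γ)).congr fun p q => ?_
    split_ifs <;> rfl
  · intro e he
    rw [Finset.mem_filter] at he
    have hlt := lt_nxt (σ := σ) (g := g) (h := h) y
    by_cases ht : Run σ g h e y ∧ nxt σ g h y ∈ Ext σ g h ∧ h ≤ σ (nxt σ g h y)
    · by_cases hs : Small σ g h e
      · rw [tt, if_pos ⟨he.2, ht⟩, if_pos hs]
        refine (restrict_q (rowblk hσ hne hαβ hγα hγβ hIH hy he.1 he.2)
          (fun q => q (nxt σ g h y) = γ)).congr fun p q => ?_
        split_ifs <;> rfl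
      · rw [tt, if_pos ⟨he.2, ht⟩, if_neg hs]
        refine (restrict_p (restrict_q (rank_BY_cols hσ hne hαβ hγα hγβ hIH hy he.1 he.2 hs)
          (fun q => q (nxt σ g h y) = γ)) (fun p => p e ≠ γ ∧
            ∀ j ∈ (Ext σ g h).filter (· < y), e < j → ¬ p j ≠ γ)).congr fun p q => ?_
        congr
    · rw [tt, if_neg (fun h' => ht h'.2)]
      refine RankLE.zero.congr fun p q => ?_
      symm
      beta_reduce
      split_ifs with h1 h3
      rotate_left
      · rfl
      · rfl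
      obtain ⟨h1, h2⟩ := h1
      rw [BY, if_neg]
      rintro ⟨h4, h5⟩
      apply ht
      refine ⟨?_, hn, ?_⟩
      · intro j hj hej hjy
        by_contra hcon
        have h6 := (h4.2 j hj (by omega)).2 (by have := (mem_ext.1 hj).2; omega)
        exact h2 j (Finset.mem_filter.2 ⟨hj, hjy⟩) hej (by rw [h6]; exact hγα.symm)
      · by_contra hcon
        have h6 := (h5 _ hn hlt).1 (by have := (mem_ext.1 hn).2; omega)
        rw [h3] at h6
        exact hγβ h6

theorem rank_BY (hσ : ∀ x, σ (σ x) = x) (hne : ∀ x, σ x ≠ x) (hαβ : α ≠ β) (hγα : γ ≠ α)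
    (hγβ : γ ≠ β) (hIH : ∀ e ∈ Ext σ g h, nxt σ g h e ∈ Ext σ g h →
      KB σ (e + 1) (nxt σ g h e) (rho σ g h e)) {y : ℕ} (hy : y ∈ Ext σ g h) :
    RankLE (if Small σ g h y then rho σ g h y + (1 + ∑ e ∈ (Ext σ g h).filter (· < y),
      tt σ g h y e) else 1 + SS σ g h) (BY σ g h α β γ y) := by
  split_ifs with hs
  · by_cases hn : nxt σ g h y ∈ Ext σ g h
    · refine ((rank_BY_beta hσ hne hαβ hγα hγβ hIH hy hn).add
        (rank_BY_alpha hσ hne hαβ hγα hγβ hIH hy hn)).congr fun p q => ?_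
      by_cases k : q (nxt σ g h y) = γ
      · simp [k]
      · simp [k]
    · refine (RankLE.mono (show 1 ≤ _ by omega) ?_)
      refine (RankLE.of_left (Y := ℕ → Fin 3) (fun p : ℕ → Fin 3 => F σ g h p)).restrict
        (fun p => RP σ g h α γ y p) (fun q => CQ σ g h β y q) ?_ ?_
      · intro p q hp hq
        rw [BY, if_pos ⟨hp, hq⟩]
        apply F_congr
        intro x hx
        simp only [glue]
        split_ifs with k
        · rfl
        · exfalso
          have h1 := nxt_le (by omega : y < x) hx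
          rcases nxt_mem (σ := σ) (g := g) (h := h) y with h2 | h2
          · exact hn h2
          · have := (mem_ext.1 hx).1; omega
      · intro p q hpq
        rw [BY, if_neg hpq]
  · exact rank_BY_all hσ hne hαβ hγα hγβ hIH hy hs

theorem K_congr {w w' : ℕ → Fin 3} (hw : ∀ x ∈ Ext σ g h, w x = w' x) :
    K σ g h α β w = K σ g h α β w' := by
  have h1 : ∀ x ∈ Set.Ico g h, σ x ∉ Set.Ico g h → w x = w' x := by
    intro x hx hs
    apply hw
    rw [mem_ext]
    simp only [Set.mem_Ico] at hx hs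
    omega
  unfold K
  rw [F_congr hw]
  congr 1
  exact propext ⟨supp_congr h1, supp_congr fun x hx hs => (h1 x hx hs).symm⟩

/-- The points whose chord goes to the left. -/
def EL (σ : ℕ → ℕ) (g h : ℕ) : Finset ℕ := (Ext σ g h).filter (fun x => σ x < g)

theorem rank_none (hγα : γ ≠ α) (hγβ : γ ≠ β) (hαβ : α ≠ β) :
    RankLE 1 (fun w₁ w₂ : ℕ → Fin 3 => if (∀ j ∈ EL σ g h, ¬ w₁ j = γ) then
      K σ g h α β (mg σ g w₁ w₂) else 0) := by
  refine (RankLE.of_right (X := ℕ → Fin 3) (fun w₂ : ℕ → Fin 3 => K σ g h α β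
    (mg σ g (fun _ => β) w₂))).restrict
    (fun w₁ => (∀ j ∈ EL σ g h, ¬ w₁ j = γ) ∧ (∀ j ∈ EL σ g h, w₁ j ≠ α)) (fun _ => True) ?_ ?_
  · rintro w₁ w₂ ⟨h1, h2⟩ _
    rw [if_pos h1]
    apply K_congr
    intro x hx
    simp only [mg]
    split_ifs with k
    · have hxe : x ∈ EL σ g h := Finset.mem_filter.2 ⟨hx, k⟩
      exact fin3 (α := α) (β := γ) hγα.symm hαβ.symm hγβ.symm (h2 x hxe) (h1 x hxe)
    · rfl
  · intro w₁ w₂ hn
    by_cases h1 : ∀ j ∈ EL σ g h, ¬ w₁ j = γ
    · rw [if_pos h1, K, if_neg]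
      intro hs
      apply hn
      refine ⟨⟨h1, ?_⟩, trivial⟩
      intro j hj
      obtain ⟨hj1, hj2⟩ := Finset.mem_filter.1 hj
      have := hs.1 j (mem_ext.1 hj1).1 hj2
      simpa [mg, hj2] using this
    · rw [if_neg h1]

theorem rank_NY (hγα : γ ≠ α) (hγβ : γ ≠ β) (hαβ : α ≠ β) {y r : ℕ} (hy : y ∈ EL σ g h)
    (hr : RankLE r (BY σ g h α β γ y)) :
    RankLE r (fun w₁ w₂ : ℕ → Fin 3 => if (w₁ y = γ ∧ ∀ j ∈ EL σ g h, y < j → ¬ w₁ j = γ) then
      K σ g h α β (mg σ g w₁ w₂) else 0) := by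
  obtain ⟨hy1, hy2⟩ := Finset.mem_filter.1 hy
  refine (hr.comp (fun w => mg σ g w (fun _ => α)) (fun w => mg σ g (fun _ => β) w)).restrict
    (fun w₁ => (w₁ y = γ ∧ ∀ j ∈ EL σ g h, y < j → ¬ w₁ j = γ) ∧ ∀ x ∈ EL σ g h, w₁ x ≠ α)
    (fun w₂ => ∀ x ∈ Ext σ g h, h ≤ σ x → w₂ x ≠ β ∧ (x < y → w₂ x = α)) ?_ ?_
  · rintro w₁ w₂ ⟨h1, h2⟩ h3
    have hβ : ∀ x ∈ EL σ g h, y < x → w₁ x = β := fun x hx hyx =>
      fin3 (α := α) (β := γ) hγα.symm hαβ.symm hγβ.symm (h2 x hx) (h1.2 x hx hyx)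
    have hsupp : Supp σ g h α β (mg σ g w₁ w₂) := by
      refine ⟨?_, ?_, ?_⟩
      · intro x hx hs
        simp only [mg, hs, if_true]
        exact h2 x (Finset.mem_filter.2 ⟨mem_ext.2 ⟨hx, Or.inl hs⟩, hs⟩)
      · intro x hx hs
        have : ¬ σ x < g := by have := hx.1; have := hx.2; omega
        simp only [mg, this, if_false]
        exact (h3 x (mem_ext.2 ⟨hx, Or.inr hs⟩) hs).1
      · intro x hx z hz hxz hsx hsz
        have : ¬ σ x < g := by have := hx.1; have := hx.2; omega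
        have hxE : x ∈ Ext σ g h := mem_ext.2 ⟨hx, Or.inr hsx⟩
        have hzE : z ∈ EL σ g h := Finset.mem_filter.2 ⟨mem_ext.2 ⟨hz, Or.inl hsz⟩, hsz⟩
        simp only [mg, this, if_false, hsz, if_true]
        by_cases k : z ≤ y
        · rw [(h3 x hxE hsx).2 (by omega)]
          exact (h2 z hzE).symm
        · rw [hβ z hzE (by omega)]
          exact (h3 x hxE hsx).1
    rw [if_pos h1, K, if_pos hsupp, BY, if_pos]
    · apply F_congr
      intro x hx
      simp only [glue, mg]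
      by_cases k1 : σ x < g
      · simp only [k1, if_true]
        split_ifs with k2
        · rfl
        · exact hβ x (Finset.mem_filter.2 ⟨hx, k1⟩) (by omega)
      · simp only [k1, if_false]
        split_ifs with k2
        · refine (h3 x hx (by have := (mem_ext.1 hx).2; omega)).2 ?_
          have : x ≠ y := by rintro rfl; exact k1 hy2
          omega
        · rfl
    · constructor
      · refine ⟨by simp [mg, hy2, h1.1], fun x hx hxy => ⟨fun hs => ?_, fun hs => ?_⟩⟩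
        · simp only [mg, hs, if_true]
          exact h2 x (Finset.mem_filter.2 ⟨hx, hs⟩)
        · have : ¬ σ x < g := by have := (mem_ext.1 hx).1; omega
          simp only [mg, this, if_false]
      · refine fun x hx hxy => ⟨fun hs => ?_, fun hs => ?_⟩
        · simp only [mg, hs, if_true]
        · have : ¬ σ x < g := by have := (mem_ext.1 hx).1; omega
          simp only [mg, this, if_false]
          exact (h3 x hx hs).1
  · intro w₁ w₂ hn
    by_cases h1 : (w₁ y = γ ∧ ∀ j ∈ EL σ g h, y < j → ¬ w₁ j = γ)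
    · rw [if_pos h1, K, if_neg]
      intro hs
      apply hn
      refine ⟨⟨h1, ?_⟩, ?_⟩
      · intro j hj
        obtain ⟨hj1, hj2⟩ := Finset.mem_filter.1 hj
        have := hs.1 j (mem_ext.1 hj1).1 hj2
        simpa [mg, hj2] using this
      · intro x hx hxs
        have k : ¬ σ x < g := by have := (mem_ext.1 hx).1; omega
        have h4 := hs.2.1 x (mem_ext.1 hx).1 hxs
        simp only [mg, k, if_false] at h4
        refine ⟨h4, fun hxy => ?_⟩
        have h5 := hs.2.2 x (mem_ext.1 hx).1 y (mem_ext.1 hy1).1 hxy hxs hy2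
        simp only [mg, k, if_false, hy2, if_true, h1.1] at h5
        exact fin3 (α := β) (β := γ) hγβ.symm hαβ hγα.symm h4 h5
    · rw [if_neg h1]

theorem sum_tt_le (e : ℕ) : ∑ y ∈ EL σ g h, tt σ g h y e ≤
    (if Small σ g h e then rho σ g h e else 1 + SS σ g h) := by
  by_cases hex : ∃ y ∈ EL σ g h, e < y ∧ Run σ g h e y ∧ nxt σ g h y ∈ Ext σ g h ∧
      h ≤ σ (nxt σ g h y)
  · obtain ⟨y, hy, hc⟩ := hex
    rw [Finset.sum_eq_single y]
    · rw [tt, if_pos hc]
    · intro z hz hzy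
      rw [tt, if_neg]
      intro hcz
      have hyE := (Finset.mem_filter.1 hy)
      have hzE := (Finset.mem_filter.1 hz)
      rcases lt_or_gt_of_ne hzy with hlt | hlt
      · have h1 := nxt_le hlt hyE.1
        have h2 := lt_nxt (σ := σ) (g := g) (h := h) z
        have h3 := (mem_ext.1 hcz.2.2.1).1
        rcases h1.lt_or_eq with h4 | h4
        · have := hc.2.1 _ hcz.2.2.1 (by omega) h4
          have := hcz.2.2.2
          omega
        · have := hcz.2.2.2
          rw [h4] at this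
          omega
      · have h1 := nxt_le hlt hzE.1
        have h2 := lt_nxt (σ := σ) (g := g) (h := h) y
        have h3 := (mem_ext.1 hc.2.2.1).1
        rcases h1.lt_or_eq with h4 | h4
        · have := hcz.2.1 _ hc.2.2.1 (by omega) h4
          have := hc.2.2.2
          omega
        · have := hc.2.2.2
          rw [h4] at this
          omega
    · intro hn; exact (hn hy).elim
  · rw [Finset.sum_eq_zero]
    · exact Nat.zero_le _
    · intro y hy
      rw [tt, if_neg]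
      intro hc
      exact hex ⟨y, hy, hc⟩

theorem sum_big_le (S : Finset ℕ) (hS : S ⊆ Ext σ g h) (v : ℕ) :
    ∑ e ∈ S, (if Small σ g h e then 0 else v) ≤ v := by
  by_cases hex : ∃ e ∈ S, ¬ Small σ g h e
  · obtain ⟨e, he, hs⟩ := hex
    rw [Finset.sum_eq_single e]
    · rw [if_neg hs]
    · intro z hz hze
      rw [if_pos]
      by_contra hcon
      exact hze (small_unique (hS hz) (hS he) hcon hs)
    · intro hn; exact (hn he).elim
  · rw [Finset.sum_eq_zero]
    · exact Nat.zero_le _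
    · intro e he
      rw [if_pos]
      by_contra hcon
      exact hex ⟨e, he, hcon⟩

theorem card_ext_le : (Ext σ g h).card ≤ h - g := by
  rw [← Nat.card_Ico]
  exact Finset.card_filter_le _ _

end blocks

/-- The rank of a gap is polynomial in its size. -/
theorem gap_rank {σ : ℕ → ℕ} (hσ : ∀ x, σ (σ x) = x) (hne : ∀ x, σ x ≠ x) : ∀ (n g h : ℕ),
    h - g ≤ n → KB σ g h (8 * (h - g + 1) ^ 4) := by
  classical
  intro n
  induction n using Nat.strong_induction_on with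
  | _ n ih =>
    intro g h hn α β hαβ
    obtain ⟨γ, hγα, hγβ⟩ : ∃ γ : Fin 3, γ ≠ α ∧ γ ≠ β := by
      revert hαβ; revert α β; decide
    have hIH : ∀ e ∈ Ext σ g h, nxt σ g h e ∈ Ext σ g h →
        KB σ (e + 1) (nxt σ g h e) (rho σ g h e) := by
      intro e he hne'
      have h1 := (mem_ext.1 he).1
      have h2 := (mem_ext.1 hne').1
      have h3 := lt_nxt (σ := σ) (g := g) (h := h) e
      have := ih (nxt σ g h e - (e + 1)) (by omega) (e + 1) (nxt σ g h e) le_rfl
      have h4 : nxt σ g h e - (e + 1) + 1 = nxt σ g h e - e := by omega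
      rw [h4] at this
      exact this
    have key := split_last (EL σ g h) (fun (w₁ : ℕ → Fin 3) (_ : ℕ → Fin 3) y => w₁ y = γ)
      (fun w₁ w₂ => K σ g h α β (mg σ g w₁ w₂)) 1
      (fun y => if Small σ g h y then rho σ g h y + (1 + ∑ e ∈ (Ext σ g h).filter (· < y),
        tt σ g h y e) else 1 + SS σ g h)
      ((rank_none hγα hγβ hαβ).congr fun p q => by congr)
      (fun y hy => (rank_NY hγα hγβ hαβ hy (rank_BY hσ hne hαβ hγα hγβ hIH
        (Finset.mem_filter.1 hy).1)).congr fun p q => by congr)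
    refine key.mono ?_
    have hEL : EL σ g h ⊆ Ext σ g h := Finset.filter_subset _ _
    have b1 : ∑ y ∈ EL σ g h, (if Small σ g h y then rho σ g h y + (1 +
        ∑ e ∈ (Ext σ g h).filter (· < y), tt σ g h y e) else 1 + SS σ g h) ≤
        ∑ y ∈ EL σ g h, ((if Small σ g h y then rho σ g h y else 0) + 1 +
          (∑ e ∈ Ext σ g h, tt σ g h y e) + (if Small σ g h y then 0 else SS σ g h)) := by
      apply Finset.sum_le_sum
      intro y _
      have : ∑ e ∈ (Ext σ g h).filter (· < y), tt σ g h y e ≤ ∑ e ∈ Ext σ g h, tt σ g h y e :=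
        Finset.sum_le_sum_of_subset (Finset.filter_subset _ _)
      split_ifs <;> omega
    rw [Finset.sum_add_distrib, Finset.sum_add_distrib, Finset.sum_add_distrib] at b1
    have b2 : ∑ y ∈ EL σ g h, (if Small σ g h y then rho σ g h y else 0) ≤ SS σ g h := by
      unfold SS
      rw [Finset.sum_filter]
      exact Finset.sum_le_sum_of_subset hEL
    have b3 : ∑ _y ∈ EL σ g h, 1 ≤ h - g := by
      rw [Finset.sum_const, smul_eq_mul, mul_one]
      exact (Finset.card_le_card hEL).trans card_ext_le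
    have b4 : ∑ y ∈ EL σ g h, ∑ e ∈ Ext σ g h, tt σ g h y e ≤ SS σ g h + (1 + SS σ g h) := by
      rw [Finset.sum_comm]
      calc ∑ e ∈ Ext σ g h, ∑ y ∈ EL σ g h, tt σ g h y e
          ≤ ∑ e ∈ Ext σ g h, (if Small σ g h e then rho σ g h e else 1 + SS σ g h) :=
            Finset.sum_le_sum fun e _ => sum_tt_le e
        _ = ∑ e ∈ Ext σ g h, ((if Small σ g h e then rho σ g h e else 0) +
              (if Small σ g h e then 0 else 1 + SS σ g h)) := by
            refine Finset.sum_congr rfl fun e _ => ?_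
            split_ifs <;> simp
        _ = SS σ g h + ∑ e ∈ Ext σ g h, (if Small σ g h e then 0 else 1 + SS σ g h) := by
            rw [Finset.sum_add_distrib]
            congr 1
            unfold SS
            rw [Finset.sum_filter]
        _ ≤ _ := Nat.add_le_add_left (sum_big_le _ (Finset.Subset.refl _) _) _
    have b5 : ∑ y ∈ EL σ g h, (if Small σ g h y then 0 else SS σ g h) ≤ SS σ g h :=
      sum_big_le _ hEL _
    have b6 := SS_le σ g h
    have b7 : h - g + 1 ≤ (h - g + 1) ^ 4 := Nat.le_self_pow (by norm_num) _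
    omega

end Pool.Agent.H79.TC
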