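import Pool.Agent.H79.TC.Defs
import Pool.Agent.H83.PolyLib

/-!
# Decoding of words
-/

set_option autoImplicit false

namespace Pool.Agent.H79.TC

/-- Reads the codes of the labels from left to right. -/
def parseState (x : List Bool) : ℕ × List ℕ :=
  x.foldl (fun s b => bif b then (s.1 + 1, s.2) else (0, s.2 ++ [s.1])) (0, [])

theorem parse_aux (x : List Bool) :
    x = encodeWord (parseState x).2 ++ List.replicate (parseState x).1 true := by
  induction x using List.reverseRecOn with
  | nil => simp [parseState, encodeWord]
  | append_singleton x b ih =>
    have h : parseState (x ++ [b]) = bif b then ((parseState x).1 + 1, (parseState x).2)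
        else (0, (parseState x).2 ++ [(parseState x).1]) := by
      rw [parseState, List.foldl_append]
      rfl
    rw [h]
    cases b with
    | true =>
      simp only [cond_true]
      rw [List.replicate_succ', ← List.append_assoc, ← ih]
    | false =>
      simp only [cond_false, List.replicate_zero, List.append_nil]
      rw [encodeWord, List.flatMap_append, ← encodeWord]
      simp only [List.flatMap_cons, List.flatMap_nil, List.append_nil]
      rw [← List.append_assoc, ← ih]

theorem parse_replicate (k : ℕ) (s : ℕ × List ℕ) :
    (List.replicate k true).foldl
      (fun (s : ℕ × List ℕ) b => bif b then (s.1 + 1, s.2) else (0, s.2 ++ [s.1])) s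
      = (s.1 + k, s.2) := by
  induction k generalizing s with
  | zero => rfl
  | succ k ih =>
    rw [List.replicate_succ, List.foldl_cons, ih]
    simp only [cond_true]
    congr 1
    omega

theorem parse_encodeWord (w : List ℕ) (v : List ℕ) :
    (encodeWord w).foldl
      (fun (s : ℕ × List ℕ) b => bif b then (s.1 + 1, s.2) else (0, s.2 ++ [s.1])) (0, v)
      = (0, v ++ w) := by
  induction w generalizing v with
  | nil => simp [encodeWord]
  | cons a w ih =>
    have h : encodeWord (a :: w) = (List.replicate a true ++ [false]) ++ encodeWord w := by
      simp [encodeWord]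
    rw [h, List.foldl_append, List.foldl_append, parse_replicate]
    simp only [List.foldl_cons, List.foldl_nil, cond_false, zero_add]
    rw [ih]
    simp

theorem parse_iff (x : List Bool) (w : List ℕ) : x = encodeWord w ↔ parseState x = (0, w) := by
  constructor
  · rintro rfl
    rw [parseState, parse_encodeWord]
    simp
  · intro h
    have h1 := parse_aux x
    rw [h] at h1
    simpa using h1

open Pool.Agent.H83 Pool.Agent.H83.Poly in
theorem poly_parse : Poly parseState := by
  refine foldl_add (l := fun x : List Bool => x) (s := fun _ => ((0 : ℕ), ([] : List ℕ)))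
    (f := fun _ (s : ℕ × List ℕ) b => bif b then (s.1 + 1, s.2) else (0, s.2 ++ [s.1]))
    H83.Poly.id (H83.Poly.const _) ?_ (fun _ => 2) (PB.const 2) ?_
  · exact cond (snd' (snd' Poly.id))
      ((succ (fst' (fst' (snd' Poly.id)))).pair (snd' (fst' (snd' Poly.id))))
      ((H83.Poly.const 0).pair (append (snd' (fst' (snd' Poly.id)))
        (cons (fst' (fst' (snd' Poly.id))) (H83.Poly.const []))))
  · rintro _ ⟨c, v⟩ b _
    cases b with
    | true => simp only [cond_true, sz_pair, sz_nat]; omega
    | false =>
      have h := sz_append v [c]
      simp only [sz_cons, sz_nil, sz_nat] at h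
      simp only [cond_false, sz_pair, sz_nat]
      omega

end Pool.Agent.H79.TC
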