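import Pool.Agent.H83.PolyLib
import Pool.Agent.H79.TC.Alg

/-!
# Polynomial time: the low level functions of the algorithm
-/

set_option autoImplicit false

namespace Pool.Agent.H79.TC

open Pool.Agent.H83 Pool.Agent.H83.Poly

variable {α β : Type} [Enc α] [Enc β]

/-! ## Lists -/

theorem pDrop {l : α → List β} {i : α → ℕ} (hl : Poly l) (hi : Poly i) :
    Poly (fun a => (l a).drop (i a)) := by
  have key : ∀ (n : ℕ) (l : List β), (fun l : List β => l.tail)^[n] l = l.drop n := by
    intro n
    induction n with
    | zero => intro l; rfl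
    | succ n ih =>
      intro l
      rw [Function.iterate_succ_apply, ih]
      simp
  obtain ⟨b, hb, hbm, hlb⟩ := hl.size_le
  refine (iterate (n := i) (s := l) (f := fun l => l.tail) hi hl (tail Poly.id) b hb ?_).congr
    fun a => key _ _
  intro a i _
  rw [key]
  exact (sz_drop_le _ _).trans (hlb a)

theorem pTake {l : α → List β} {i : α → ℕ} (hl : Poly l) (hi : Poly i) :
    Poly (fun a => (l a).take (i a)) := by
  refine (reverse (pDrop (reverse hl) (sub (length hl) hi))).congr fun a => ?_
  rw [← List.reverse_take, List.reverse_reverse]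

theorem pHeadD {l : α → List β} {d : α → β} (hl : Poly l) (hd : Poly d) :
    Poly (fun a => (l a).headD (d a)) := by
  refine (listCases (f := d) (g := fun _ x _ => x) hl hd (fst' (snd' Poly.id))).congr fun a => ?_
  cases l a <;> rfl

theorem pGetD {l : α → List β} {i : α → ℕ} {d : α → β} (hl : Poly l) (hi : Poly i) (hd : Poly d) :
    Poly (fun a => (l a).getD (i a) (d a)) := by
  refine (pHeadD (pDrop hl hi) hd).congr fun a => ?_
  rw [List.headD_eq_head?_getD, List.head?_drop, List.getD_eq_getElem?_getD]

theorem two_sum_le_sz (l : List ℕ) : 2 * l.sum + 1 ≤ sz l := by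
  induction l with
  | nil => simp
  | cons x l ih => rw [List.sum_cons, sz_cons, sz_nat]; omega

theorem pSum {l : α → List ℕ} (hl : Poly l) : Poly (fun a => (l a).sum) := by
  obtain ⟨b, hb, hbm, hlb⟩ := hl.size_le
  have h : Poly (fun a => (l a).foldl (fun s x => s + x) 0) := by
    refine foldl (f := fun (_ : α) (s x : ℕ) => s + x) hl (const 0)
      (add (fst' (snd' Poly.id)) (snd' (snd' Poly.id))) (fun n => 2 * b n + 1)
      (((PB.const 2).mul hb).add (PB.const 1)) ?_
    intro a i _
    have h1 : ∀ (m : List ℕ) (t : ℕ), m.foldl (fun s x => s + x) t = t + m.sum := by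
      intro m
      induction m with
      | nil => intro t; simp
      | cons x m ih => intro t; rw [List.foldl_cons, ih, List.sum_cons]; omega
    rw [h1, sz_nat, zero_add]
    have h2 := two_sum_le_sz ((l a).take i)
    have h3 : ((l a).take i).sum ≤ (l a).sum := by
      conv_rhs => rw [← List.take_append_drop i (l a), List.sum_append]
      omega
    have h4 := two_sum_le_sz (l a)
    have h5 := hlb a
    omega
  refine h.congr fun a => ?_
  have h1 : ∀ (m : List ℕ) (t : ℕ), m.foldl (fun s x => s + x) t = t + m.sum := by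
    intro m
    induction m with
    | nil => intro t; simp
    | cons x m ih => intro t; rw [List.foldl_cons, ih, List.sum_cons]; omega
  rw [h1, zero_add]

/-! ## Division -/

/-- one step of the division of the counter by `m` -/
def dmStep (q : ℕ × ℕ × ℕ) : ℕ × ℕ × ℕ :=
  bif decide (q.2.2 + 1 = q.1) then (q.1, q.2.1 + 1, 0) else (q.1, q.2.1, q.2.2 + 1)

theorem dmStep_iterate (m j : ℕ) : dmStep^[j] (m, 0, 0) = (m, j / m, j % m) := by
  induction j with
  | zero => simp
  | succ j ih =>
    rw [Function.iterate_succ_apply', ih]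
    unfold dmStep
    rcases Nat.eq_zero_or_pos m with rfl | hm
    · simp
    · by_cases h : j % m + 1 = m
      · have h1 : (j + 1) % m = 0 := by
          rw [Nat.add_mod]
          rcases Nat.lt_or_ge 1 m with h2 | h2
          · rw [Nat.mod_eq_of_lt h2, h, Nat.mod_self]
          · have : m = 1 := by omega
            subst this; exact Nat.mod_one _
        have h2 : (j + 1) / m = j / m + 1 := by
          have h3 := Nat.div_add_mod j m
          have h4 := Nat.div_add_mod (j + 1) m
          rw [h1] at h4
          have h5 : m * ((j + 1) / m) = m * (j / m + 1) := by rw [mul_add]; omega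
          exact Nat.eq_of_mul_eq_mul_left hm h5
        simp [h, h1, h2]
      · have hlt : j % m + 1 < m := by
          have := Nat.mod_lt j hm
          omega
        have h1 : (j + 1) % m = j % m + 1 := by
          rw [Nat.add_mod]
          have h2 : 1 % m = 1 := Nat.mod_eq_of_lt (by omega)
          rw [h2, Nat.mod_eq_of_lt hlt]
        have h2 : (j + 1) / m = j / m := by
          have h3 := Nat.div_add_mod j m
          have h4 := Nat.div_add_mod (j + 1) m
          have h5 : m * ((j + 1) / m) = m * (j / m) := by omega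
          exact Nat.eq_of_mul_eq_mul_left hm h5
        simp [h, h1, h2]

theorem pDivMod {f g : α → ℕ} (hf : Poly f) (hg : Poly g) :
    Poly (fun a => (g a, f a / g a, f a % g a)) := by
  obtain ⟨b, hb, hbm, hfb⟩ := hf.size_le
  obtain ⟨c, hc, hcm, hgc⟩ := hg.size_le
  have hstep : Poly dmStep := by
    unfold dmStep
    exact cond (natEq (succ (snd' (snd' Poly.id))) (fst' Poly.id))
      ((fst' Poly.id).pair ((succ (fst' (snd' Poly.id))).pair (const 0)))
      ((fst' Poly.id).pair ((fst' (snd' Poly.id)).pair (succ (snd' (snd' Poly.id)))))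
  refine (iterate (n := f) (s := fun a => (g a, 0, 0)) (f := dmStep) hf
    (hg.pair ((const 0).pair (const 0))) hstep (fun n => c n + 2 * b n + 4)
    ((hc.add ((PB.const 2).mul hb)).add (PB.const 4)) ?_).congr fun a => dmStep_iterate _ _
  intro a i hi
  rw [dmStep_iterate]
  have h1 := hfb a
  have h2 := hgc a
  simp only [sz_nat, sz_pair] at *
  have h3 : i / g a ≤ i := Nat.div_le_self _ _
  have h4 : i % g a ≤ i := Nat.mod_le _ _
  omega

theorem pMod {f g : α → ℕ} (hf : Poly f) (hg : Poly g) : Poly (fun a => f a % g a) :=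
  snd' (snd' (pDivMod hf hg))

theorem pDiv {f g : α → ℕ} (hf : Poly f) (hg : Poly g) : Poly (fun a => f a / g a) :=
  fst' (snd' (pDivMod hf hg))

/-! ## Vectors and matrices -/

theorem pDot {p n : α → ℕ} {v w : α → List ℕ} (hp : Poly p) (hn : Poly n) (hv : Poly v)
    (hw : Poly w) : Poly (fun a => dot (p a) (n a) (v a) (w a)) := by
  unfold dot
  exact pMod (pSum (map (f := fun a s => (v a).getD s 0 * (w a).getD s 0) (range hn)
    (mul (pGetD (hv.comp fst) snd (const 0)) (pGetD (hw.comp fst) snd (const 0))))) hp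

theorem pVecMat {p n : α → ℕ} {v : α → List ℕ} {M : α → Mat} (hp : Poly p) (hn : Poly n)
    (hv : Poly v) (hM : Poly M) : Poly (fun a => vecMat (p a) (n a) (v a) (M a)) := by
  unfold vecMat
  refine map (f := fun a j =>
    ((List.range (n a)).map fun s => (v a).getD s 0 * ((M a).getD s []).getD j 0).sum % p a)
    (range hn) ?_
  refine pMod (pSum ?_) (hp.comp fst)
  refine map (f := fun (q : α × ℕ) s => (v q.1).getD s 0 * ((M q.1).getD s []).getD q.2 0)
    (range (hn.comp fst)) ?_
  exact mul (pGetD (hv.comp (fst.comp fst)) snd (const 0))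
    (pGetD (pGetD (hM.comp (fst.comp fst)) snd (const [])) (snd.comp fst) (const 0))

theorem pTransp {p n : α → ℕ} {M : α → Mat} (hp : Poly p) (hn : Poly n) (hM : Poly M) :
    Poly (fun a => transp (p a) (n a) (M a)) := by
  unfold transp
  refine map (f := fun a j => (List.range (n a)).map fun i => ((M a).getD i []).getD j 0 % p a)
    (range hn) ?_
  refine map (f := fun (q : α × ℕ) i => ((M q.1).getD i []).getD q.2 0 % p q.1)
    (range (hn.comp fst)) ?_
  exact pMod (pGetD (pGetD (hM.comp (fst.comp fst)) snd (const [])) (snd.comp fst) (const 0))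
    (hp.comp (fst.comp fst))

/-- size of a list with at most `n` entries of size at most `b` -/
theorem szA_list_le (l : List β) (n b : ℕ) (h1 : l.length ≤ n) (h2 : ∀ x ∈ l, sz x ≤ b) :
    sz l ≤ n * (b + 1) + 1 := by
  have h : sz l ≤ l.length * (b + 1) + 1 := by
    clear h1
    induction l with
    | nil => simp
    | cons x l ih =>
      rw [sz_cons, List.length_cons, Nat.succ_mul]
      have := ih fun y hy => h2 y (List.mem_cons_of_mem _ hy)
      have := h2 x List.mem_cons_self
      omega
  have := Nat.mul_le_mul_right (b + 1) h1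
  omega

/-- all entries of a vector are at most `M` -/
def EB (M : ℕ) (v : List ℕ) : Prop := ∀ x ∈ v, x ≤ M

theorem EB.getD {M : ℕ} {v : List ℕ} (h : EB M v) (i : ℕ) : v.getD i 0 ≤ M := by
  rw [List.getD_eq_getElem?_getD]
  cases hi : v[i]? with
  | none => simp
  | some x => exact h x (List.mem_of_getElem? hi)

theorem EB_sz (v : List ℕ) : EB (sz v) v := by
  intro x hx
  have := sz_le_of_mem hx
  rw [sz_nat] at this
  omega

theorem EB.sz_le {M n : ℕ} {v : List ℕ} (h : EB M v) (hn : v.length ≤ n) :
    sz v ≤ n * (2 * M + 2) + 1 := by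
  refine (szA_list_le v n (2 * M + 1) hn fun x hx => ?_)
  rw [sz_nat]
  have := h x hx
  omega

theorem mod_le_of {p M x : ℕ} (hp : p ≤ M) (h : p = 0 → x ≤ M) : x % p ≤ M := by
  rcases Nat.eq_zero_or_pos p with h0 | h0
  · rw [h0, Nat.mod_zero]; exact h h0
  · exact (Nat.mod_lt x h0).le.trans hp

theorem pRedStep {p n : α → ℕ} {s : α → List ℕ × List ℕ} {e : α → ℕ × List ℕ} (hp : Poly p)
    (hn : Poly n) (hs : Poly s) (he : Poly e) :
    Poly (fun a => redStep (p a) (n a) (s a) (e a)) := by
  unfold redStep
  refine Poly.pair ?_ (append (snd' hs) (cons (pMod (pGetD (fst' hs) (fst' he) (const 0)) hp)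
    (const [])))
  refine map (f := fun a i => ((s a).1.getD i 0 + (p a - (s a).1.getD (e a).1 0 % p a) *
    (e a).2.getD i 0) % p a) (range hn) ?_
  have hs' := (fst' hs).comp (fst (α := α) (β := ℕ))
  have he' := he.comp (fst (α := α) (β := ℕ))
  have hp' := hp.comp (fst (α := α) (β := ℕ))
  exact pMod (add (pGetD hs' snd (const 0)) (mul (sub hp' (pMod (pGetD hs' (fst' he')
    (const 0)) hp')) (pGetD (snd' he') snd (const 0)))) hp'

/-- invariant of the reduction -/
theorem redStep_inv (p n M : ℕ) (hp : p ≤ M) (E : List (ℕ × List ℕ)) (s : List ℕ × List ℕ)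
    (h1 : EB M s.1) (h2 : EB M s.2) (hl : s.1.length = n) :
    EB M (E.foldl (redStep p n) s).1 ∧ EB M (E.foldl (redStep p n) s).2 ∧
      (E.foldl (redStep p n) s).1.length = n ∧
      (E.foldl (redStep p n) s).2.length = s.2.length + E.length := by
  induction E generalizing s with
  | nil => exact ⟨h1, h2, hl, rfl⟩
  | cons e E ih =>
    rw [List.foldl_cons]
    obtain ⟨a, b, c, d⟩ := ih (redStep p n s e) (by
      intro x hx
      simp only [redStep, List.mem_map] at hx
      obtain ⟨i, -, rfl⟩ := hx
      refine mod_le_of hp fun h0 => ?_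
      rw [h0, Nat.zero_sub, zero_mul, add_zero]
      exact h1.getD i) (by
      intro x hx
      simp only [redStep, List.mem_append, List.mem_singleton] at hx
      rcases hx with hx | rfl
      · exact h2 x hx
      · exact mod_le_of hp fun _ => h1.getD _) (by simp [redStep])
    refine ⟨a, b, c, ?_⟩
    rw [d]
    simp only [redStep, List.length_append, List.length_cons, List.length_nil]
    omega

theorem reduceVec_inv (p n M : ℕ) (hp : p ≤ M) (E : List (ℕ × List ℕ)) (v : List ℕ) (h : EB M v) :
    EB M (reduceVec p n E v).1 ∧ EB M (reduceVec p n E v).2 ∧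
      (reduceVec p n E v).1.length = n ∧ (reduceVec p n E v).2.length = E.length := by
  have := redStep_inv p n M hp E ((List.range n).map fun i => v.getD i 0 % p, []) (by
    intro x hx
    simp only [List.mem_map] at hx
    obtain ⟨i, -, rfl⟩ := hx
    exact mod_le_of hp fun _ => h.getD i) (by intro x hx; simp at hx) (by simp)
  simpa [reduceVec] using this

theorem pReduceVec {p n : α → ℕ} {E : α → List (ℕ × List ℕ)} {v : α → List ℕ} (hp : Poly p)
    (hn : Poly n) (hE : Poly E) (hv : Poly v) :
    Poly (fun a => reduceVec (p a) (n a) (E a) (v a)) := by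
  unfold reduceVec
  obtain ⟨bp, hbp, -, hpb⟩ := hp.size_le
  obtain ⟨bn, hbn, -, hnb⟩ := hn.size_le
  obtain ⟨bE, hbE, -, hEb⟩ := hE.size_le
  obtain ⟨bv, hbv, -, hvb⟩ := hv.size_le
  have hM : PB (fun n => 2 * (bp n + bv n) + 2) :=
    ((PB.const 2).mul (hbp.add hbv)).add (PB.const 2)
  refine foldl (f := fun a => redStep (p a) (n a)) hE ?_ ?_
    (fun n => (bn n * (2 * (bp n + bv n) + 2) + 1) + (bE n * (2 * (bp n + bv n) + 2) + 1) + 1)
    ((((hbn.mul hM).add (PB.const 1)).add ((hbE.mul hM).add (PB.const 1))).add (PB.const 1)) ?_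
  · exact Poly.pair (map (f := fun a i => (v a).getD i 0 % p a) (range hn)
      (pMod (pGetD (hv.comp fst) snd (const 0)) (hp.comp fst))) (const [])
  · exact pRedStep (hp.comp fst) (hn.comp fst) (fst' snd) (snd' snd)
  · intro a i hi
    have h1 := hpb a
    have h2 := hnb a
    have h3 := hEb a
    have h4 := hvb a
    rw [sz_nat] at h1 h2
    have hMp : p a ≤ bp (sz a) + bv (sz a) := by omega
    have hvM : EB (bp (sz a) + bv (sz a)) (v a) := fun x hx => by
      have := EB_sz (v a) x hx
      omega
    obtain ⟨e1, e2, e3, e4⟩ := redStep_inv (p a) (n a) (bp (sz a) + bv (sz a)) hMp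
      ((E a).take i) ((List.range (n a)).map fun i => (v a).getD i 0 % p a, []) (by
        intro x hx
        simp only [List.mem_map] at hx
        obtain ⟨i, -, rfl⟩ := hx
        exact mod_le_of hMp fun _ => hvM.getD i) (by intro x hx; simp at hx) (by simp)
    have h5 : ((E a).take i).length ≤ bE (sz a) := by
      rw [List.length_take]
      have := length_le_sz (E a)
      omega
    have h6 := e1.sz_le (n := bn (sz a)) (by omega)
    have h7 := e2.sz_le (n := bE (sz a)) (by rw [e4]; simpa using h5)
    have h8 : sz (List.foldl (redStep (p a) (n a)) ((List.range (n a)).map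
        fun i => (v a).getD i 0 % p a, []) ((E a).take i)) =
      sz (List.foldl (redStep (p a) (n a)) ((List.range (n a)).map
        fun i => (v a).getD i 0 % p a, []) ((E a).take i)).1 +
      sz (List.foldl (redStep (p a) (n a)) ((List.range (n a)).map
        fun i => (v a).getD i 0 % p a, []) ((E a).take i)).2 + 1 := sz_pair _ _
    rw [h8]
    omega

theorem pInvMod {p x : α → ℕ} (hp : Poly p) (hx : Poly x) :
    Poly (fun a => invMod (p a) (x a)) := by
  unfold invMod
  exact headD 0 (filter (f := fun a y => decide (x a * y % p a = 1)) (range hp)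
    (natEq (pMod (mul (hx.comp fst) snd) (hp.comp fst)) (const 1)))

theorem pNonzeros {n : α → ℕ} {v : α → List ℕ} (hn : Poly n) (hv : Poly v) :
    Poly (fun a => nonzeros (n a) (v a)) := by
  unfold nonzeros
  exact filter (f := fun a i => !decide ((v a).getD i 0 = 0)) (range hn)
    (not (natEq (pGetD (hv.comp fst) snd (const 0)) (const 0)))

theorem pAddRow {p n : α → ℕ} {s : α → List (ℕ × List ℕ) × Mat} {v : α → List ℕ} (hp : Poly p)
    (hn : Poly n) (hs : Poly s) (hv : Poly v) :
    Poly (fun a => addRow (p a) (n a) (s a) (v a)) := by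
  unfold addRow
  have hr := pReduceVec hp hn (fst' hs) hv
  have hz := pNonzeros hn (fst' hr)
  have hh := headD 0 hz
  have hg := pGetD (fst' hr) hh (const 0)
  refine cond (or (isEmpty hz) (natLt hn (length (fst' hs))))
    ((fst' hs).pair (append (snd' hs) (cons (snd' hr) (const []))))
    (Poly.pair (append (fst' hs) (cons (hh.pair ?_) (const [])))
      (append (snd' hs) (cons (append (snd' hr) (cons hg (const []))) (const []))))
  refine map (f := fun a i => ((reduceVec (p a) (n a) (s a).1 (v a)).1.getD i 0 *
    invMod (p a) ((reduceVec (p a) (n a) (s a).1 (v a)).1.getD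
      ((nonzeros (n a) (reduceVec (p a) (n a) (s a).1 (v a)).1).headD 0) 0)) % p a) (range hn) ?_
  exact pMod (mul (pGetD ((fst' hr).comp fst) snd (const 0))
    ((pInvMod hp hg).comp fst)) (hp.comp fst)

/-! ## Size of the result of the elimination -/

theorem headD_nonzeros_le (n : ℕ) (v : List ℕ) : (nonzeros n v).headD 0 ≤ n := by
  cases h : nonzeros n v with
  | nil => simp
  | cons x l =>
    have hx : x ∈ nonzeros n v := by rw [h]; exact List.mem_cons_self
    simp only [nonzeros, List.mem_filter, List.mem_range] at hx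
    simpa using hx.1.le

/-- invariant of the elimination -/
structure EInv (p n M : ℕ) (s : List (ℕ × List ℕ) × Mat) (k : ℕ) : Prop where
  len : s.1.length ≤ n + 1
  piv : ∀ e ∈ s.1, e.1 ≤ n ∧ e.2.length = n ∧ ∀ x ∈ e.2, x ≤ p
  len2 : s.2.length = k
  ent : ∀ c ∈ s.2, c.length ≤ n + 2 ∧ ∀ x ∈ c, x ≤ M

theorem EInv.addRow {p n M k : ℕ} {s : List (ℕ × List ℕ) × Mat} (h : EInv p n M s k) (hp : p ≤ M)
    {v : List ℕ} (hv : EB M v) : EInv p n M (addRow p n s v) (k + 1) := by
  obtain ⟨r1, r2, r3, r4⟩ := reduceVec_inv p n M hp s.1 v hv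
  unfold TC.addRow
  cases hc : ((nonzeros n (reduceVec p n s.1 v).1).isEmpty || decide (n < s.1.length)) with
  | true =>
    rw [cond_true]
    refine ⟨h.len, h.piv, by simp [h.len2], fun c hc => ?_⟩
    rcases List.mem_append.1 hc with hc | hc
    · exact h.ent c hc
    · rw [List.mem_singleton] at hc
      subst hc
      exact ⟨by rw [r4]; have := h.len; omega, r2⟩
  | false =>
    rw [cond_false]
    rw [Bool.or_eq_false_iff, decide_eq_false_iff_not] at hc
    refine ⟨by simp only [List.length_append, List.length_cons, List.length_nil]; omega,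
      fun e he => ?_, by simp [h.len2], fun c hc' => ?_⟩
    · rcases List.mem_append.1 he with he | he
      · exact h.piv e he
      · rw [List.mem_singleton] at he
        subst he
        refine ⟨headD_nonzeros_le _ _, by simp, fun x hx => ?_⟩
        simp only [List.mem_map] at hx
        obtain ⟨i, -, rfl⟩ := hx
        refine mod_le_of le_rfl fun h0 => ?_
        have : invMod p ((reduceVec p n s.1 v).1.getD
            ((nonzeros n (reduceVec p n s.1 v).1).headD 0) 0) = 0 := by
          simp [invMod, h0]
        rw [this, mul_zero]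
        exact Nat.zero_le _
    · rcases List.mem_append.1 hc' with hc' | hc'
      · exact h.ent c hc'
      · rw [List.mem_singleton] at hc'
        subst hc'
        refine ⟨?_, fun x hx => ?_⟩
        · rw [List.length_append, r4]
          have := h.len
          simp only [List.length_cons, List.length_nil]
          omega
        · rcases List.mem_append.1 hx with hx | hx
          · exact r2 x hx
          · rw [List.mem_singleton] at hx
            subst hx
            exact r1.getD _

theorem EInv.foldl {p n M k : ℕ} {s : List (ℕ × List ℕ) × Mat} (h : EInv p n M s k) (hp : p ≤ M)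
    (rows : Mat) (hr : ∀ v ∈ rows, ∀ x ∈ v, x ≤ M) :
    EInv p n M (rows.foldl (TC.addRow p n) s) (k + rows.length) := by
  induction rows generalizing s k with
  | nil => exact h
  | cons v rows ih =>
    rw [List.foldl_cons, List.length_cons]
    have := ih (h.addRow hp (hr v List.mem_cons_self)) fun w hw => hr w (List.mem_cons_of_mem _ hw)
    rwa [show k + (rows.length + 1) = k + 1 + rows.length by ring]

theorem elim_inv (p n M : ℕ) (rows : Mat) (hp : p ≤ M) (hr : ∀ v ∈ rows, ∀ x ∈ v, x ≤ M) :
    EInv p n M (elim p n rows) rows.length := by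
  have h0 : EInv p n M (([], []) : List (ℕ × List ℕ) × Mat) 0 :=
    ⟨by simp, by simp, rfl, by simp⟩
  have := h0.foldl hp rows hr
  rwa [zero_add] at this

theorem mat_bound (rows : Mat) : ∀ v ∈ rows, ∀ x ∈ v, x ≤ sz rows := by
  intro v hv x hx
  have h1 := sz_le_of_mem hv
  have h2 := EB_sz v x hx
  omega

theorem elim_fst_length (p n : ℕ) (rows : Mat) : (elim p n rows).1.length ≤ n + 1 :=
  (elim_inv p n (p + sz rows) rows (by omega) fun v hv x hx => by
    have := mat_bound rows v hv x hx; omega).len

theorem elim_fst_entry (p n : ℕ) (rows : Mat) : ∀ e ∈ (elim p n rows).1,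
    e.1 ≤ n ∧ e.2.length = n ∧ ∀ x ∈ e.2, x ≤ p :=
  (elim_inv p n (p + sz rows) rows (by omega) fun v hv x hx => by
    have := mat_bound rows v hv x hx; omega).piv

theorem elim_snd_length (p n : ℕ) (rows : Mat) : (elim p n rows).2.length = rows.length :=
  (elim_inv p n (p + sz rows) rows (by omega) fun v hv x hx => by
    have := mat_bound rows v hv x hx; omega).len2

/-- if all entries of the rows are at most `M` and `p ≤ M`, so are all coefficients -/
theorem elim_snd_entry (p n M : ℕ) (rows : Mat) (hp : p ≤ M) (h : ∀ v ∈ rows, ∀ x ∈ v, x ≤ M) :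
    ∀ c ∈ (elim p n rows).2, c.length ≤ n + 2 ∧ ∀ x ∈ c, x ≤ M :=
  (elim_inv p n M rows hp h).ent

theorem EInv.sz_le {p n M k : ℕ} {s : List (ℕ × List ℕ) × Mat} (h : EInv p n M s k) :
    sz s ≤ ((n + 1) * (2 * n + 1 + (n * (2 * p + 2) + 1) + 1 + 1) + 1) +
      (k * ((n + 2) * (2 * M + 2) + 1 + 1) + 1) + 1 := by
  have e : sz s = sz s.1 + sz s.2 + 1 := sz_pair s.1 s.2
  have h1 : sz s.1 ≤ (n + 1) * (2 * n + 1 + (n * (2 * p + 2) + 1) + 1 + 1) + 1 := by
    refine szA_list_le s.1 (n + 1) _ h.len fun x hx => ?_
    obtain ⟨a, b, c⟩ := h.piv x hx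
    have e2 : sz x = sz x.1 + sz x.2 + 1 := sz_pair x.1 x.2
    have h3 := EB.sz_le (M := p) (n := n) (v := x.2) c b.le
    rw [e2, sz_nat]
    omega
  have h2 : sz s.2 ≤ k * ((n + 2) * (2 * M + 2) + 1 + 1) + 1 := by
    refine szA_list_le s.2 k _ h.len2.le fun x hx => ?_
    obtain ⟨a, b⟩ := h.ent x hx
    exact EB.sz_le (M := M) b a
  omega

theorem pElim {p n : α → ℕ} {rows : α → Mat} (hp : Poly p) (hn : Poly n) (hr : Poly rows) :
    Poly (fun a => elim (p a) (n a) (rows a)) := by
  unfold elim
  obtain ⟨bp, hbp, -, hpb⟩ := hp.size_le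
  obtain ⟨bn, hbn, -, hnb⟩ := hn.size_le
  obtain ⟨br, hbr, -, hrb⟩ := hr.size_le
  let B : ℕ → ℕ := fun m => ((bn m + 1) * (2 * bn m + 1 + (bn m * (2 * bp m + 2) + 1) + 1 + 1) + 1) +
      (br m * ((bn m + 2) * (2 * (bp m + br m) + 2) + 1 + 1) + 1) + 1
  have hB : PB B := by
    have c1 := PB.const 1
    have c2 := PB.const 2
    exact ((((hbn.add c1).mul ((((c2.mul hbn).add c1).add ((hbn.mul ((c2.mul hbp).add c2)).add
      c1)).add c1 |>.add c1)).add c1).add ((hbr.mul ((((hbn.add c2).mul ((c2.mul
      (hbp.add hbr)).add c2)).add c1).add c1)).add c1)).add c1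
  refine foldl (f := fun a => addRow (p a) (n a)) hr (const _) ?_ B hB ?_
  · exact pAddRow (hp.comp fst) (hn.comp fst) (fst' snd) (snd' snd)
  · intro a i hi
    have h1 := hpb a
    have h2 := hnb a
    have h3 := hrb a
    rw [sz_nat] at h1 h2
    have h0 : EInv (p a) (n a) (bp (sz a) + br (sz a)) (([], []) : List (ℕ × List ℕ) × Mat) 0 :=
      ⟨by simp, by simp, rfl, by simp⟩
    have h4 := (h0.foldl (by omega) ((rows a).take i) fun v hv x hx => by
      have := mat_bound (rows a) v (List.mem_of_mem_take hv) x hx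
      omega).sz_le
    refine h4.trans ?_
    have h5 : 0 + ((rows a).take i).length ≤ br (sz a) := by
      rw [List.length_take]
      have := length_le_sz (rows a)
      omega
    have h6 : n a ≤ bn (sz a) := by omega
    have h7 : p a ≤ bp (sz a) := by omega
    show _ ≤ ((bn (sz a) + 1) * (2 * bn (sz a) + 1 + (bn (sz a) * (2 * bp (sz a) + 2) + 1) + 1 + 1)
      + 1) + (br (sz a) * ((bn (sz a) + 2) * (2 * (bp (sz a) + br (sz a)) + 2) + 1 + 1) + 1) + 1
    gcongr

/-! ## Forms used by the second part -/

section Forms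

theorem getD_poly {l : α → List β} {i : α → ℕ} (d : β) (hl : Poly l) (hi : Poly i) :
    Poly (fun a => (l a).getD (i a) d) := pGetD hl hi (const d)
theorem take_poly {l : α → List β} {i : α → ℕ} (hl : Poly l) (hi : Poly i) :
    Poly (fun a => (l a).take (i a)) := pTake hl hi
theorem mod_poly {f g : α → ℕ} (hf : Poly f) (hg : Poly g) : Poly (fun a => f a % g a) :=
  pMod hf hg
theorem div_poly {f g : α → ℕ} (hf : Poly f) (hg : Poly g) : Poly (fun a => f a / g a) :=
  pDiv hf hg
theorem sum_poly {l : α → List ℕ} (hl : Poly l) : Poly (fun a => (l a).sum) := pSum hl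
theorem dot_poly {p n : α → ℕ} {v w : α → List ℕ} (hp : Poly p) (hn : Poly n) (hv : Poly v)
    (hw : Poly w) : Poly (fun a => dot (p a) (n a) (v a) (w a)) := pDot hp hn hv hw
theorem vecMat_poly {p n : α → ℕ} {v : α → List ℕ} {M : α → Mat} (hp : Poly p) (hn : Poly n)
    (hv : Poly v) (hM : Poly M) : Poly (fun a => vecMat (p a) (n a) (v a) (M a)) :=
  pVecMat hp hn hv hM
theorem transp_poly {p n : α → ℕ} {M : α → Mat} (hp : Poly p) (hn : Poly n)
    (hM : Poly M) : Poly (fun a => transp (p a) (n a) (M a)) := pTransp hp hn hM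
theorem elim_poly {p n : α → ℕ} {rows : α → Mat} (hp : Poly p) (hn : Poly n) (hr : Poly rows)
    (_hp0 : ∀ a, 0 < p a) : Poly (fun a => elim (p a) (n a) (rows a)) := pElim hp hn hr

/-- strict form of the invariant of the reduction, for a positive modulus -/
theorem redStep_lt {p n : ℕ} (hp : 0 < p) (E : List (ℕ × List ℕ)) (s : List ℕ × List ℕ)
    (h1 : ∀ x ∈ s.1, x < p) (h2 : ∀ x ∈ s.2, x < p) :
    (∀ x ∈ (E.foldl (redStep p n) s).1, x < p) ∧ (∀ x ∈ (E.foldl (redStep p n) s).2, x < p) := by
  induction E generalizing s with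
  | nil => exact ⟨h1, h2⟩
  | cons e E ih =>
    rw [List.foldl_cons]
    refine ih (redStep p n s e) (fun x hx => ?_) (fun x hx => ?_)
    · simp only [redStep, List.mem_map] at hx
      obtain ⟨i, -, rfl⟩ := hx
      exact Nat.mod_lt _ hp
    · simp only [redStep, List.mem_append, List.mem_singleton] at hx
      rcases hx with hx | rfl
      · exact h2 x hx
      · exact Nat.mod_lt _ hp

theorem reduceVec_lt {p n : ℕ} (hp : 0 < p) (E : List (ℕ × List ℕ)) (v : List ℕ) :
    (∀ x ∈ (reduceVec p n E v).1, x < p) ∧ (∀ x ∈ (reduceVec p n E v).2, x < p) := by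
  have := redStep_lt (n := n) hp E ((List.range n).map fun i => v.getD i 0 % p, []) (by
    intro x hx
    simp only [List.mem_map] at hx
    obtain ⟨i, -, rfl⟩ := hx
    exact Nat.mod_lt _ hp) (by intro x hx; simp at hx)
  simpa [reduceVec] using this

/-- strict invariant of the elimination -/
structure EInv' (p n : ℕ) (s : List (ℕ × List ℕ) × Mat) (k : ℕ) : Prop where
  len : s.1.length ≤ n + 1
  piv : ∀ e ∈ s.1, e.2.length = n ∧ ∀ x ∈ e.2, x < p
  len2 : s.2.length = k
  ent : ∀ c ∈ s.2, c.length ≤ n + 1 ∧ ∀ x ∈ c, x < p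

theorem EInv'.addRow {p n k : ℕ} {s : List (ℕ × List ℕ) × Mat} (h : EInv' p n s k) (hp : 0 < p)
    (v : List ℕ) : EInv' p n (TC.addRow p n s v) (k + 1) := by
  obtain ⟨r1, r2⟩ := reduceVec_lt (n := n) hp s.1 v
  have r4 : (reduceVec p n s.1 v).2.length = s.1.length :=
    (reduceVec_inv p n (p + sz v) (by omega) s.1 v fun x hx => by
      have := EB_sz v x hx; omega).2.2.2
  unfold TC.addRow
  cases hc : ((nonzeros n (reduceVec p n s.1 v).1).isEmpty || decide (n < s.1.length)) with
  | true =>
    rw [cond_true]
    refine ⟨h.len, h.piv, by simp [h.len2], fun c hc => ?_⟩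
    rcases List.mem_append.1 hc with hc | hc
    · exact h.ent c hc
    · rw [List.mem_singleton] at hc
      subst hc
      exact ⟨by rw [r4]; exact h.len, r2⟩
  | false =>
    rw [cond_false]
    rw [Bool.or_eq_false_iff, decide_eq_false_iff_not] at hc
    refine ⟨by simp only [List.length_append, List.length_cons, List.length_nil]; omega,
      fun e he => ?_, by simp [h.len2], fun c hc' => ?_⟩
    · rcases List.mem_append.1 he with he | he
      · exact h.piv e he
      · rw [List.mem_singleton] at he
        subst he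
        refine ⟨by simp, fun x hx => ?_⟩
        simp only [List.mem_map] at hx
        obtain ⟨i, -, rfl⟩ := hx
        exact Nat.mod_lt _ hp
    · rcases List.mem_append.1 hc' with hc' | hc'
      · exact h.ent c hc'
      · rw [List.mem_singleton] at hc'
        subst hc'
        refine ⟨?_, fun x hx => ?_⟩
        · rw [List.length_append, r4]
          simp only [List.length_cons, List.length_nil]
          omega
        · rcases List.mem_append.1 hx with hx | hx
          · exact r2 x hx
          · rw [List.mem_singleton] at hx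
            subst hx
            rw [List.getD_eq_getElem?_getD]
            cases hi : (reduceVec p n s.1 v).1[(nonzeros n (reduceVec p n s.1 v).1).headD 0]? with
            | none => simpa using hp
            | some x => exact r1 x (List.mem_of_getElem? hi)

theorem elim_bound {p : ℕ} (n : ℕ) (hp : 0 < p) (rows : Mat) :
    (elim p n rows).1.length ≤ n + 1 ∧
    (∀ e ∈ (elim p n rows).1, e.2.length = n ∧ ∀ x ∈ e.2, x < p) ∧
    (elim p n rows).2.length = rows.length ∧
    ∀ v ∈ (elim p n rows).2, v.length ≤ n + 1 ∧ ∀ x ∈ v, x < p := by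
  have key : ∀ (rows : Mat) (s : List (ℕ × List ℕ) × Mat) (k : ℕ), EInv' p n s k →
      EInv' p n (rows.foldl (TC.addRow p n) s) (k + rows.length) := by
    intro rows
    induction rows with
    | nil => intro s k h; exact h
    | cons v rows ih =>
      intro s k h
      rw [List.foldl_cons, List.length_cons]
      have := ih _ _ (h.addRow hp v)
      rwa [show k + (rows.length + 1) = k + 1 + rows.length by ring]
  have h0 : EInv' p n (([], []) : List (ℕ × List ℕ) × Mat) 0 := ⟨by simp, by simp, rfl, by simp⟩
  have := key rows _ _ h0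
  rw [zero_add] at this
  exact ⟨this.len, this.piv, this.len2, this.ent⟩

end Forms

end Pool.Agent.H79.TC
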