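import Pool.Agent.H79.TC.PolyInv
import Pool.Agent.H79.TC.PolyA

/-!
# The decision procedure runs in polynomial time
-/

set_option autoImplicit false

namespace Pool.Agent.H79.TC

open Pool.Agent.H83 Pool.Agent.H83.Poly

variable {α β : Type} [Enc α] [Enc β]

/-! ### the sweep -/

theorem sweepStep_poly {p n : α → ℕ} {s : α → Mat × List Core} {A : α → Core} (hp : Poly p)
    (hn : Poly n) (hs : Poly s) (hA : Poly A) :
    Poly (fun a => sweepStep (p a) (n a) (s a) (A a)) := by
  have hr : Poly (fun a => elim (p a) (n a) ((List.range 3).flatMap fun c =>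
      (s a).1.map fun v => vecMat (p a) (n a) v ((A a).getD c []))) := by
    refine pElim hp hn (flatMap (f := fun a c => (s a).1.map fun v =>
      vecMat (p a) (n a) v ((A a).getD c [])) (const _) ?_)
    refine map (f := fun (q : α × ℕ) v => vecMat (p q.1) (n q.1) v ((A q.1).getD q.2 []))
      (fst' (hs.comp (fst' Poly.id))) ?_
    exact pVecMat (hp.comp (fst' (fst' Poly.id))) (hn.comp (fst' (fst' Poly.id)))
      (snd' Poly.id) (getD_poly _ (hA.comp (fst' (fst' Poly.id))) (snd' (fst' Poly.id)))
  unfold sweepStep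
  refine Poly.pair (map (f := fun _ (e : ℕ × List ℕ) => e.2) (fst' hr) (snd' (snd' Poly.id)))
    (cons ?_ (snd' hs))
  refine map (f := fun a c => transp (p a) (n a) (((elim (p a) (n a) ((List.range 3).flatMap
    fun c => (s a).1.map fun v => vecMat (p a) (n a) v ((A a).getD c []))).2.drop
      (c * (s a).1.length)).take (s a).1.length)) (const _) ?_
  refine pTransp (hp.comp (fst' Poly.id)) (hn.comp (fst' Poly.id)) (pTake
    (pDrop (snd' (hr.comp (fst' Poly.id))) (mul (snd' Poly.id) (length (fst'
      (hs.comp (fst' Poly.id)))))) (length (fst' (hs.comp (fst' Poly.id)))))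

theorem bm_map_range {p n L R : ℕ} (f : ℕ → List ℕ) (hn : n ≤ R)
    (hf : ∀ i < n, BV p L (f i)) : BM p L R ((List.range n).map f) := by
  refine ⟨by simpa using hn, ?_⟩
  intro v hv
  obtain ⟨i, hi, rfl⟩ := List.mem_map.1 hv
  exact hf i (List.mem_range.1 hi)

theorem bv_map_range {p n L : ℕ} (f : ℕ → ℕ) (hn : n ≤ L) (hf : ∀ i < n, f i < p) :
    BV p L ((List.range n).map f) := by
  refine ⟨by simpa using hn, ?_⟩
  intro v hv
  obtain ⟨i, hi, rfl⟩ := List.mem_map.1 hv
  exact hf i (List.mem_range.1 hi)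

theorem transp_bound {p n : ℕ} (hp : 0 < p) (M : Mat) : BM p (n + 1) (n + 1) (transp p n M) := by
  unfold transp
  exact bm_map_range _ (by omega) fun i _ => bv_map_range _ (by omega) fun j _ =>
    Nat.mod_lt _ hp

theorem vecMat_bound {p n : ℕ} (hp : 0 < p) (v : List ℕ) (M : Mat) :
    BV p (n + 1) (vecMat p n v M) := by
  unfold vecMat
  exact bv_map_range _ (by omega) fun j _ => Nat.mod_lt _ hp

theorem elim_fst_bound {p n : ℕ} (hp : 0 < p) (rows : Mat) :
    BM p (n + 1) (n + 1) ((elim p n rows).1.map Prod.snd) := by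
  obtain ⟨h1, h2, -, -⟩ := elim_bound n hp rows
  refine ⟨by simpa using h1, ?_⟩
  intro v hv
  obtain ⟨e, he, rfl⟩ := List.mem_map.1 hv
  exact ⟨by rw [(h2 e he).1]; omega, (h2 e he).2⟩

theorem sweepStep_bound {p n k : ℕ} (hp : 0 < p) {s : Mat × List Core} (A : Core)
    (h : BM p (n + 1) (n + 1) s.1 ∧ s.2.length ≤ k ∧ ∀ A ∈ s.2, BC p (n + 1) A) :
    BM p (n + 1) (n + 1) (sweepStep p n s A).1 ∧ (sweepStep p n s A).2.length ≤ k + 1 ∧
      ∀ A' ∈ (sweepStep p n s A).2, BC p (n + 1) A' := by
  unfold sweepStep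
  refine ⟨elim_fst_bound hp _, by simpa using h.2.1, ?_⟩
  intro A' hA'
  rcases List.mem_cons.1 hA' with rfl | hA'
  · refine ⟨by simp, ?_⟩
    intro M hM
    obtain ⟨c, -, rfl⟩ := List.mem_map.1 hM
    exact transp_bound hp _
  · exact h.2.2 A' hA'

theorem sweep_bound {p n : ℕ} (hp : 0 < p) (l : List Core) : ∀ (k : ℕ) (s : Mat × List Core),
    (BM p (n + 1) (n + 1) s.1 ∧ s.2.length ≤ k ∧ ∀ A ∈ s.2, BC p (n + 1) A) →
    (BM p (n + 1) (n + 1) (l.foldl (sweepStep p n) s).1 ∧
      (l.foldl (sweepStep p n) s).2.length ≤ k + l.length ∧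
      ∀ A' ∈ (l.foldl (sweepStep p n) s).2, BC p (n + 1) A') := by
  induction l with
  | nil => intro k s h; simpa using h
  | cons A l ih =>
    intro k s h
    have := ih (k + 1) _ (sweepStep_bound hp A h)
    rw [List.foldl_cons, List.length_cons]
    rwa [show k + (l.length + 1) = k + 1 + l.length by omega]

theorem rr_bound {p n : ℕ} (hp : 0 < p) (M : MPS) :
    BMPS p (n + 1) M.2.1.length (rr p n M) := by
  have h := sweep_bound (n := n) hp M.2.1 0 ((elim p n [M.1]).1.map Prod.snd, [])
    ⟨elim_fst_bound hp _, by simp, by simp⟩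
  rw [zero_add] at h
  refine ⟨?_, ⟨h.2.1, h.2.2⟩, ?_⟩
  · refine ⟨by simpa [rr] using h.1.1, ?_⟩
    intro x hx
    obtain ⟨v, hv, rfl⟩ := List.mem_map.1 hx
    exact Nat.mod_lt _ hp
  · obtain ⟨-, -, h3, h4⟩ := elim_bound n hp [M.1]
    show BV p (n + 1) ((elim p n [M.1]).2.headD [])
    cases h5 : (elim p n [M.1]).2 with
    | nil => rw [h5] at h3; simp at h3
    | cons v l => exact h4 v (by rw [h5]; exact List.mem_cons_self)

theorem rr_poly {p n : α → ℕ} {M : α → MPS} (hp : Poly p) (hn : Poly n) (hM : Poly M)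
    (hp0 : ∀ a, 0 < p a) : Poly (fun a => rr (p a) (n a) (M a)) := by
  have hr : Poly (fun a => elim (p a) (n a) [(M a).1]) :=
    pElim hp hn (cons (fst' hM) (const []))
  obtain ⟨P, hP, hPm, hPb⟩ := hp.size_le
  obtain ⟨N, hN, hNm, hNb⟩ := hn.size_le
  obtain ⟨K, hK, hKm, hKb⟩ := (length (fst' (snd' hM))).size_le
  have ht : Poly (fun a => (M a).2.1.foldl (sweepStep (p a) (n a))
      ((elim (p a) (n a) [(M a).1]).1.map Prod.snd, [])) := by
    refine foldl_inv (f := fun a s A => sweepStep (p a) (n a) s A)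
      (s := fun a => ((elim (p a) (n a) [(M a).1]).1.map Prod.snd, []))
      (fst' (snd' hM)) ((map (f := fun _ (e : ℕ × List ℕ) => e.2) (fst' hr)
        (snd' (snd' Poly.id))).pair (const []))
      (sweepStep_poly (p := fun q : α × (Mat × List Core) × Core => p q.1)
        (n := fun q : α × (Mat × List Core) × Core => n q.1) (hp.comp fst) (hn.comp fst)
        (fst' (snd' Poly.id)) (snd' (snd' Poly.id)))
      (fun a k s => BM (p a) (n a + 1) (n a + 1) s.1 ∧ s.2.length ≤ k ∧
        ∀ A ∈ s.2, BC (p a) (n a + 1) A)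
      (fun a => ⟨elim_fst_bound (hp0 a) _, by simp, by simp⟩)
      (fun a i s A _ h => sweepStep_bound (hp0 a) A h)
      (fun x => ((N x + 1) * ((N x + 1) * (2 * P x + 2) + 2) + 1) +
        (K x * (3 * ((N x + 1) * ((N x + 1) * (2 * P x + 2) + 2) + 2) + 2) + 1) + 1) ?_ ?_
    · have h1 : PB fun x => N x + 1 := hN.add (PB.const 1)
      have h2 : PB fun x => 2 * P x + 2 := ((PB.const 2).mul hP).add (PB.const 2)
      have h3 : PB fun x => (N x + 1) * ((N x + 1) * (2 * P x + 2) + 2) :=
        h1.mul ((h1.mul h2).add (PB.const 2))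
      exact ((h3.add (PB.const 1)).add ((hK.mul (((PB.const 3).mul (h3.add (PB.const 2))).add
        (PB.const 2))).add (PB.const 1))).add (PB.const 1)
    · rintro a i hi ⟨T, Cs⟩ ⟨h1, h2, h3⟩
      have hPa := hPb a
      have hNa := hNb a
      have hKa := hKb a
      rw [sz_nat] at hPa hNa hKa
      have e1 := h1.sz_le
      have e2 := cores_sz_le h2 h3
      rw [sz_pair]
      simp only at e1 e2
      have f1 : (n a + 1) * (2 * p a + 2) ≤ (N (sz a) + 1) * (2 * P (sz a) + 2) :=
        Nat.mul_le_mul (by omega) (by omega)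
      have f2 : (n a + 1) * ((n a + 1) * (2 * p a + 2) + 2) ≤
        (N (sz a) + 1) * ((N (sz a) + 1) * (2 * P (sz a) + 2) + 2) :=
        Nat.mul_le_mul (by omega) (by omega)
      have f3 : i * (3 * ((n a + 1) * ((n a + 1) * (2 * p a + 2) + 2) + 2) + 2) ≤
        K (sz a) * (3 * ((N (sz a) + 1) * ((N (sz a) + 1) * (2 * P (sz a) + 2) + 2) + 2) + 2) :=
        Nat.mul_le_mul (by omega) (by omega)
      omega
  unfold rr
  refine Poly.pair (map (f := fun a v => dot (p a) (n a) v (M a).2.2) (fst' ht)
    (pDot (hp.comp fst) (hn.comp fst) snd (snd' (snd' (hM.comp fst))))) ((snd' ht).pair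
      (headD _ (snd' hr)))

/-! ### closing and opening a chord -/

theorem spreadRow_poly {n c : α → ℕ} {v : α → List ℕ} (hn : Poly n) (hc : Poly c)
    (hv : Poly v) : Poly (fun a => spreadRow (n a) (c a) (v a)) := by
  unfold spreadRow
  refine map (f := fun a s => bif decide (s % 3 = c a) then (v a).getD (s / 3) 0 else 0)
    (range hn) ?_
  exact cond (natEq (pMod snd (const 3)) (hc.comp fst))
    (getD_poly 0 (hv.comp fst) (pDiv snd (const 3))) (const 0)

theorem spreadCore_poly {n : α → ℕ} {A : α → Core} (hn : Poly n) (hA : Poly A) :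
    Poly (fun a => spreadCore (n a) (A a)) := by
  unfold spreadCore
  refine map (f := fun a b => (List.range (n a)).map fun s => bif decide (s % 3 = b) then []
    else spreadRow (n a) (s % 3) (((A a).getD b []).getD (s / 3) [])) (const _) ?_
  refine map (f := fun (q : α × ℕ) s => bif decide (s % 3 = q.2) then []
    else spreadRow (n q.1) (s % 3) (((A q.1).getD q.2 []).getD (s / 3) [])) (range (hn.comp fst)) ?_
  exact cond (natEq (pMod snd (const 3)) (snd' fst)) (const [])
    (spreadRow_poly (hn.comp (fst' fst)) (pMod snd (const 3)) (getD_poly _ (getD_poly _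
      (hA.comp (fst' fst)) (snd' fst)) (pDiv snd (const 3))))

theorem linkMat_poly {n : α → ℕ} {A : α → Core} (hn : Poly n) (hA : Poly A) :
    Poly (fun a => linkMat (n a) (A a)) := by
  unfold linkMat
  refine map (f := fun a i => (List.range (n a)).map fun s =>
    (((A a).getD (s % 3) []).getD i []).getD (s / 3) 0) (range hn) ?_
  refine map (f := fun (q : α × ℕ) s => (((A q.1).getD (s % 3) []).getD q.2 []).getD (s / 3) 0)
    (range (hn.comp fst)) ?_
  exact getD_poly _ (getD_poly _ (getD_poly _ (hA.comp (fst' fst)) (pMod snd (const 3)))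
    (snd' fst)) (pDiv snd (const 3))

theorem spreadVec_poly {n : α → ℕ} {v : α → List ℕ} (hn : Poly n) (hv : Poly v) :
    Poly (fun a => spreadVec (n a) (v a)) := by
  unfold spreadVec
  exact map (f := fun a s => (v a).getD (s / 3) 0) (range hn)
    (getD_poly _ (hv.comp fst) (pDiv snd (const 3)))

theorem leftMul_poly {p n : α → ℕ} {X : α → Mat} {r : α → List Core × List ℕ} (hp : Poly p)
    (hn : Poly n) (hX : Poly X) (hr : Poly r) :
    Poly (fun a => leftMul (p a) (n a) (X a) (r a)) := by
  have h := listCases (l := fun a => (r a).1)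
    (f := fun a => (([] : List Core), (X a).map fun v => dot (p a) (n a) v (r a).2))
    (g := fun a A As => (((List.range 3).map fun c => (X a).map fun v =>
      vecMat (p a) (n a) v (A.getD c [])) :: As, (r a).2)) (fst' hr) ?_ ?_
  · refine h.congr fun a => ?_
    unfold leftMul
    cases (r a).1 <;> rfl
  · exact (const []).pair (map (f := fun a v => dot (p a) (n a) v (r a).2) hX
      (pDot (hp.comp fst) (hn.comp fst) snd (snd' (hr.comp fst))))
  · refine Poly.pair (cons ?_ (snd' snd)) (snd' (hr.comp fst))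
    refine map (f := fun (q : α × Core × List Core) c => (X q.1).map fun v =>
      vecMat (p q.1) (n q.1) v (q.2.1.getD c [])) (const _) ?_
    exact map (f := fun (q : (α × Core × List Core) × ℕ) v =>
      vecMat (p q.1.1) (n q.1.1) v (q.1.2.1.getD q.2 [])) (hX.comp (fst' fst))
      (pVecMat (hp.comp (fst' (fst' fst))) (hn.comp (fst' (fst' fst))) snd
        (getD_poly _ (fst' (snd' (fst' fst))) (snd' fst)))

theorem closeAt_poly {p n i : α → ℕ} {M : α → MPS} (hp : Poly p) (hn : Poly n) (hi : Poly i)
    (hM : Poly M) : Poly (fun a => closeAt (p a) (n a) (i a) (M a)) := by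
  have hr : Poly (fun a => leftMul (p a) (n a)
      (linkMat (n a) (((M a).2.1.drop (i a)).headD []))
      (((M a).2.1.drop (i a + 1)).map (spreadCore (n a)), spreadVec (n a) (M a).2.2)) := by
    refine leftMul_poly hp hn (linkMat_poly hn (headD _ (pDrop (fst' (snd' hM)) hi)))
      ((map (f := fun a A => spreadCore (n a) A) (pDrop (fst' (snd' hM)) (succ hi))
        (spreadCore_poly (hn.comp fst) snd)).pair (spreadVec_poly hn (snd' (snd' hM))))
  unfold closeAt
  exact (fst' hM).pair ((append (pTake (fst' (snd' hM)) hi) (fst' hr)).pair (snd' hr))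

theorem length_closeAt_le (p n i : ℕ) (M : MPS) :
    (closeAt p n i M).2.1.length ≤ M.2.1.length := by
  have h : ∀ (X : Mat) (r : List Core × List ℕ), (leftMul p n X r).1.length = r.1.length := by
    rintro X ⟨_ | ⟨A, As⟩, w⟩ <;> simp [leftMul]
  unfold closeAt
  simp only [List.length_append, List.length_take, h, List.length_map, List.length_drop]
  omega

theorem openMPS_poly {p n : α → ℕ} {M : α → MPS} (hp : Poly p) (hn : Poly n)
    (hM : Poly M) : Poly (fun a => openMPS (p a) (n a) (M a)) := by
  unfold openMPS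
  refine (fst' hM).pair ((append (fst' (snd' hM)) (cons ?_ (const []))).pair
    (cons (pMod (const 1) hp) (const [])))
  refine map (f := fun a _ => (List.range (n a)).map fun s => [(M a).2.2.getD s 0 % p a])
    (const _) ?_
  exact map (f := fun (q : α × ℕ) s => [(M q.1).2.2.getD s 0 % p q.1]) (range (hn.comp fst))
    (cons (pMod (getD_poly _ (snd' (snd' (hM.comp (fst' fst)))) snd) (hp.comp (fst' fst)))
      (const []))

theorem openMPS_bound {p n k : ℕ} (hp : 0 < p) {M : MPS} (h : BMPS p (n + 1) k M) :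
    BMPS p (n + 1) (k + 1) (openMPS p n M) := by
  refine ⟨h.1, ⟨?_, ?_⟩, ?_⟩
  · simpa [openMPS] using h.2.1.1
  · intro A hA
    rcases List.mem_append.1 hA with hA | hA
    · exact h.2.1.2 A hA
    · rw [List.mem_singleton] at hA
      subst hA
      refine ⟨by simp, ?_⟩
      intro X hX
      obtain ⟨c, -, rfl⟩ := List.mem_map.1 hX
      refine bm_map_range _ (by omega) fun i _ => ⟨by simp, ?_⟩
      intro x hx
      rw [List.mem_singleton] at hx
      subst hx
      exact Nat.mod_lt _ hp
  · refine ⟨by simp [openMPS], ?_⟩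
    intro x hx
    have hx : x ∈ [1 % p] := hx
    rw [List.mem_singleton] at hx
    subst hx
    exact Nat.mod_lt _ hp

theorem length_takeWhile_eq {β : Type} (l : List β) (f : β → Bool) : (l.takeWhile f).length =
    ((List.range l.length).filter fun i => (l.take (i + 1)).all f).length := by
  induction l with
  | nil => rfl
  | cons y l ih =>
    rw [List.length_cons, List.range_succ_eq_map, List.filter_cons, List.filter_map,
      List.takeWhile_cons]
    have e : ((fun i => ((y :: l).take (i + 1)).all f) ∘ Nat.succ) =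
        fun i => f y && (l.take (i + 1)).all f := by
      funext i
      simp
    rw [e]
    cases hf : f y
    · simp [hf]
    · simp [hf, ih]

theorem indexOf_poly {l : α → List ℕ} {x : α → ℕ} (hl : Poly l) (hx : Poly x) :
    Poly (fun a => indexOf (l a) (x a)) := by
  refine (length (filter (f := fun a i => ((l a).take (i + 1)).all fun y => !decide (y = x a))
    (range (length hl)) ?_)).congr fun a => (length_takeWhile_eq _ _).symm
  exact all (f := fun (q : α × ℕ) y => !decide (y = x q.1)) (pTake (hl.comp fst) (succ snd))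
    (not (natEq snd (hx.comp (fst' fst))))

theorem stepRun_poly {p n x : α → ℕ} {s : α → List ℕ × MPS} (hp : Poly p) (hn : Poly n)
    (hs : Poly s) (hx : Poly x) (hp0 : ∀ a, 0 < p a) :
    Poly (fun a => stepRun (p a) (n a) (s a) (x a)) := by
  unfold stepRun
  refine cond (any (f := fun a y => decide (y = x a)) (fst' hs) (natEq snd (hx.comp fst)))
    (Poly.pair (filter (f := fun a y => !decide (y = x a)) (fst' hs)
      (not (natEq snd (hx.comp fst)))) ?_)
    ((append (fst' hs) (cons hx (const []))).pair (openMPS_poly hp hn (snd' hs)))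
  exact rr_poly hp hn (rr_poly hp hn (closeAt_poly hp hn (indexOf_poly (fst' hs) hx) (snd' hs))
    hp0) hp0

theorem stepRun_bound {p n k : ℕ} (hp : 0 < p) {w : List ℕ} {s : List ℕ × MPS} {x : ℕ}
    (hx : x ∈ w) (h : s.1.length ≤ k ∧ (∀ y ∈ s.1, y ∈ w) ∧ BMPS p (n + 1) k s.2) :
    (stepRun p n s x).1.length ≤ k + 1 ∧ (∀ y ∈ (stepRun p n s x).1, y ∈ w) ∧
      BMPS p (n + 1) (k + 1) (stepRun p n s x).2 := by
  unfold stepRun
  cases s.1.any fun y => decide (y = x)
  · refine ⟨by simpa using h.1, ?_, openMPS_bound hp h.2.2⟩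
    intro y hy
    rcases List.mem_append.1 hy with hy | hy
    · exact h.2.1 y hy
    · rw [List.mem_singleton] at hy
      subst hy
      exact hx
  · refine ⟨?_, ?_, ?_⟩
    · exact (List.length_filter_le _ _).trans (h.1.trans (Nat.le_succ k))
    · intro y hy
      exact h.2.1 y (List.mem_of_mem_filter hy)
    · have h1 := rr_bound (n := n) hp (closeAt p n (indexOf s.1 x) s.2)
      have h2 := rr_bound (n := n) hp (rr p n (closeAt p n (indexOf s.1 x) s.2))
      have h3 := length_closeAt_le p n (indexOf s.1 x) s.2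
      exact h2.mono (by have := h1.2.1.1; have := h.2.2.2.1.1; omega)

theorem countMod_poly {p n : α → ℕ} {w : α → List ℕ} (hp : Poly p) (hn : Poly n)
    (hw : Poly w) (hp0 : ∀ a, 0 < p a) : Poly (fun a => countMod (p a) (n a) (w a)) := by
  obtain ⟨P, hP, hPm, hPb⟩ := hp.size_le
  obtain ⟨N, hN, hNm, hNb⟩ := hn.size_le
  obtain ⟨W, hW, hWm, hWb⟩ := hw.size_le
  have ht : Poly (fun a => (w a).foldl (stepRun (p a) (n a))
      ([], ([1 % p a], [], [1 % p a]))) := by
    have h1 : Poly (fun a => [1 % p a]) := cons (pMod (const 1) hp) (const [])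
    refine foldl_inv (f := fun a s x => stepRun (p a) (n a) s x)
      (s := fun a => (([] : List ℕ), ([1 % p a], ([] : List Core), [1 % p a])))
      hw ((const []).pair (h1.pair ((const []).pair h1)))
      (stepRun_poly (p := fun q : α × (List ℕ × MPS) × ℕ => p q.1)
        (n := fun q : α × (List ℕ × MPS) × ℕ => n q.1) (hp.comp fst) (hn.comp fst)
        (fst' (snd' Poly.id)) (snd' (snd' Poly.id)) fun q => hp0 q.1)
      (fun a k s => s.1.length ≤ k ∧ (∀ y ∈ s.1, y ∈ w a) ∧ BMPS (p a) (n a + 1) k s.2)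
      (fun a => ⟨by simp, by simp, ⟨⟨by simp, by simpa using Nat.mod_lt _ (hp0 a)⟩,
        ⟨by simp, by simp⟩, ⟨by simp, by simpa using Nat.mod_lt _ (hp0 a)⟩⟩⟩)
      (fun a i s x hx h => stepRun_bound (hp0 a) hx h)
      (fun x => (W x * (W x + 1) + 1) + (((N x + 1) * (2 * P x + 2) + 1) + ((W x *
        (3 * ((N x + 1) * ((N x + 1) * (2 * P x + 2) + 2) + 2) + 2) + 1) +
        ((N x + 1) * (2 * P x + 2) + 1) + 1) + 1) + 1) ?_ ?_
    · have h1 : PB fun x => N x + 1 := hN.add (PB.const 1)
      have h2 : PB fun x => 2 * P x + 2 := ((PB.const 2).mul hP).add (PB.const 2)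
      have h3 : PB fun x => (N x + 1) * ((N x + 1) * (2 * P x + 2) + 2) :=
        h1.mul ((h1.mul h2).add (PB.const 2))
      have h4 : PB fun x => (N x + 1) * (2 * P x + 2) + 1 := (h1.mul h2).add (PB.const 1)
      have h5 : PB fun x => W x * (3 * ((N x + 1) * ((N x + 1) * (2 * P x + 2) + 2) + 2) + 2) + 1 :=
        (hW.mul (((PB.const 3).mul (h3.add (PB.const 2))).add (PB.const 2))).add (PB.const 1)
      exact (((hW.mul (hW.add (PB.const 1))).add (PB.const 1)).add ((h4.add
        ((h5.add h4).add (PB.const 1))).add (PB.const 1))).add (PB.const 1)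
    · rintro a i hi ⟨l, M⟩ ⟨h1, h2, h3⟩
      have hPa := hPb a
      have hNa := hNb a
      have hWa := hWb a
      rw [sz_nat] at hPa hNa
      have e1 : sz l ≤ i * (sz (w a) + 1) + 1 := sz_list_le h1 fun y hy => sz_le_of_mem (h2 y hy)
      have e2 := h3.sz_le
      have hi' := length_le_sz (w a)
      rw [sz_pair]
      simp only at e2
      have f1 : (n a + 1) * (2 * p a + 2) ≤ (N (sz a) + 1) * (2 * P (sz a) + 2) :=
        Nat.mul_le_mul (by omega) (by omega)
      have f2 : (n a + 1) * ((n a + 1) * (2 * p a + 2) + 2) ≤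
        (N (sz a) + 1) * ((N (sz a) + 1) * (2 * P (sz a) + 2) + 2) :=
        Nat.mul_le_mul (by omega) (by omega)
      have f3 : i * (3 * ((n a + 1) * ((n a + 1) * (2 * p a + 2) + 2) + 2) + 2) ≤
        W (sz a) * (3 * ((N (sz a) + 1) * ((N (sz a) + 1) * (2 * P (sz a) + 2) + 2) + 2) + 2) :=
        Nat.mul_le_mul (by omega) (by omega)
      have f4 : i * (sz (w a) + 1) ≤ W (sz a) * (W (sz a) + 1) :=
        Nat.mul_le_mul (by omega) (by omega)
      omega
  unfold countMod
  exact pDot hp hn (fst' (snd' ht)) (snd' (snd' (snd' ht)))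

theorem isPrime_poly {p : α → ℕ} (hp : Poly p) : Poly (fun a => isPrime (p a)) := by
  unfold isPrime
  refine and (natLe (const 2) hp) ?_
  exact all (f := fun a d => decide (d < 2) || !decide (p a % d = 0)) (range hp)
    (or (natLt snd (const 2)) (not (natEq (pMod (hp.comp fst) snd) (const 0))))

theorem dimBound_poly {m : α → ℕ} (hm : Poly m) : Poly (fun a => dimBound (m a)) := by
  refine (mul (const 3) (mul (const 51) (mul (mul (succ hm) (succ hm))
    (mul (succ hm) (succ hm))))).congr fun a => ?_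
  unfold dimBound
  ring

theorem primeBound_poly {m : α → ℕ} (hm : Poly m) : Poly (fun a => primeBound (m a)) := by
  refine (mul (const 64) (mul (add hm (const 2)) (add hm (const 2)))).congr fun a => ?_
  unfold primeBound
  ring

theorem poly_decideWord : Poly decideWord := by
  unfold decideWord
  refine any (f := fun w p => isPrime p && !decide (countMod p (dimBound w.length) w = 0))
    (range (primeBound_poly (length Poly.id))) ?_
  refine dcond (c := fun q : List ℕ × ℕ => isPrime q.2) (isPrime_poly snd) ?_ ?_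
  · have h1 : Poly (fun a : {a : List ℕ × ℕ // isPrime a.2 = true} =>
        countMod a.1.2 (dimBound a.1.1.length) a.1.1) := by
      refine countMod_poly (snd' subtype_val) (dimBound_poly (length (fst' subtype_val)))
        (fst' subtype_val) ?_
      rintro ⟨a, ha⟩
      rw [isPrime, Bool.and_eq_true, decide_eq_true_eq] at ha
      exact lt_of_lt_of_le (by norm_num) ha.1
    refine (not (natEq h1 (const 0))).congr ?_
    rintro ⟨a, ha⟩
    simp only [ha, Bool.true_and]
  · refine (const false).congr ?_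
    rintro ⟨a, ha⟩
    simp only [ha, Bool.false_and]

theorem poly_isDiagram : Poly isDiagram := by
  unfold isDiagram
  refine and (all (f := fun (w : List ℕ) a =>
    decide ((w.filter fun b => decide (b = a)).length = 2))
    (range (pDiv (length Poly.id) (const 2))) ?_)
    (natEq (pMod (length Poly.id) (const 2)) (const 0))
  exact natEq (length (filter (f := fun (q : List ℕ × ℕ) b => decide (b = q.2)) fst
    (natEq snd (snd' fst)))) (const 2)

end Pool.Agent.H79.TC
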