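import Pool.Agent.H79.TC.Alg

/-!
# Primality test, and enough primes
-/

set_option autoImplicit false

open Finset

namespace Pool.Agent.H79.TC

theorem isPrime_iff (p : ℕ) : isPrime p = true ↔ p.Prime := by
  rw [Nat.prime_def_lt', isPrime]
  simp only [Bool.and_eq_true, decide_eq_true_eq, List.all_eq_true, List.mem_range,
    Bool.or_eq_true, Bool.not_eq_true', decide_eq_false_iff_not]
  refine and_congr_right fun _ => ?_
  constructor
  · intro h m hm2 hmp hdvd
    rcases h m hmp with h1 | h1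
    · omega
    · exact h1 (Nat.mod_eq_zero_of_dvd hdvd)
  · intro h m hmp
    by_cases hm2 : m < 2
    · exact Or.inl hm2
    · exact Or.inr fun h1 => h m (by omega) hmp (Nat.dvd_of_mod_eq_zero h1)

theorem centralBinom_le (k : ℕ) :
    Nat.centralBinom k ≤ (2 * k) ^ ((range (2 * k + 1)).filter Nat.Prime).card := by
  rcases Nat.eq_zero_or_pos k with rfl | hk
  · have h0 : (range (2 * 0 + 1)).filter Nat.Prime = ∅ := by decide
    rw [h0]
    simp
  rw [← Nat.prod_pow_factorization_centralBinom k, ← Finset.prod_filter_mul_prod_filter_not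
    (range (2 * k + 1)) Nat.Prime, ← Finset.prod_const]
  have h1 : ∏ p ∈ (range (2 * k + 1)).filter (fun p => ¬ Nat.Prime p),
      p ^ (Nat.centralBinom k).factorization p = 1 := by
    refine Finset.prod_eq_one fun p hp => ?_
    rw [Nat.factorization_eq_zero_of_not_prime _ (Finset.mem_filter.1 hp).2, pow_zero]
  rw [h1, mul_one]
  refine Finset.prod_le_prod' fun p _ => ?_
  exact Nat.pow_factorization_choose_le (by omega)

theorem exists_prime_aux {N K c : ℕ} (hc : c ≤ 2 * N) (hK : K = 16 * (N + 2) ^ 2)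
    (h5 : 4 ^ K < K * Nat.centralBinom K) (hb : Nat.centralBinom K ≤ (2 * K) ^ c) : False := by
  have h0 : 0 < 2 * K := by rw [hK]; positivity
  have h6 : 2 * K ≤ 2 ^ (2 * N + 7) := by
    have h7 : N + 1 + 1 ≤ 2 ^ (N + 1) := Nat.lt_two_pow_self
    calc 2 * K = 32 * (N + 2) ^ 2 := by rw [hK]; ring
      _ ≤ 32 * (2 ^ (N + 1)) ^ 2 := by gcongr
      _ = 2 ^ (2 * N + 7) := by ring
  have h9 : 4 ^ K < 2 ^ ((2 * N + 7) * (2 * N + 1)) := by
    calc 4 ^ K < K * Nat.centralBinom K := h5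
      _ ≤ (2 * K) * (2 * K) ^ (2 * N) :=
          Nat.mul_le_mul (by omega) (hb.trans (Nat.pow_le_pow_right h0 hc))
      _ = (2 * K) ^ (2 * N + 1) := by rw [pow_succ']
      _ ≤ (2 ^ (2 * N + 7)) ^ (2 * N + 1) := Nat.pow_le_pow_left h6 _
      _ = 2 ^ ((2 * N + 7) * (2 * N + 1)) := by rw [pow_mul]
  have h10 : 4 ^ K = 2 ^ (2 * K) := by rw [pow_mul]; norm_num
  rw [h10] at h9
  have h11 := (Nat.pow_lt_pow_iff_right (by norm_num)).1 h9
  rw [hK] at h11
  nlinarith

theorem exists_prime (N m : ℕ) (hm : 0 < m) (hm3 : m ≤ 3 ^ N) :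
    ∃ p < primeBound N, p.Prime ∧ ¬ p ∣ m := by
  by_contra hcon
  push Not at hcon
  set S := (range (primeBound N)).filter Nat.Prime with hS
  have h1 : ∏ p ∈ S, p ∣ m := by
    refine Finset.prod_primes_dvd m (fun p hp => (Finset.mem_filter.1 hp).2.prime) fun p hp => ?_
    exact hcon p (Finset.mem_range.1 (Finset.mem_filter.1 hp).1) (Finset.mem_filter.1 hp).2
  have h2 : 2 ^ S.card ≤ 2 ^ (2 * N) := by
    calc 2 ^ S.card ≤ ∏ p ∈ S, p :=
          Finset.pow_card_le_prod S _ 2 fun p hp => (Finset.mem_filter.1 hp).2.two_le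
      _ ≤ m := Nat.le_of_dvd hm h1
      _ ≤ 3 ^ N := hm3
      _ ≤ 4 ^ N := Nat.pow_le_pow_left (by norm_num) N
      _ = 2 ^ (2 * N) := by rw [pow_mul]; norm_num
  have h3 : S.card ≤ 2 * N := (Nat.pow_le_pow_iff_right (by norm_num)).1 h2
  obtain ⟨K, hK⟩ : ∃ K, K = 16 * (N + 2) ^ 2 := ⟨_, rfl⟩
  have h4 : ((range (2 * K + 1)).filter Nat.Prime).card ≤ 2 * N := by
    refine (Finset.card_le_card (Finset.filter_subset_filter _ ?_)).trans h3
    refine Finset.range_subset_range.2 ?_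
    rw [hK, primeBound]
    nlinarith
  exact exists_prime_aux h4 hK (Nat.four_pow_lt_mul_centralBinom _ (by nlinarith))
    (centralBinom_le K)

end Pool.Agent.H79.TC
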