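import Pool.Agent.H79.TC.Chord

/-!
# The recursion for the number of colourings

Opening of a chord, closing of a chord, and the trivial upper bound.
-/

set_option autoImplicit false

open Finset

namespace Pool.Agent.H79.TC

theorem F_zero (σ : ℕ → ℕ) (w : ℕ → Fin 3) : F σ 0 0 w = 1 := by
  classical
  unfold F
  rw [Finset.card_eq_one]
  refine ⟨fun _ => 0, ?_⟩
  ext c
  simp only [Finset.mem_filter, mem_col, Finset.mem_singleton]
  constructor
  · rintro ⟨h, -⟩
    funext x
    exact h x (by simp)
  · rintro rfl
    refine ⟨fun _ _ => rfl, ⟨fun x hx => by simp at hx, fun x hx => by simp at hx⟩,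
      fun x hx => by simp at hx⟩

theorem F_le (σ : ℕ → ℕ) (a b : ℕ) (w : ℕ → Fin 3) : F σ a b w ≤ 3 ^ (b - a) := by
  classical
  unfold F
  have h1 : #{c ∈ Col a b | Good σ a b c ∧ Agree σ a b w c} ≤
      (Finset.univ : Finset (Fin (b - a) → Fin 3)).card := by
    refine Finset.card_le_card_of_injOn (fun c : ℕ → Fin 3 => fun i : Fin (b - a) => c (a + i))
      (fun _ _ => Finset.mem_coe.2 (Finset.mem_univ _)) ?_
    intro c hc d hd h
    have hc' := mem_col.1 (Finset.mem_filter.1 (Finset.mem_coe.1 hc)).1
    have hd' := mem_col.1 (Finset.mem_filter.1 (Finset.mem_coe.1 hd)).1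
    funext x
    by_cases hx : x ∈ Set.Ico a b
    · have hx1 := hx.1
      have hx2 := hx.2
      have := congrFun h ⟨x - a, by omega⟩
      simp only at this
      rwa [Nat.add_sub_cancel' hx1] at this
    · rw [hc' x hx, hd' x hx]
  simpa using h1

/-- The new point is not involved in a good colouring of the points before it. -/
theorem good_congr {σ : ℕ → ℕ} {t : ℕ} {c d : ℕ → Fin 3} (h : ∀ x < t, c x = d x) :
    Good σ 0 t c ↔ Good σ 0 t d := by
  unfold Good
  constructor
  · rintro ⟨h1, h2⟩
    refine ⟨fun x hx hs => ?_, fun x hx z hz hc hs => ?_⟩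
    · rw [← h x hx.2, ← h _ hs.2]; exact h1 x hx hs
    · rw [← h x hx.2, ← h z hz.2]; exact h2 x hx z hz hc hs
  · rintro ⟨h1, h2⟩
    refine ⟨fun x hx hs => ?_, fun x hx z hz hc hs => ?_⟩
    · rw [h x hx.2, h _ hs.2]; exact h1 x hx hs
    · rw [h x hx.2, h z hz.2]; exact h2 x hx z hz hc hs

theorem agree_congr {σ : ℕ → ℕ} {t : ℕ} {w c d : ℕ → Fin 3} (h : ∀ x < t, c x = d x) :
    Agree σ 0 t w c ↔ Agree σ 0 t w d := by
  unfold Agree
  constructor
  · intro h1 x hx hs
    rw [← h x hx.2]; exact h1 x hx hs
  · intro h1 x hx hs
    rw [h x hx.2]; exact h1 x hx hs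

/-- Crossing in terms of inequalities. -/
theorem rec_cross_iff {σ : ℕ → ℕ} (x z : ℕ) : Cross σ x z ↔
    ((min x (σ x) < z ∧ z < max x (σ x)) ∧ ¬ (min x (σ x) < σ z ∧ σ z < max x (σ x))) ∨
    ((min x (σ x) < σ z ∧ σ z < max x (σ x)) ∧ ¬ (min x (σ x) < z ∧ z < max x (σ x))) :=
  Iff.rfl

theorem cross_symm_left {σ : ℕ → ℕ} (hσ : ∀ x, σ (σ x) = x) (x z : ℕ) :
    Cross σ (σ x) z ↔ Cross σ x z := by
  rw [rec_cross_iff, rec_cross_iff, hσ, min_comm, max_comm]

theorem cross_symm_right {σ : ℕ → ℕ} (hσ : ∀ x, σ (σ x) = x) (x z : ℕ) :
    Cross σ x (σ z) ↔ Cross σ x z := by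
  rw [rec_cross_iff, rec_cross_iff, hσ]
  exact or_comm

/-- Goodness after an opening. -/
theorem good_open {σ : ℕ → ℕ} (hσ : ∀ x, σ (σ x) = x) {t : ℕ} (ht : t < σ t)
    (c : ℕ → Fin 3) : Good σ 0 (t + 1) c ↔ Good σ 0 t c := by
  have hne : ∀ x < t, σ x ≠ t := by
    intro x hx h
    have := hσ x
    rw [h] at this
    omega
  unfold Good
  simp only [Set.mem_Ico, zero_le, true_and]
  constructor
  · rintro ⟨h1, h2⟩
    refine ⟨fun x hx hs => h1 x (by omega) (by omega), fun x hx z hz hc hs => ?_⟩
    exact h2 x (by omega) z (by omega) hc (by omega)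
  · rintro ⟨h1, h2⟩
    refine ⟨fun x hx hs => ?_, fun x hx z hz hc hs => ?_⟩
    · have hxt : x ≠ t := by rintro rfl; omega
      have := hne x (by omega)
      exact h1 x (by omega) (by omega)
    · by_cases hxt : x = t
      · subst hxt
        exfalso
        by_cases hzt : z = x
        · subst hzt
          rw [rec_cross_iff] at hc
          omega
        · have := hne z (by omega)
          rw [rec_cross_iff] at hc
          omega
      · by_cases hzt : z = t
        · subst hzt
          exfalso
          have := hne x (by omega)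
          rw [rec_cross_iff] at hc
          omega
        · have := hne x (by omega)
          have := hne z (by omega)
          exact h2 x (by omega) z (by omega) hc (by omega)

theorem F_open {σ : ℕ → ℕ} (hσ : ∀ x, σ (σ x) = x) (hne : ∀ x, σ x ≠ x) {t : ℕ} (ht : t < σ t)
    (w : ℕ → Fin 3) : F σ 0 (t + 1) w = F σ 0 t w := by
  classical
  have hne' : ∀ x < t, σ x ≠ t := by
    intro x hx h
    have := hσ x
    rw [h] at this
    omega
  unfold F
  refine Finset.card_nbij' (fun c => Function.update c t 0) (fun c => Function.update c t (w t))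
    ?_ ?_ ?_ ?_
  · intro c hc
    rw [Finset.mem_coe, Finset.mem_filter, mem_col] at hc ⊢
    obtain ⟨h0, h1, h2⟩ := hc
    have hcd : ∀ x < t, Function.update c t 0 x = c x := fun x hx => by
      rw [Function.update_of_ne (by omega)]
    refine ⟨fun x hx => ?_, ?_, ?_⟩
    · beta_reduce
      by_cases hxt : x = t
      · subst hxt; simp
      · rw [Function.update_of_ne hxt]
        apply h0
        simp only [Set.mem_Ico, zero_le, true_and] at hx ⊢
        omega
    · rw [good_congr hcd]
      exact (good_open hσ ht c).1 h1
    · rw [agree_congr hcd]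
      intro x hx hs
      apply h2 x ⟨hx.1, by have := hx.2; omega⟩
      intro hs'
      apply hs
      have := hne' x hx.2
      exact ⟨hs'.1, by have := hs'.2; omega⟩
  · intro c hc
    rw [Finset.mem_coe, Finset.mem_filter, mem_col] at hc ⊢
    obtain ⟨h0, h1, h2⟩ := hc
    have hcd : ∀ x < t, Function.update c t (w t) x = c x := fun x hx => by
      rw [Function.update_of_ne (by omega)]
    refine ⟨fun x hx => ?_, ?_, ?_⟩
    · beta_reduce
      simp only [Set.mem_Ico, zero_le, true_and] at hx
      rw [Function.update_of_ne (by omega)]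
      apply h0
      simp only [Set.mem_Ico, zero_le, true_and]
      omega
    · rw [good_open hσ ht, good_congr hcd]
      exact h1
    · intro x hx hs
      beta_reduce
      by_cases hxt : x = t
      · subst hxt; simp
      · have hxt' : x < t := by have := hx.2; omega
        rw [Function.update_of_ne hxt]
        apply h2 x ⟨hx.1, hxt'⟩
        intro hs'
        apply hs
        exact ⟨hs'.1, by have := hs'.2; omega⟩
  · intro c hc
    rw [Finset.mem_coe, Finset.mem_filter, mem_col] at hc
    obtain ⟨h0, h1, h2⟩ := hc
    simp only [Function.update_idem]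
    rw [← h2 t ⟨Nat.zero_le _, by omega⟩ (by simp only [Set.mem_Ico, zero_le, true_and]; omega)]
    simp
  · intro c hc
    rw [Finset.mem_coe, Finset.mem_filter, mem_col] at hc
    obtain ⟨h0, h1, h2⟩ := hc
    simp only [Function.update_idem]
    rw [← h0 t (by simp)]
    simp

/-- Goodness and agreement after a closing. -/
theorem good_close {σ : ℕ → ℕ} (hσ : ∀ x, σ (σ x) = x) {t : ℕ} (ht : σ t < t)
    (w c : ℕ → Fin 3) :
    (Good σ 0 (t + 1) c ∧ Agree σ 0 (t + 1) w c) ↔
      (c t = c (σ t) ∧ (∀ x, σ t < x → x < t → t < σ x → w x ≠ c (σ t)) ∧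
        Good σ 0 t c ∧ Agree σ 0 t (Function.update w (σ t) (c (σ t))) c) := by
  have hst : ∀ x, σ x = t ↔ x = σ t := by
    intro x
    constructor
    · intro h; rw [← h, hσ]
    · rintro rfl; exact hσ t
  have hss : ∀ x, σ x = σ t ↔ x = t := by
    intro x
    constructor
    · intro h; have := hσ x; rw [h, hσ] at this; exact this.symm
    · rintro rfl; rfl
  unfold Good Agree
  simp only [Set.mem_Ico, zero_le, true_and, not_lt]
  constructor
  · rintro ⟨⟨h1, h2⟩, h3⟩
    refine ⟨?_, ?_, ⟨?_, ?_⟩, ?_⟩
    · exact (h1 t (by omega) (by omega)).symm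
    · intro x hx1 hx2 hx3 hwx
      have hcx : c x = w x := h3 x (by omega) (by omega)
      refine h2 (σ t) (by omega) x (by omega) ?_ (Or.inl (by rw [hσ]; omega)) (by rw [hcx, hwx])
      rw [rec_cross_iff, hσ]
      left
      constructor
      · omega
      · omega
    · intro x hx hs
      exact h1 x (by omega) (by omega)
    · intro x hx z hz hc hs
      exact h2 x (by omega) z (by omega) hc (by omega)
    · intro x hx hs
      by_cases hxs : x = σ t
      · subst hxs; simp
      · rw [Function.update_of_ne hxs]
        have := mt (hst x).1 hxs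
        exact h3 x (by omega) (by omega)
  · rintro ⟨h0, hw, ⟨h1, h2⟩, h3⟩
    -- the value at a point only depends on the chord
    have hct : ∀ x < t + 1, σ x < t + 1 → c (σ x) = c x := by
      intro x hx hs
      by_cases hxt : x = t
      · subst hxt; exact h0.symm
      · by_cases hxs : x = σ t
        · subst hxs; rw [hσ]; exact h0
        · have := mt (hst x).1 hxs
          exact h1 x (by omega) (by omega)
    -- key: a crossing of the chord of `t` with a point before `t`
    have key : ∀ z < t, z ≠ σ t → Cross σ t z → c t ≠ c z := by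
      intro z hz hzs hc
      rw [h0]
      have hzt' := mt (hst z).1 hzs
      by_cases hzo : σ z < t
      · refine h2 (σ t) (by omega) z hz ?_ (Or.inr hzo)
        rw [cross_symm_left hσ]; exact hc
      · have hcz : c z = w z := by
          have := h3 z hz (by omega)
          rwa [Function.update_of_ne hzs] at this
        rw [hcz]
        have := hw z (by
          rw [rec_cross_iff] at hc
          omega) hz (by omega)
        exact this.symm
    have cross_comm' : ∀ x z, x ≠ z → x ≠ σ z → Cross σ x z → Cross σ z x := by
      intro x z hxz hxz' hc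
      have e1 : σ x ≠ σ z := by
        intro h
        have := hσ x
        rw [h, hσ] at this
        exact hxz this.symm
      have e2 : σ x ≠ z := by
        intro h
        apply hxz'
        rw [← h, hσ]
      rw [rec_cross_iff] at hc ⊢
      omega
    have cross_irrefl : ∀ x, ¬ Cross σ x x := by
      intro x hc
      rw [rec_cross_iff] at hc
      omega
    have cross_irrefl' : ∀ x, ¬ Cross σ x (σ x) := by
      intro x hc
      rw [cross_symm_right hσ] at hc
      exact cross_irrefl x hc
    refine ⟨⟨fun x hx hs => hct x hx hs, ?_⟩, ?_⟩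
    · intro x hx z hz hc hs
      by_cases hxt : x = t
      · subst hxt
        have hzx : z ≠ x := by rintro rfl; exact cross_irrefl _ hc
        have hzx' : z ≠ σ x := by rintro rfl; exact cross_irrefl' _ hc
        exact key z (by omega) hzx' hc
      · by_cases hzt : z = t
        · subst hzt
          have hxs : x ≠ σ z := by
            rintro rfl
            rw [cross_symm_left hσ] at hc
            exact cross_irrefl _ hc
          exact (key x (by omega) hxs (cross_comm' x z hxt hxs hc)).symm
        · by_cases hxs : x = σ t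
          · subst hxs
            rw [← h0]
            have hzs : z ≠ σ t := by rintro rfl; exact cross_irrefl _ hc
            rw [cross_symm_left hσ] at hc
            exact key z (by omega) hzs hc
          · by_cases hzs : z = σ t
            · subst hzs
              rw [← h0]
              rw [cross_symm_right hσ] at hc
              exact (key x (by omega) hxs (cross_comm' x t hxt hxs hc)).symm
            · have e1 := mt (hst x).1 hxs
              have e2 := mt (hst z).1 hzs
              exact h2 x (by omega) z (by omega) hc (by omega)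
    · intro x hx hs
      have hxt : x ≠ t := by rintro rfl; omega
      have hxs : x ≠ σ t := by rintro rfl; rw [hσ] at hs; omega
      have := h3 x (by omega) (by omega)
      rwa [Function.update_of_ne hxs] at this

open Classical in
theorem F_close {σ : ℕ → ℕ} (hσ : ∀ x, σ (σ x) = x) (hne : ∀ x, σ x ≠ x) {t : ℕ} (ht : σ t < t)
    (w : ℕ → Fin 3) : F σ 0 (t + 1) w =
      ∑ a : Fin 3, if (∀ x, σ t < x → x < t → t < σ x → w x ≠ a) then
        F σ 0 t (Function.update w (σ t) a) else 0 := by
  have h1 : F σ 0 (t + 1) w = ∑ a : Fin 3,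
      #{c ∈ ({c ∈ Col 0 (t + 1) | Good σ 0 (t + 1) c ∧ Agree σ 0 (t + 1) w c} :
        Finset (ℕ → Fin 3)) | c (σ t) = a} := by
    unfold F
    exact Finset.card_eq_sum_card_fiberwise (f := fun c : ℕ → Fin 3 => c (σ t))
      (t := Finset.univ) (fun _ _ => Finset.mem_coe.2 (Finset.mem_univ _))
  rw [h1]
  refine Finset.sum_congr rfl fun a _ => ?_
  split_ifs with hw
  · unfold F
    refine Finset.card_nbij' (fun c => Function.update c t 0) (fun c => Function.update c t a)
      ?_ ?_ ?_ ?_
    · intro c hc
      rw [Finset.mem_coe, Finset.mem_filter, Finset.mem_filter, mem_col] at hc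
      rw [Finset.mem_coe, Finset.mem_filter, mem_col]
      obtain ⟨⟨h0, h1⟩, h2⟩ := hc
      rw [good_close hσ ht, h2] at h1
      obtain ⟨h3, h4, h5, h6⟩ := h1
      have hcd : ∀ x < t, Function.update c t 0 x = c x := fun x hx => by
        rw [Function.update_of_ne (by omega)]
      refine ⟨fun x hx => ?_, ?_, ?_⟩
      · beta_reduce
        by_cases hxt : x = t
        · subst hxt; simp
        · rw [Function.update_of_ne hxt]
          apply h0
          simp only [Set.mem_Ico, zero_le, true_and] at hx ⊢
          omega
      · rw [good_congr hcd]; exact h5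
      · rw [agree_congr hcd]; exact h6
    · intro c hc
      rw [Finset.mem_coe, Finset.mem_filter, mem_col] at hc
      rw [Finset.mem_coe, Finset.mem_filter, Finset.mem_filter, mem_col]
      obtain ⟨h0, h1, h2⟩ := hc
      have hcs : c (σ t) = a := by
        have := h2 (σ t) ⟨Nat.zero_le _, ht⟩ (by rw [hσ]; simp)
        simpa using this
      have hcs' : Function.update c t a (σ t) = a := by
        rw [Function.update_of_ne (hne t)]; exact hcs
      have hcd : ∀ x < t, Function.update c t a x = c x := fun x hx => by
        rw [Function.update_of_ne (by omega)]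
      refine ⟨⟨fun x hx => ?_, ?_⟩, hcs'⟩
      · beta_reduce
        simp only [Set.mem_Ico, zero_le, true_and] at hx
        rw [Function.update_of_ne (by omega)]
        apply h0
        simp only [Set.mem_Ico, zero_le, true_and]
        omega
      · beta_reduce
        rw [good_close hσ ht, hcs']
        refine ⟨by simp, hw, ?_, ?_⟩
        · rw [good_congr hcd]; exact h1
        · rw [agree_congr hcd]; exact h2
    · intro c hc
      rw [Finset.mem_coe, Finset.mem_filter, Finset.mem_filter, mem_col] at hc
      obtain ⟨⟨h0, h1⟩, h2⟩ := hc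
      rw [good_close hσ ht, h2] at h1
      simp only [Function.update_idem]
      rw [← h1.1]
      simp
    · intro c hc
      rw [Finset.mem_coe, Finset.mem_filter, mem_col] at hc
      obtain ⟨h0, h1, h2⟩ := hc
      simp only [Function.update_idem]
      rw [← h0 t (by simp)]
      simp
  · rw [Finset.card_eq_zero, Finset.filter_eq_empty_iff]
    intro c hc h2
    rw [Finset.mem_filter, good_close hσ ht, h2] at hc
    exact hw hc.2.2.1

end Pool.Agent.H79.TC
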