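import Pool.Agent.H79.TC.Sem
import Pool.Agent.H79.TC.Elim

/-!
# The sweep: value and length of `rr`
-/

set_option autoImplicit false

open Finset

namespace Pool.Agent.H79.TC

/-! ## Semantics: left and right vectors -/

/-- Matrix times column vector. -/
def stepR (p n : ℕ) (M : Mat) (z : ℕ → ZMod p) (i : ℕ) : ZMod p :=
  if i < n then ∑ j ∈ range n, entM p M i j * z j else 0

/-- The right vector: the cores of `As` read with the colours `u`, applied to the column `z`. -/
def rightV (p n : ℕ) : List Core → List (Fin 3) → (ℕ → ZMod p) → ℕ → ZMod p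
  | A :: As, a :: u, z => stepR p n (A.getD (a : ℕ) []) (rightV p n As u z)
  | [], _, z => z
  | _ :: _, [], z => z

theorem rightV_nil (p n : ℕ) (u : List (Fin 3)) (z : ℕ → ZMod p) : rightV p n [] u z = z := by
  cases u <;> rfl

theorem rightV_cons (p n : ℕ) (A : Core) (As : List Core) (a : Fin 3) (u : List (Fin 3))
    (z : ℕ → ZMod p) :
    rightV p n (A :: As) (a :: u) z = stepR p n (A.getD (a : ℕ) []) (rightV p n As u z) := rfl

theorem leftV_nil (p n : ℕ) (x : ℕ → ZMod p) (u : List (Fin 3)) : leftV p n x [] u = x := by
  cases u <;> rfl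

theorem leftV_cons (p n : ℕ) (x : ℕ → ZMod p) (A : Core) (As : List Core) (a : Fin 3)
    (u : List (Fin 3)) :
    leftV p n x (A :: As) (a :: u) = leftV p n (stepV p n x (A.getD (a : ℕ) [])) As u := rfl

/-- Reading a concatenation. -/
theorem leftV_append (p n : ℕ) (As Bs : List Core) : ∀ (x : ℕ → ZMod p) (u w : List (Fin 3)),
    u.length = As.length → leftV p n x (As ++ Bs) (u ++ w) = leftV p n (leftV p n x As u) Bs w := by
  induction As with
  | nil =>
    intro x u w h
    obtain rfl : u = [] := List.length_eq_zero_iff.1 h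
    simp [leftV_nil]
  | cons A As ih =>
    intro x u w h
    match u, h with
    | a :: u, h =>
      rw [List.cons_append, List.cons_append, leftV_cons, leftV_cons]
      exact ih _ _ _ (by simpa using h)

/-- Reading a concatenation from the right. -/
theorem rightV_append (p n : ℕ) (As Bs : List Core) : ∀ (u w : List (Fin 3)) (z : ℕ → ZMod p),
    u.length = As.length →
    rightV p n (As ++ Bs) (u ++ w) z = rightV p n As u (rightV p n Bs w z) := by
  induction As with
  | nil =>
    intro u w z h
    obtain rfl : u = [] := List.length_eq_zero_iff.1 h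
    simp [rightV_nil]
  | cons A As ih =>
    intro u w z h
    match u, h with
    | a :: u, h =>
      rw [List.cons_append, List.cons_append, rightV_cons, rightV_cons,
        ih u w z (by simpa using h)]

/-- One step moves from the left to the right. -/
theorem sum_stepV (p n : ℕ) (x : ℕ → ZMod p) (M : Mat) (z : ℕ → ZMod p) :
    ∑ s ∈ range n, stepV p n x M s * z s = ∑ s ∈ range n, x s * stepR p n M z s := by
  have h1 : ∀ s ∈ range n, stepV p n x M s * z s = ∑ i ∈ range n, x i * (entM p M i s * z s) := by
    intro s hs
    rw [stepV, if_pos (mem_range.1 hs), sum_mul]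
    exact sum_congr rfl fun i _ => mul_assoc _ _ _
  have h2 : ∀ i ∈ range n, x i * stepR p n M z i = ∑ s ∈ range n, x i * (entM p M i s * z s) := by
    intro i hi
    rw [stepR, if_pos (mem_range.1 hi), mul_sum]
  rw [sum_congr rfl h1, sum_congr rfl h2, sum_comm]

/-- The value can be computed from the right. -/
theorem sum_leftV (p n : ℕ) (As : List Core) : ∀ (x : ℕ → ZMod p) (u : List (Fin 3))
    (z : ℕ → ZMod p),
    ∑ s ∈ range n, leftV p n x As u s * z s = ∑ s ∈ range n, x s * rightV p n As u z s := by
  induction As with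
  | nil => intro x u z; simp [leftV_nil, rightV_nil]
  | cons A As ih =>
    intro x u z
    cases u with
    | nil => rfl
    | cons a u => rw [leftV_cons, rightV_cons, ih, sum_stepV]

theorem val_eq_rightV (p n : ℕ) (M : MPS) (u : List (Fin 3)) :
    val p n M u = ∑ s ∈ range n, toV p M.1 s * rightV p n M.2.1 u (toV p M.2.2) s :=
  sum_leftV p n _ _ _ _

/-- The value, cut in two. -/
theorem val_append (p n : ℕ) (x : List ℕ) (As Bs : List Core) (z : List ℕ) (u w : List (Fin 3))
    (hu : u.length = As.length) :
    val p n (x, As ++ Bs, z) (u ++ w) =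
      ∑ s ∈ range n, leftV p n (toV p x) As u s * rightV p n Bs w (toV p z) s := by
  rw [val, leftV_append p n As Bs _ u w hu, sum_leftV]

/-! ## The data of the low level functions -/

theorem toV_natCast_mod (p a : ℕ) : ((a % p : ℕ) : ZMod p) = (a : ZMod p) := ZMod.natCast_mod a p

theorem cast_listSum {p : ℕ} (l : List ℕ) : ((l.sum : ℕ) : ZMod p) = (l.map fun a => (a : ZMod p)).sum := by
  induction l with
  | nil => simp
  | cons a l ih => simp [ih]

theorem cast_rangeSum {p : ℕ} (n : ℕ) (f : ℕ → ℕ) :
    ((((List.range n).map f).sum : ℕ) : ZMod p) = ∑ s ∈ range n, (f s : ZMod p) := by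
  induction n with
  | zero => simp
  | succ n ih => rw [List.range_succ, List.map_append, List.sum_append, Nat.cast_add, ih,
      sum_range_succ]; simp

theorem cast_dot (p n : ℕ) (v w : List ℕ) :
    ((dot p n v w : ℕ) : ZMod p) = ∑ s ∈ range n, toV p v s * toV p w s := by
  rw [dot, ZMod.natCast_mod, cast_rangeSum]
  exact sum_congr rfl fun s _ => by rw [Nat.cast_mul]; rfl

theorem getD_map_range {α : Type*} (n j : ℕ) (f : ℕ → α) (d : α) :
    ((List.range n).map f).getD j d = if j < n then f j else d := by
  split_ifs with h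
  · rw [List.getD_eq_getElem _ _ (by simpa using h)]; simp
  · rw [List.getD_eq_default _ _ (by simpa using h)]

theorem getD_map_lt {α β : Type*} (l : List α) (j : ℕ) (f : α → β) (d : β) (e : α) (h : j < l.length) :
    (l.map f).getD j d = f (l.getD j e) := by
  rw [List.getD_eq_getElem _ _ (by simpa using h), List.getElem_map, List.getD_eq_getElem _ _ h]

theorem toV_vecMat (p n : ℕ) (v : List ℕ) (M : Mat) :
    toV p (vecMat p n v M) = stepV p n (toV p v) M := by
  funext j
  rw [toV, vecMat, getD_map_range, stepV]
  split_ifs with h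
  · rw [ZMod.natCast_mod, cast_rangeSum]
    exact sum_congr rfl fun s _ => by rw [Nat.cast_mul]; rfl
  · simp

theorem entM_transp (p n : ℕ) (M : Mat) (i j : ℕ) :
    entM p (transp p n M) i j = if i < n ∧ j < n then entM p M j i else 0 := by
  rw [entM, transp, getD_map_range]
  by_cases h : i < n
  · rw [if_pos h, getD_map_range]
    by_cases h' : j < n
    · rw [if_pos h', if_pos ⟨h, h'⟩, ZMod.natCast_mod]; rfl
    · rw [if_neg h', if_neg (fun h => h' h.2)]; simp
  · rw [if_neg h, if_neg (fun h' => h h'.1)]; simp

theorem toV_of_length_le (p : ℕ) (v : List ℕ) {i : ℕ} (h : v.length ≤ i) : toV p v i = 0 := by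
  rw [toV, List.getD_eq_default _ _ h]; simp

theorem length_flatMap_range {α : Type*} (L : ℕ) (f : ℕ → List α) (hf : ∀ a, (f a).length = L) (m : ℕ) :
    ((List.range m).flatMap f).length = m * L := by
  induction m with
  | zero => simp
  | succ m ih => rw [List.range_succ, List.flatMap_append, List.length_append, ih]; simp [hf]; ring

theorem getD_flatMap_range {α : Type*} (L : ℕ) (f : ℕ → List α) (hf : ∀ a, (f a).length = L) (d : α)
    {k : ℕ} (hk : k < L) (m : ℕ) {a : ℕ} (ha : a < m) :
    ((List.range m).flatMap f).getD (a * L + k) d = (f a).getD k d := by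
  induction m with
  | zero => omega
  | succ m ih =>
    rw [List.range_succ, List.flatMap_append]
    rcases Nat.lt_succ_iff_lt_or_eq.1 ha with h | rfl
    · rw [List.getD_append, ih h]
      rw [length_flatMap_range L f hf]
      calc a * L + k < a * L + L := by omega
        _ = (a + 1) * L := by ring
        _ ≤ m * L := Nat.mul_le_mul_right _ h
    · rw [List.getD_append_right _ _ _ _ (by rw [length_flatMap_range L f hf]; omega),
        length_flatMap_range L f hf, Nat.add_sub_cancel_left]
      simp

theorem getD_take_drop {α : Type*} (l : List α) (b L k : ℕ) (d : α) :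
    ((l.drop b).take L).getD k d = if k < L then l.getD (b + k) d else d := by
  split_ifs with h
  · rw [List.getD_eq_getElem?_getD, List.getElem?_take_of_lt h, List.getElem?_drop,
      ← List.getD_eq_getElem?_getD]
  · rw [List.getD_eq_default _ _ (by simp; omega)]

/-! ## One step of the sweep -/

/-- The rows which are fed to the elimination. -/
def sweepRows (p n : ℕ) (T : Mat) (A : Core) : Mat :=
  (List.range 3).flatMap fun a => T.map fun v => vecMat p n v (A.getD a [])

theorem length_sweepRows (p n : ℕ) (T : Mat) (A : Core) :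
    (sweepRows p n T A).length = 3 * T.length :=
  length_flatMap_range _ _ (fun _ => List.length_map _) 3

theorem getD_sweepRows (p n : ℕ) (T : Mat) (A : Core) {a k : ℕ} (ha : a < 3) (hk : k < T.length) :
    (sweepRows p n T A).getD (a * T.length + k) [] = vecMat p n (T.getD k []) (A.getD a []) := by
  rw [sweepRows, getD_flatMap_range T.length _ (fun _ => List.length_map _) _ hk 3 ha,
    getD_map_lt T k _ [] [] hk]

theorem sweepStep_fst (p n : ℕ) (s : Mat × List Core) (A : Core) :
    (sweepStep p n s A).1 = (elim p n (sweepRows p n s.1 A)).1.map Prod.snd := rfl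

theorem sweepStep_snd (p n : ℕ) (s : Mat × List Core) (A : Core) :
    (sweepStep p n s A).2 = ((List.range 3).map fun a => transp p n
      (((elim p n (sweepRows p n s.1 A)).2.drop (a * s.1.length)).take s.1.length)) :: s.2 := rfl

/-- The entries of the new core. -/
theorem entM_newCore (p n L : ℕ) (C : Mat) (a : Fin 3) (l k : ℕ) :
    entM p (((List.range 3).map fun a => transp p n ((C.drop (a * L)).take L)).getD (a : ℕ) []) l k =
      if l < n ∧ k < n ∧ k < L then toV p (C.getD ((a : ℕ) * L + k) []) l else 0 := by
  rw [getD_map_range, if_pos a.2, entM_transp]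
  by_cases h : l < n ∧ k < n
  · rw [if_pos h, entM, getD_take_drop]
    by_cases hk : k < L
    · rw [if_pos hk, if_pos ⟨h.1, h.2, hk⟩]; rfl
    · rw [if_neg hk, if_neg (fun h => hk h.2.2)]; simp
  · rw [if_neg h, if_neg (fun h' => h ⟨h'.1, h'.2.1⟩)]

/-- The number of cores. -/
theorem length_foldl_sweepStep (p n : ℕ) (As : List Core) : ∀ s : Mat × List Core,
    (As.foldl (sweepStep p n) s).2.length = As.length + s.2.length := by
  induction As with
  | nil => intro s; simp
  | cons A As ih =>
    intro s
    rw [List.foldl_cons, ih, sweepStep_snd, List.length_cons, List.length_cons]; omega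

theorem length_rr (p n : ℕ) (M : MPS) : (rr p n M).2.1.length = M.2.1.length := by
  show (M.2.1.foldl (sweepStep p n) _).2.length = _
  rw [length_foldl_sweepStep]; simp

/-! ## The value -/

theorem getD_map_snd (E : List (ℕ × List ℕ)) (l : ℕ) :
    (E.map Prod.snd).getD l [] = (E.getD l (0, [])).2 := by
  by_cases h : l < E.length
  · exact getD_map_lt E l Prod.snd [] (0, []) h
  · rw [List.getD_eq_default _ _ (by simpa using h), List.getD_eq_default _ _ (by omega)]

/-- The rows after the next colour are combinations of the new rows, with the entries of the new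
core as coefficients. -/
theorem stepV_row {p : ℕ} (hp : p.Prime) (n : ℕ) (s : Mat × List Core) (A : Core) (a : Fin 3)
    {k j : ℕ} (hk : k < s.1.length) (hj : j < n) :
    stepV p n (toV p (s.1.getD k [])) (A.getD (a : ℕ) []) j =
      ∑ l ∈ range (sweepStep p n s A).1.length,
        toV p ((elim p n (sweepRows p n s.1 A)).2.getD ((a : ℕ) * s.1.length + k) []) l *
          toV p ((sweepStep p n s A).1.getD l []) j := by
  have h := (elim_spec hp n (sweepRows p n s.1 A)).2.2.2.1 ((a : ℕ) * s.1.length + k)
    (by
      rw [length_sweepRows]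
      have h1 := a.2
      calc (a : ℕ) * s.1.length + k < (a : ℕ) * s.1.length + s.1.length := by omega
        _ = ((a : ℕ) + 1) * s.1.length := by ring
        _ ≤ 3 * s.1.length := Nat.mul_le_mul_right _ h1) j hj
  rw [getD_sweepRows p n s.1 A a.2 hk, toV_vecMat] at h
  rw [h, sweepStep_fst, List.length_map]
  exact sum_congr rfl fun l _ => by rw [getD_map_snd]

/-- Reading the new core from the right. -/
theorem stepR_newCore {p : ℕ} (n : ℕ) (s : Mat × List Core) (A : Core) (a : Fin 3)
    (hs : s.1.length ≤ n) (z : ℕ → ZMod p) {l : ℕ} (hl : l < n) :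
    stepR p n (((List.range 3).map fun a => transp p n
      (((elim p n (sweepRows p n s.1 A)).2.drop (a * s.1.length)).take s.1.length)).getD (a : ℕ) [])
      z l = ∑ k ∈ range s.1.length,
        toV p ((elim p n (sweepRows p n s.1 A)).2.getD ((a : ℕ) * s.1.length + k) []) l * z k := by
  rw [stepR, if_pos hl]
  rw [← sum_subset (range_subset_range.2 hs)]
  · refine sum_congr rfl fun k hk => ?_
    have hk' := mem_range.1 hk
    rw [entM_newCore, if_pos ⟨hl, by omega, hk'⟩]
  · intro k hk hk'
    rw [mem_range] at hk'
    rw [entM_newCore, if_neg (fun h => hk' h.2.2), zero_mul]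

/-- The invariant of the sweep: the left vector of the original is a combination of the rows `T`,
the coefficients being the right vector of the reversed cores. -/
theorem sweep_inv {p : ℕ} (hp : p.Prime) (n : ℕ) (x z : ℕ → ZMod p) (T₀ : Mat)
    (h₀ : T₀.length ≤ n)
    (hx : ∀ j < n, x j = ∑ k ∈ range T₀.length, z k * toV p (T₀.getD k []) j)
    (hz : ∀ k, T₀.length ≤ k → z k = 0) (As : List Core) :
    ∀ w : List (Fin 3), w.length = As.length →
      (As.foldl (sweepStep p n) (T₀, [])).1.length ≤ n ∧
      (∀ j < n, leftV p n x As w j = ∑ k ∈ range (As.foldl (sweepStep p n) (T₀, [])).1.length,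
        rightV p n (As.foldl (sweepStep p n) (T₀, [])).2 w.reverse z k *
          toV p ((As.foldl (sweepStep p n) (T₀, [])).1.getD k []) j) ∧
      (∀ k, (As.foldl (sweepStep p n) (T₀, [])).1.length ≤ k →
        rightV p n (As.foldl (sweepStep p n) (T₀, [])).2 w.reverse z k = 0) := by
  induction As using List.reverseRecOn with
  | nil =>
    intro w hw
    simp only [List.foldl_nil, leftV_nil, rightV_nil]
    exact ⟨h₀, hx, hz⟩
  | append_singleton As A ih =>
    intro w hw
    obtain ⟨w, a, rfl⟩ : ∃ (w' : List (Fin 3)) (a : Fin 3), w = w' ++ [a] := by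
      rcases List.eq_nil_or_concat w with rfl | ⟨w', a, rfl⟩
      · simp at hw
      · exact ⟨w', a, by simp⟩
    have hw' : w.length = As.length := by simpa using hw
    obtain ⟨hT, h1, h2⟩ := ih w hw'
    rw [List.foldl_append, List.foldl_cons, List.foldl_nil, leftV_append p n _ _ _ _ _ hw',
      List.reverse_append, List.reverse_singleton, List.singleton_append]
    set s := As.foldl (sweepStep p n) (T₀, []) with hs
    set y := rightV p n s.2 w.reverse z with hy
    have hlen : (sweepStep p n s A).1.length ≤ n := by
      rw [sweepStep_fst, List.length_map]; exact (elim_spec hp n _).2.2.1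
    rw [sweepStep_snd, rightV_cons, leftV_cons, leftV_nil]
    refine ⟨hlen, ?_, ?_⟩
    · intro j hj
      have e1 : stepV p n (leftV p n x As w) (A.getD (a : ℕ) []) j =
          ∑ k ∈ range s.1.length, y k *
            stepV p n (toV p (s.1.getD k [])) (A.getD (a : ℕ) []) j := by
        rw [stepV, if_pos hj]
        have e2 : ∀ i ∈ range n, leftV p n x As w i * entM p (A.getD (a : ℕ) []) i j =
            ∑ k ∈ range s.1.length, y k * (toV p (s.1.getD k []) i *
              entM p (A.getD (a : ℕ) []) i j) := by
          intro i hi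
          rw [h1 i (mem_range.1 hi), sum_mul]
          exact sum_congr rfl fun k _ => by ring
        rw [sum_congr rfl e2, sum_comm]
        refine sum_congr rfl fun k _ => ?_
        rw [stepV, if_pos hj, mul_sum]
      rw [e1]
      have e3 : ∀ k ∈ range s.1.length, y k *
            stepV p n (toV p (s.1.getD k [])) (A.getD (a : ℕ) []) j =
          ∑ l ∈ range (sweepStep p n s A).1.length,
            (toV p ((elim p n (sweepRows p n s.1 A)).2.getD ((a : ℕ) * s.1.length + k) []) l *
              y k) * toV p ((sweepStep p n s A).1.getD l []) j := by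
        intro k hk
        rw [stepV_row hp n s A a (mem_range.1 hk) hj, mul_sum]
        exact sum_congr rfl fun l _ => by ring
      rw [sum_congr rfl e3, sum_comm]
      refine sum_congr rfl fun l hl => ?_
      rw [← sum_mul, stepR_newCore n s A a hT y (by have := mem_range.1 hl; omega)]
    · intro l hl
      by_cases hln : l < n
      · rw [stepR_newCore n s A a hT y hln]
        refine sum_eq_zero fun k _ => ?_
        rw [toV_of_length_le, zero_mul]
        refine le_trans ((elim_spec hp n (sweepRows p n s.1 A)).2.1 _) ?_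
        rw [sweepStep_fst, List.length_map] at hl
        exact hl
      · rw [stepR, if_neg hln]

theorem range_one_sum {R : Type*} [AddCommMonoid R] (f : ℕ → R) : ∑ i ∈ range 1, f i = f 0 := by simp

/-- The start of the sweep. -/
theorem rr_start {p : ℕ} (hp : p.Prime) (n : ℕ) (x : List ℕ) :
    ((elim p n [x]).1.map Prod.snd).length ≤ n ∧
    (∀ j < n, toV p x j = ∑ k ∈ range ((elim p n [x]).1.map Prod.snd).length,
      toV p ((elim p n [x]).2.headD []) k *
        toV p (((elim p n [x]).1.map Prod.snd).getD k []) j) ∧
    (∀ k, ((elim p n [x]).1.map Prod.snd).length ≤ k →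
      toV p ((elim p n [x]).2.headD []) k = 0) := by
  obtain ⟨h1, h2, h3, h4, -, -⟩ := elim_spec hp n [x]
  have hh : (elim p n [x]).2.headD [] = (elim p n [x]).2.getD 0 [] := by
    cases (elim p n [x]).2 <;> rfl
  rw [List.length_map, hh]
  refine ⟨h3, fun j hj => ?_, fun k hk => toV_of_length_le _ _ (le_trans (h2 0) hk)⟩
  have := h4 0 (by simp) j hj
  rw [List.getD_cons_zero] at this
  rw [this]
  exact sum_congr rfl fun k _ => by rw [getD_map_snd]

theorem rr_fst (p n : ℕ) (M : MPS) : (rr p n M).1 =
    ((M.2.1.foldl (sweepStep p n) ((elim p n [M.1]).1.map Prod.snd, [])).1.map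
      fun v => dot p n v M.2.2) := rfl

theorem rr_cores (p n : ℕ) (M : MPS) : (rr p n M).2.1 =
    (M.2.1.foldl (sweepStep p n) ((elim p n [M.1]).1.map Prod.snd, [])).2 := rfl

theorem rr_last (p n : ℕ) (M : MPS) : (rr p n M).2.2 = (elim p n [M.1]).2.headD [] := rfl

theorem val_rr {p : ℕ} (hp : p.Prime) (n : ℕ) (M : MPS) (u : List (Fin 3))
    (hu : u.length = M.2.1.length) : val p n (rr p n M) u.reverse = val p n M u := by
  obtain ⟨a1, a2, a3⟩ := rr_start hp n M.1
  obtain ⟨b1, b2, b3⟩ := sweep_inv hp n (toV p M.1) (toV p ((elim p n [M.1]).2.headD []))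
    ((elim p n [M.1]).1.map Prod.snd) a1 a2 a3 M.2.1 u hu
  rw [val_eq_rightV, rr_fst, rr_cores, rr_last, val]
  set s := M.2.1.foldl (sweepStep p n) ((elim p n [M.1]).1.map Prod.snd, []) with hs
  set y := rightV p n s.2 u.reverse (toV p ((elim p n [M.1]).2.headD [])) with hy
  have e1 : ∀ j ∈ range n, leftV p n (toV p M.1) M.2.1 u j * toV p M.2.2 j =
      ∑ k ∈ range s.1.length, (toV p (s.1.getD k []) j * toV p M.2.2 j) * y k := by
    intro j hj
    rw [b2 j (mem_range.1 hj), sum_mul]
    exact sum_congr rfl fun k _ => by ring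
  rw [sum_congr rfl e1, sum_comm, ← sum_subset (range_subset_range.2 b1)]
  · refine sum_congr rfl fun k hk => ?_
    rw [← sum_mul, ← cast_dot, toV, getD_map_lt s.1 k _ 0 [] (mem_range.1 hk)]
  · intro k _ hk
    rw [mem_range] at hk
    rw [toV_of_length_le _ _ (by rw [List.length_map]; omega), zero_mul]

end Pool.Agent.H79.TC
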