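import Pool.Agent.H79.TC.Defs
import Pool.Agent.H79.TC.Alg
import Pool.Agent.H79.TC.Chord

/-!
# Words and pairings of positions
-/

set_option autoImplicit false

open Finset

namespace Pool.Agent.H79.TC

open Classical in
/-- The other position with the same label (outside the word: a fixed pairing). -/
noncomputable def partner (w : List ℕ) (i : ℕ) : ℕ :=
  if h : ∃ j, j < w.length ∧ i < w.length ∧ j ≠ i ∧ w.getD j 0 = w.getD i 0 then h.choose
  else if i % 2 = 0 then i + 1 else i - 1

theorem count_eq_card (w : List ℕ) (a : ℕ) :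
    w.count a = #{i ∈ range w.length | w.getD i 0 = a} := by
  induction w using List.reverseRecOn with
  | nil => simp
  | append_singleton w b ih =>
    rw [List.count_append, List.length_append, List.length_singleton, Finset.range_add_one,
      Finset.filter_insert]
    have h1 : ({i ∈ range w.length | (w ++ [b]).getD i 0 = a} : Finset ℕ) =
        {i ∈ range w.length | w.getD i 0 = a} := by
      refine Finset.filter_congr fun i hi => ?_
      rw [List.getD_append _ _ _ _ (Finset.mem_range.1 hi)]
    have h2 : (w ++ [b]).getD w.length 0 = b := by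
      simp [List.getD]
    rw [h1, h2, ih]
    by_cases hb : b = a
    · subst hb
      rw [if_pos rfl, Finset.card_insert_of_notMem (by simp)]
      simp
    · rw [if_neg hb]
      simp [hb]

theorem mem_lt {n : ℕ} {w : List ℕ} (h : IsChordDiagram n w) {a : ℕ} (ha : a ∈ w) : a < n := by
  by_contra hn
  have h1 := List.sum_toFinset_count_eq_length w
  have h2 : insert a (range n) ⊆ w.toFinset := by
    intro b hb
    rw [Finset.mem_insert] at hb
    rcases hb with rfl | hb
    · simpa using ha
    · rw [List.mem_toFinset, ← List.count_pos_iff, h.2 b (Finset.mem_range.1 hb)]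
      norm_num
  have h3 := Finset.sum_le_sum_of_subset (f := fun b => w.count b) h2
  rw [Finset.sum_insert (by simpa using hn), h1, h.1,
    Finset.sum_congr rfl (g := fun _ => 2) (fun b hb => h.2 b (Finset.mem_range.1 hb))] at h3
  have h4 : 0 < w.count a := List.count_pos_iff.2 ha
  simp at h3
  omega

theorem getD_mem {w : List ℕ} {i : ℕ} (hi : i < w.length) : w.getD i 0 ∈ w := by
  rw [List.getD_eq_getElem _ _ hi]
  exact List.getElem_mem hi

theorem exists_partner {n : ℕ} {w : List ℕ} (h : IsChordDiagram n w) {i : ℕ} (hi : i < w.length) :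
    ∃ j, j < w.length ∧ i < w.length ∧ j ≠ i ∧ w.getD j 0 = w.getD i 0 := by
  have h1 := count_eq_card w (w.getD i 0)
  rw [h.2 _ (mem_lt h (getD_mem hi))] at h1
  obtain ⟨j, hj, hji⟩ := Finset.exists_mem_ne (s := {k ∈ range w.length | w.getD k 0 = w.getD i 0})
    (by omega) i
  rw [Finset.mem_filter, Finset.mem_range] at hj
  exact ⟨j, hj.1, hi, hji, hj.2⟩

theorem partner_spec {n : ℕ} {w : List ℕ} (h : IsChordDiagram n w) {i : ℕ} (hi : i < w.length) :
    partner w i < w.length ∧ partner w i ≠ i ∧ w.getD (partner w i) 0 = w.getD i 0 := by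
  have h1 := exists_partner h hi
  unfold partner
  rw [dif_pos h1]
  exact ⟨h1.choose_spec.1, h1.choose_spec.2.2⟩

theorem partner_lt {n : ℕ} {w : List ℕ} (h : IsChordDiagram n w) {i : ℕ} (hi : i < w.length) :
    partner w i < w.length := (partner_spec h hi).1

/-- Two positions have the same label iff they are equal or partners. -/
theorem getD_eq_iff {n : ℕ} {w : List ℕ} (h : IsChordDiagram n w) {i j : ℕ} (hi : i < w.length)
    (hj : j < w.length) : w.getD i 0 = w.getD j 0 ↔ (j = i ∨ j = partner w i) := by
  obtain ⟨h1, h2, h3⟩ := partner_spec h hi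
  constructor
  · intro hij
    by_contra hne
    rw [not_or] at hne
    have h4 := count_eq_card w (w.getD i 0)
    rw [h.2 _ (mem_lt h (getD_mem hi))] at h4
    have h5 : ({i, partner w i, j} : Finset ℕ) ⊆ {k ∈ range w.length | w.getD k 0 = w.getD i 0} := by
      intro k hk
      simp only [Finset.mem_insert, Finset.mem_singleton] at hk
      rw [Finset.mem_filter, Finset.mem_range]
      rcases hk with rfl | rfl | rfl
      · exact ⟨hi, rfl⟩
      · exact ⟨h1, h3⟩
      · exact ⟨hj, hij.symm⟩
    have h6 := Finset.card_le_card h5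
    rw [← h4, Finset.card_eq_three.2 ⟨i, partner w i, j, h2.symm, Ne.symm hne.1, Ne.symm hne.2, rfl⟩]
      at h6
    omega
  · rintro (rfl | rfl)
    · rfl
    · exact h3.symm

theorem partner_ne {n : ℕ} {w : List ℕ} (h : IsChordDiagram n w) (i : ℕ) : partner w i ≠ i := by
  by_cases hi : i < w.length
  · exact (partner_spec h hi).2.1
  · unfold partner
    rw [dif_neg (by rintro ⟨j, -, h2, -⟩; exact hi h2)]
    split_ifs with h1 <;> omega

theorem partner_out {w : List ℕ} {i : ℕ} (hi : ¬ i < w.length) :
    partner w i = if i % 2 = 0 then i + 1 else i - 1 := by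
  unfold partner
  rw [dif_neg (by rintro ⟨j, -, h2, -⟩; exact hi h2)]

theorem partner_partner {n : ℕ} {w : List ℕ} (h : IsChordDiagram n w) (i : ℕ) :
    partner w (partner w i) = i := by
  by_cases hi : i < w.length
  · obtain ⟨h1, h2, h3⟩ := partner_spec h hi
    have h4 := (getD_eq_iff h h1 hi).1 h3
    rcases h4 with h4 | h4
    · exact absurd h4.symm h2
    · exact h4.symm
  · have hl := h.1
    rw [partner_out hi]
    split_ifs with h1
    · rw [partner_out (by omega), if_neg (by omega)]
      omega
    · rw [partner_out (by omega), if_pos (by omega)]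
      omega

theorem sublist_four {w : List ℕ} {a b c d : ℕ} : List.Sublist [a, b, c, d] w ↔
    ∃ i j k l : ℕ, i < j ∧ j < k ∧ k < l ∧ l < w.length ∧ w.getD i 0 = a ∧ w.getD j 0 = b ∧
      w.getD k 0 = c ∧ w.getD l 0 = d := by
  rw [List.sublist_iff_exists_fin_orderEmbedding_get_eq]
  constructor
  · rintro ⟨f, hf⟩
    refine ⟨f 0, f 1, f 2, f 3, ?_, ?_, ?_, (f 3).2, ?_, ?_, ?_, ?_⟩
    · exact f.lt_iff_lt.2 (show (0 : Fin 4) < 1 by decide)
    · exact f.lt_iff_lt.2 (show (1 : Fin 4) < 2 by decide)
    · exact f.lt_iff_lt.2 (show (2 : Fin 4) < 3 by decide)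
    · rw [List.getD_eq_getElem _ _ (f 0).2]; exact (hf 0).symm
    · rw [List.getD_eq_getElem _ _ (f 1).2]; exact (hf 1).symm
    · rw [List.getD_eq_getElem _ _ (f 2).2]; exact (hf 2).symm
    · rw [List.getD_eq_getElem _ _ (f 3).2]; exact (hf 3).symm
  · rintro ⟨i, j, k, l, h1, h2, h3, h4, rfl, rfl, rfl, rfl⟩
    have hm : StrictMono (fun x : Fin 4 => (![(⟨i, by omega⟩ : Fin w.length), ⟨j, by omega⟩,
        ⟨k, by omega⟩, ⟨l, by omega⟩] x)) := by
      rw [Fin.strictMono_iff_lt_succ]
      intro x
      fin_cases x <;> simp <;> assumption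
    refine ⟨OrderEmbedding.ofStrictMono _ hm, fun x => ?_⟩
    fin_cases x
    · exact List.getD_eq_getElem _ _ _
    · exact List.getD_eq_getElem _ _ _
    · exact List.getD_eq_getElem _ _ _
    · exact List.getD_eq_getElem _ _ _

theorem cross_or (σ : ℕ → ℕ) (x z : ℕ) : Cross σ x z ↔
    ((min x (σ x) < z ∧ z < max x (σ x)) ∧ ¬ (min x (σ x) < σ z ∧ σ z < max x (σ x))) ∨
    ((min x (σ x) < σ z ∧ σ z < max x (σ x)) ∧ ¬ (min x (σ x) < z ∧ z < max x (σ x))) := by
  unfold Cross Btw
  exact xor_def

theorem cross_iff {n : ℕ} {w : List ℕ} (h : IsChordDiagram n w) {x z : ℕ} (hx : x < w.length)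
    (hz : z < w.length) : Cross (partner w) x z ↔
      (w.getD x 0 ≠ w.getD z 0 ∧ Alternate w (w.getD x 0) (w.getD z 0)) := by
  obtain ⟨x1, x2, x3⟩ := partner_spec h hx
  obtain ⟨z1, z2, z3⟩ := partner_spec h hz
  by_cases hxz : w.getD x 0 = w.getD z 0
  · refine iff_of_false ?_ (fun h => h.1 hxz)
    rcases (getD_eq_iff h hx hz).1 hxz with rfl | rfl
    · rw [cross_or]
      omega
    · rw [cross_or, partner_partner h]
      omega
  · have e1 : z ≠ x := fun e => hxz (by rw [e])
    have e2 : z ≠ partner w x := fun e => hxz (by rw [e, x3])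
    have e3 : partner w z ≠ x := fun e => hxz (by rw [← z3, e])
    have e4 : partner w z ≠ partner w x := fun e => hxz (by rw [← z3, e, x3])
    constructor
    · intro hc
      rw [cross_or] at hc
      refine ⟨hxz, ?_⟩
      unfold Alternate
      rw [sublist_four, sublist_four]
      by_cases c1 : min x (partner w x) < min z (partner w z)
      · left
        have c2 : min z (partner w z) < max x (partner w x) := by
          omega
        have c3 : max x (partner w x) < max z (partner w z) := by
          omega
        refine ⟨_, _, _, _, c1, c2, c3, ?_, ?_, ?_, ?_, ?_⟩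
        · exact max_lt hz z1
        · rcases min_choice x (partner w x) with e | e <;> rw [e]
          exact x3
        · rcases min_choice z (partner w z) with e | e <;> rw [e]
          exact z3
        · rcases max_choice x (partner w x) with e | e <;> rw [e]
          exact x3
        · rcases max_choice z (partner w z) with e | e <;> rw [e]
          exact z3
      · right
        have c1' : min z (partner w z) < min x (partner w x) := by
          omega
        have c2 : min x (partner w x) < max z (partner w z) := by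
          omega
        have c3 : max z (partner w z) < max x (partner w x) := by
          omega
        refine ⟨_, _, _, _, c1', c2, c3, ?_, ?_, ?_, ?_, ?_⟩
        · exact max_lt hx x1
        · rcases min_choice z (partner w z) with e | e <;> rw [e]
          exact z3
        · rcases min_choice x (partner w x) with e | e <;> rw [e]
          exact x3
        · rcases max_choice z (partner w z) with e | e <;> rw [e]
          exact z3
        · rcases max_choice x (partner w x) with e | e <;> rw [e]
          exact x3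
    · rintro ⟨-, hc⟩
      unfold Alternate at hc
      rw [sublist_four, sublist_four] at hc
      rcases hc with ⟨i, j, k, l, h1, h2, h3, h4, a1, a2, a3, a4⟩ |
        ⟨i, j, k, l, h1, h2, h3, h4, a1, a2, a3, a4⟩
      · have b1 := (getD_eq_iff h hx (by omega)).1 a1.symm
        have b2 := (getD_eq_iff h hz (by omega)).1 a2.symm
        have b3 := (getD_eq_iff h hx (by omega)).1 a3.symm
        have b4 := (getD_eq_iff h hz (by omega)).1 a4.symm
        rw [cross_or]
        omega
      · have b1 := (getD_eq_iff h hz (by omega)).1 a1.symm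
        have b2 := (getD_eq_iff h hx (by omega)).1 a2.symm
        have b3 := (getD_eq_iff h hz (by omega)).1 a3.symm
        have b4 := (getD_eq_iff h hx (by omega)).1 a4.symm
        rw [cross_or]
        omega

theorem exists_pos {n : ℕ} {w : List ℕ} (h : IsChordDiagram n w) {a : ℕ} (ha : a < n) :
    ∃ i < w.length, w.getD i 0 = a := by
  have h1 : a ∈ w := List.count_pos_iff.1 (by rw [h.2 a ha]; norm_num)
  obtain ⟨i, hi, h2⟩ := List.mem_iff_getElem.1 h1
  exact ⟨i, hi, by rw [List.getD_eq_getElem _ _ hi]; exact h2⟩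

theorem colorable_iff {n : ℕ} {w : List ℕ} (h : IsChordDiagram n w) :
    (circleGraph n w).Colorable 3 ↔ 0 < F (partner w) 0 w.length (fun _ => 0) := by
  classical
  unfold F
  rw [Finset.card_pos]
  constructor
  · rintro ⟨f⟩
    refine ⟨fun i => if hi : i < w.length then f ⟨w.getD i 0, mem_lt h (getD_mem hi)⟩ else 0, ?_⟩
    rw [Finset.mem_filter, mem_col]
    refine ⟨?_, ⟨?_, ?_⟩, ?_⟩
    · intro x hx
      rw [dif_neg]
      intro hx'
      exact hx ⟨Nat.zero_le _, hx'⟩
    · intro x hx hx'
      obtain ⟨x1, x2, x3⟩ := partner_spec h hx.2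
      simp only
      rw [dif_pos x1, dif_pos hx.2]
      congr 1
      exact Fin.ext x3
    · intro x hx z hz hc _
      simp only
      rw [dif_pos hx.2, dif_pos hz.2]
      obtain ⟨c1, c2⟩ := (cross_iff h hx.2 hz.2).1 hc
      exact f.valid ⟨fun e => c1 (congrArg Fin.val e), c2⟩
    · intro x hx hx'
      exact absurd ⟨Nat.zero_le _, partner_lt h hx.2⟩ hx'
  · rintro ⟨c, hc⟩
    rw [Finset.mem_filter, mem_col] at hc
    obtain ⟨-, ⟨hc1, hc2⟩, -⟩ := hc
    choose! g hg1 hg2 using fun a : ℕ => exists_pos h (a := a)
    refine ⟨SimpleGraph.Coloring.mk (fun a => c (g a)) ?_⟩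
    rintro a b ⟨hab, hal⟩
    have ha := hg1 a a.2
    have hb := hg1 b b.2
    refine hc2 _ ⟨Nat.zero_le _, ha⟩ _ ⟨Nat.zero_le _, hb⟩ ?_
      (Or.inl ⟨Nat.zero_le _, partner_lt h ha⟩)
    rw [cross_iff h ha hb, hg2 a a.2, hg2 b b.2]
    exact ⟨fun e => hab (Fin.ext e), hal⟩

theorem isDiagram_iff (w : List ℕ) : isDiagram w = true ↔ ∃ n, IsChordDiagram n w := by
  unfold isDiagram IsChordDiagram
  simp only [Bool.and_eq_true, List.all_eq_true, List.mem_range, decide_eq_true_eq]
  have hc : ∀ a, (w.filter fun b => decide (b = a)).length = w.count a := by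
    intro a
    rw [List.count_eq_length_filter]
    rfl
  constructor
  · rintro ⟨h1, h2⟩
    refine ⟨w.length / 2, by omega, fun a ha => ?_⟩
    rw [← hc]; exact h1 a ha
  · rintro ⟨n, h1, h2⟩
    refine ⟨fun a ha => ?_, by omega⟩
    rw [hc]
    exact h2 a (by omega)

end Pool.Agent.H79.TC
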