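import Pool.Agent.H79.TC.RankThm
import Pool.Agent.H79.TC.Close
import Pool.Agent.H79.TC.Dim
import Pool.Agent.H79.TC.Sweep
import Pool.Agent.H79.TC.PolyB
import Pool.Agent.H79.TC.Parse
import Pool.Agent.H79.TC.Primes
import Pool.Agent.H79.TC.Rec
import Pool.Agent.H79.TC.Word
import Pool.Agent.H83.Wrap

/-!
# The algorithm is correct
-/

set_option autoImplicit false

open Finset

namespace Pool.Agent.H79.TC

/-- Look up the colour of `x`. -/
def wd : List ℕ → List (Fin 3) → ℕ → Fin 3
  | y :: O, c :: u, x => if x = y then c else wd O u x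
  | _, _, _ => 0

theorem wd_append_left {A B : List ℕ} {u v : List (Fin 3)} (h : u.length = A.length) {x : ℕ}
    (hx : x ∈ A) : wd (A ++ B) (u ++ v) x = wd A u x := by
  induction A generalizing u with
  | nil => simp at hx
  | cons y A ih =>
    cases u with
    | nil => simp at h
    | cons c u =>
      simp only [List.cons_append, wd]
      split_ifs with k
      · rfl
      · refine ih (by simpa using h) ?_
        rcases List.mem_cons.1 hx with h1 | h1
        · exact (k h1).elim
        · exact h1

theorem wd_append_right {A B : List ℕ} {u v : List (Fin 3)} (h : u.length = A.length) {x : ℕ}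
    (hx : x ∉ A) : wd (A ++ B) (u ++ v) x = wd B v x := by
  induction A generalizing u with
  | nil =>
    cases u with
    | nil => rfl
    | cons c u => simp at h
  | cons y A ih =>
    cases u with
    | nil => simp at h
    | cons c u =>
      simp only [List.cons_append, wd]
      rw [if_neg (fun k => hx (by rw [k]; exact List.mem_cons_self))]
      exact ih (by simpa using h) (fun k => hx (List.mem_cons_of_mem _ k))

theorem wd_mem {B : List ℕ} {u : List (Fin 3)} (h : u.length = B.length) {x : ℕ} (hx : x ∈ B) :
    wd B u x ∈ u := by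
  induction B generalizing u with
  | nil => simp at hx
  | cons y B ih =>
    cases u with
    | nil => simp at h
    | cons c u =>
      simp only [wd]
      split_ifs with k
      · exact List.mem_cons_self
      · refine List.mem_cons_of_mem _ (ih (by simpa using h) ?_)
        rcases List.mem_cons.1 hx with h1 | h1
        · exact (k h1).elim
        · exact h1

theorem exists_wd {B : List ℕ} (hB : B.Nodup) {u : List (Fin 3)} (h : u.length = B.length)
    {c : Fin 3} (hc : c ∈ u) : ∃ x ∈ B, wd B u x = c := by
  induction B generalizing u with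
  | nil =>
    have : u = [] := List.eq_nil_of_length_eq_zero (by simpa using h)
    subst this; simp at hc
  | cons y B ih =>
    cases u with
    | nil => simp at h
    | cons d u =>
      rw [List.nodup_cons] at hB
      rcases List.mem_cons.1 hc with h1 | h1
      · exact ⟨y, List.mem_cons_self, by simp [wd, h1]⟩
      · obtain ⟨x, hx, hxc⟩ := ih hB.2 (by simpa using h) h1
        refine ⟨x, List.mem_cons_of_mem _ hx, ?_⟩
        simp only [wd]
        rw [if_neg, hxc]
        rintro rfl
        exact hB.1 hx

/-- The positions of the chords which are open at time `t`. -/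
def openPos (σ : ℕ → ℕ) (t : ℕ) : List ℕ := (List.range t).filter fun i => decide (t ≤ σ i)

theorem mem_openPos {σ : ℕ → ℕ} {t x : ℕ} : x ∈ openPos σ t ↔ x < t ∧ t ≤ σ x := by
  simp [openPos]

theorem sorted_openPos (σ : ℕ → ℕ) (t : ℕ) : (openPos σ t).Pairwise (· < ·) :=
  List.Pairwise.filter _ List.pairwise_lt_range

theorem mem_ext_zero {σ : ℕ → ℕ} {t x : ℕ} : x ∈ Ext σ 0 t ↔ x ∈ openPos σ t := by
  rw [mem_ext, mem_openPos]; omega

theorem openPos_open {σ : ℕ → ℕ} (hσ : ∀ x, σ (σ x) = x) {t : ℕ} (ht : t < σ t) :
    openPos σ (t + 1) = openPos σ t ++ [t] := by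
  unfold openPos
  rw [List.range_succ, List.filter_append]
  congr 1
  · apply List.filter_congr
    intro x hx
    rw [List.mem_range] at hx
    have : σ x ≠ t := by
      intro h
      have := hσ x
      rw [h] at this
      omega
    congr 1
    apply propext
    omega
  · simpa [Nat.succ_le_iff] using ht

theorem openPos_close {σ : ℕ → ℕ} (hσ : ∀ x, σ (σ x) = x) {t : ℕ} (ht : σ t < t) :
    openPos σ (t + 1) = (openPos σ t).filter fun x => !decide (x = σ t) := by
  unfold openPos
  rw [List.range_succ, List.filter_append, List.filter_filter]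
  have h1 : ([t] : List ℕ).filter (fun i => decide (t + 1 ≤ σ i)) = [] := by
    simp; omega
  rw [h1, List.append_nil]
  apply List.filter_congr
  intro x hx
  rw [List.mem_range] at hx
  by_cases k : x = σ t
  · subst k
    rw [hσ]
    simp
  · have : σ x ≠ t := by
      intro h
      have h2 := hσ x
      rw [h] at h2
      exact k h2.symm
    simp only [k, decide_false, Bool.not_false, Bool.true_and]
    congr 1
    apply propext
    omega

/-- A list with an entry. -/
theorem split_at {O : List ℕ} {e : ℕ} (he : e ∈ O) (hO : O.Pairwise (· < ·)) :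
    ∃ A B, O = A ++ e :: B ∧ (∀ x ∈ A, x < e) ∧ (∀ x ∈ B, e < x) := by
  obtain ⟨A, B, rfl⟩ := List.append_of_mem he
  rw [List.pairwise_append] at hO
  refine ⟨A, B, rfl, fun x hx => hO.2.2 x hx e List.mem_cons_self, fun x hx => ?_⟩
  exact List.rel_of_pairwise_cons hO.2.1 hx

theorem filter_split {A B : List ℕ} {e : ℕ} (hA : ∀ x ∈ A, x < e) (hB : ∀ x ∈ B, e < x) :
    (A ++ e :: B).filter (fun x => !decide (x = e)) = A ++ B := by
  rw [List.filter_append, List.filter_cons]
  simp only [decide_true, Bool.not_true, Bool.false_eq_true, if_false]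
  congr 1
  · rw [List.filter_eq_self]
    intro x hx
    have := hA x hx
    simp; omega
  · rw [List.filter_eq_self]
    intro x hx
    have := hB x hx
    simp; omega

/-- The index found by the algorithm. -/
theorem indexOf_split {A B : List ℕ} {e : ℕ} (hA : e ∉ A) : indexOf (A ++ e :: B) e = A.length := by
  unfold indexOf
  induction A with
  | nil => simp
  | cons y A ih =>
    simp only [List.mem_cons, not_or] at hA
    rw [List.cons_append, List.takeWhile_cons]
    simp only [Ne.symm hA.1, decide_false, Bool.not_false, if_true, List.length_cons]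
    rw [ih hA.2]

section run

variable {n : ℕ} {w : List ℕ}

/-- State of the algorithm after `t` steps. -/
def stateAt (p d : ℕ) (w : List ℕ) (t : ℕ) : List ℕ × MPS :=
  (w.take t).foldl (stepRun p d) ([], ([1 % p], [], [1 % p]))

theorem stateAt_succ (p d : ℕ) {t : ℕ} (ht : t < w.length) :
    stateAt p d w (t + 1) = stepRun p d (stateAt p d w t) (w.getD t 0) := by
  unfold stateAt
  rw [List.take_add_one, List.foldl_append]
  simp [List.getD_eq_getElem?_getD, List.getElem?_eq_getElem ht]

/-- The invariant. -/
structure Inv (p d D : ℕ) (w : List ℕ) (t : ℕ) (s : List ℕ × MPS) : Prop where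
  labels : s.1 = (openPos (partner w) t).map fun i => w.getD i 0
  len : s.2.2.1.length = (openPos (partner w) t).length
  supp : SuppLE D s.2
  value : ∀ u : List (Fin 3), u.length = (openPos (partner w) t).length →
    val p d s.2 u = (F (partner w) 0 t (wd (openPos (partner w) t) u) : ZMod p)

theorem inv_zero {p : ℕ} (hp : p.Prime) {d D : ℕ} (hD : 0 < D) (hd : 0 < d) :
    Inv p d D w 0 (stateAt p d w 0) := by
  have h1 : 1 % p = 1 := Nat.mod_eq_of_lt hp.one_lt
  refine ⟨rfl, rfl, ⟨?_, ?_⟩, ?_⟩
  · intro s hs
    simp only [stateAt, List.take_zero, List.foldl_nil]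
    rw [List.getD_eq_default]
    simp; omega
  · intro A hA
    simp [stateAt] at hA
  · intro u hu
    have : u = [] := List.eq_nil_of_length_eq_zero (by simpa [openPos] using hu)
    subst this
    rw [F_zero]
    simp only [val, stateAt, List.take_zero, List.foldl_nil, leftV, toV, h1]
    rw [Finset.sum_eq_single 0]
    · simp
    · intro b _ hb
      rw [List.getD_eq_default _ _ (by simp; omega)]
      simp
    · intro h; simp at h; omega

theorem inv_open {p : ℕ} (hp : p.Prime) {d D : ℕ} (hD : 0 < D) (hd : 0 < d)
    (hw : IsChordDiagram n w) {t : ℕ} (htw : t < w.length) (ht : t < partner w t)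
    {s : List ℕ × MPS} (hs : Inv p d D w t s) :
    Inv p d D w (t + 1) (stepRun p d s (w.getD t 0)) := by
  have hσ := partner_partner hw
  have hne := partner_ne hw
  have hnot : (s.1.any fun y => decide (y = w.getD t 0)) = false := by
    rw [List.any_eq_false]
    intro y hy
    rw [hs.labels, List.mem_map] at hy
    obtain ⟨x, hx, rfl⟩ := hy
    rw [mem_openPos] at hx
    simp only [decide_eq_true_eq]
    intro h
    rcases (getD_eq_iff hw (by omega) htw).1 h with h1 | h1
    · omega
    · have h2 := hσ x
      rw [← h1] at h2
      omega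
  have hstep : stepRun p d s (w.getD t 0) = (s.1 ++ [w.getD t 0], openMPS p d s.2) := by
    unfold stepRun; rw [hnot]; rfl
  rw [hstep]
  have hO := openPos_open hσ ht
  refine ⟨?_, ?_, supp_openMPS hD hs.supp, ?_⟩
  · rw [hO, List.map_append, hs.labels]; rfl
  · rw [length_openMPS, hO, List.length_append, hs.len]; rfl
  · intro u hu
    rw [hO, List.length_append] at hu
    simp only [List.length_cons, List.length_nil, zero_add] at hu
    obtain ⟨v, a, rfl⟩ : ∃ v a, u = v ++ [a] := by
      have hne' : u ≠ [] := by rintro rfl; simp at hu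
      exact ⟨u.dropLast, u.getLast hne', (List.dropLast_append_getLast hne').symm⟩
    have hv : v.length = (openPos (partner w) t).length := by simpa using hu
    rw [val_openMPS hp hd s.2 v a (by rw [hs.len]; exact hv), hs.value v hv, F_open hσ hne ht]
    congr 1
    apply F_congr
    intro x hx
    rw [mem_ext_zero] at hx
    rw [hO, wd_append_left hv hx]

theorem mem_take_drop_aux {A B : List (Fin 3)} {k : ℕ} (h : A.length = k) :
    (A ++ B).take k = A ∧ (A ++ B).drop k = B := by
  subst h; simp

/-- The value after a chord has been closed. -/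
theorem val_close {p : ℕ} (hp : p.Prime) {d D : ℕ} (hdD : 3 * D ≤ d) (hw : IsChordDiagram n w)
    {t : ℕ} (ht : partner w t < t) {s : List ℕ × MPS} (hs : Inv p d D w t s) {A B : List ℕ}
    (hO : openPos (partner w) t = A ++ partner w t :: B) (hA : ∀ x ∈ A, x < partner w t)
    (hB : ∀ x ∈ B, partner w t < x) (u : List (Fin 3)) (hu : u.length = (A ++ B).length) :
    val p d (closeAt p d A.length s.2) u =
      (F (partner w) 0 (t + 1) (wd (A ++ B) u) : ZMod p) := by
  classical
  have hσ := partner_partner hw
  have hne := partner_ne hw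
  have hlen : s.2.2.1.length = A.length + (B.length + 1) := by
    rw [hs.len, hO]; simp
  rw [List.length_append] at hu
  rw [val_closeAt hp hdD s.2 hs.supp (by omega) u (by omega), F_close hσ hne ht]
  push_cast
  refine Finset.sum_congr rfl fun a _ => ?_
  obtain ⟨uA, uB, rfl, huA⟩ : ∃ uA uB, u = uA ++ uB ∧ uA.length = A.length :=
    ⟨u.take A.length, u.drop A.length, (List.take_append_drop _ _).symm, by
      rw [List.length_take]; omega⟩
  have huB : uB.length = B.length := by rw [List.length_append] at hu; omega
  obtain ⟨e1, e2⟩ := mem_take_drop_aux (B := uB) huA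
  rw [e1, e2]
  have heA : partner w t ∉ A := fun h => by have := hA _ h; omega
  have heB : partner w t ∉ B := fun h => by have := hB _ h; omega
  have hnd : B.Nodup := by
    have := sorted_openPos (partner w) t
    rw [hO, List.pairwise_append] at this
    have h2 := (List.pairwise_cons.1 this.2.1).2
    exact h2.imp (fun h => Nat.ne_of_lt h)
  have hcond : (∀ b ∈ uB, b ≠ a) ↔ (∀ x, partner w t < x → x < t → t < partner w x →
      wd (A ++ B) (uA ++ uB) x ≠ a) := by
    constructor
    · intro h x hx1 hx2 hx3
      have hxO : x ∈ openPos (partner w) t := by rw [mem_openPos]; omega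
      have hxA : x ∉ A := fun h' => by have := hA _ h'; omega
      rw [hO, List.mem_append, List.mem_cons] at hxO
      have hxB : x ∈ B := by
        rcases hxO with h1 | h1 | h1
        · exact (hxA h1).elim
        · omega
        · exact h1
      rw [wd_append_right huA hxA]
      exact h _ (wd_mem huB hxB)
    · intro h b hb
      obtain ⟨x, hxB, hxb⟩ := exists_wd hnd huB hb
      have hxA : x ∉ A := fun h' => by have := hA _ h'; have := hB _ hxB; omega
      have hxO : x ∈ openPos (partner w) t := by
        rw [hO]; exact List.mem_append_right _ (List.mem_cons_of_mem _ hxB)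
      rw [mem_openPos] at hxO
      have h1 := hB _ hxB
      have h2 : partner w x ≠ t := by
        intro h3
        have := hσ x
        rw [h3] at this
        omega
      have := h x h1 hxO.1 (by omega)
      rw [wd_append_right huA hxA, hxb] at this
      exact this
  by_cases hc : ∀ b ∈ uB, b ≠ a
  · rw [if_pos hc, if_pos (hcond.1 hc)]
    have hl : (uA ++ a :: uB).length = (openPos (partner w) t).length := by
      rw [hO]; simp [huA, huB]
    rw [hs.value _ hl]
    congr 1
    apply F_congr
    intro x hx
    rw [mem_ext_zero, hO, List.mem_append, List.mem_cons] at hx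
    rw [hO]
    rcases hx with h1 | h1 | h1
    · have : x ≠ partner w t := by rintro rfl; exact heA h1
      rw [wd_append_left huA h1, Function.update_of_ne this, wd_append_left huA h1]
    · subst h1
      rw [wd_append_right huA heA]
      simp [wd]
    · have h2 : x ≠ partner w t := by rintro rfl; exact heB h1
      have h3 : x ∉ A := fun h' => by have := hA _ h'; have := hB _ h1; omega
      rw [wd_append_right huA h3, Function.update_of_ne h2, wd_append_right huA h3]
      simp only [wd]
      rw [if_neg h2]
  · rw [if_neg hc, if_neg (fun h => hc (hcond.2 h))]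

/-- Rank at the cuts after a chord has been closed. -/
theorem cutRank_close {p d D t : ℕ} {σ : ℕ → ℕ} (hσ : ∀ x, σ (σ x) = x) (hne : ∀ x, σ x ≠ x)
    (hD : 51 * (t + 1) ^ 4 ≤ D) {M : MPS} (hlen : M.2.1.length = (openPos σ t).length)
    (hval : ∀ u : List (Fin 3), u.length = (openPos σ t).length →
      val p d M u = (F σ 0 t (wd (openPos σ t) u) : ZMod p)) : CutRank p d D M := by
  intro j hj
  rw [hlen] at hj
  set O₁ := (openPos σ t).take j with hO₁
  set O₂ := (openPos σ t).drop j with hO₂
  have hO : openPos σ t = O₁ ++ O₂ := (List.take_append_drop _ _).symm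
  have hl₁ : O₁.length = j := by rw [hO₁, List.length_take]; omega
  have hsort := sorted_openPos σ t
  rw [hO, List.pairwise_append] at hsort
  have hex : ∃ s, (∀ x ∈ O₁, x < s) ∧ (∀ x ∈ O₂, s ≤ x) := by
    cases h2 : O₂ with
    | nil =>
      refine ⟨t, fun x hx => ?_, fun x hx => by simp at hx⟩
      have : x ∈ openPos σ t := by rw [hO]; exact List.mem_append_left _ hx
      exact (mem_openPos.1 this).1
    | cons y O₃ =>
      refine ⟨y, fun x hx => hsort.2.2 x hx y (by rw [h2]; exact List.mem_cons_self),
        fun x hx => ?_⟩
      rcases List.mem_cons.1 hx with h3 | h3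
      · omega
      · have := hsort.2.1
        rw [h2] at this
        exact le_of_lt (List.rel_of_pairwise_cons this h3)
  obtain ⟨s, hs1, hs2⟩ := hex
  have h1 := ((rank_F hσ hne 0 s t).mono (by simpa using hD)).cast (S := ZMod p)
  refine (h1.comp (fun x : {l : List (Fin 3) // l.length = j} => wd O₁ x.1)
    (fun y : {l : List (Fin 3) // l.length = M.2.1.length - j} => wd O₂ y.1)).congr ?_
  rintro ⟨x, hx⟩ ⟨y, hy⟩
  have hxy : (x ++ y).length = (openPos σ t).length := by
    rw [List.length_append, hx, hy, hlen]; omega
  beta_reduce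
  rw [hval _ hxy]
  congr 1
  apply F_congr
  intro z hz
  rw [mem_ext_zero, hO, List.mem_append] at hz
  rw [hO]
  simp only [glue]
  rcases hz with h3 | h3
  · rw [if_pos (hs1 z h3), wd_append_left (by rw [hx, hl₁]) h3]
  · have h4 := hs2 z h3
    rw [if_neg (by omega), wd_append_right (by rw [hx, hl₁])]
    intro h5
    have := hs1 z h5
    omega

theorem inv_close {p : ℕ} (hp : p.Prime) {d D : ℕ} (hdD : 3 * D ≤ d)
    (hw : IsChordDiagram n w) {t : ℕ} (htw : t < w.length) (ht : partner w t < t)
    (hD : 51 * (t + 2) ^ 4 ≤ D)
    {s : List ℕ × MPS} (hs : Inv p d D w t s) :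
    Inv p d D w (t + 1) (stepRun p d s (w.getD t 0)) := by
  have hσ := partner_partner hw
  have hne := partner_ne hw
  have he : partner w t ∈ openPos (partner w) t := by
    rw [mem_openPos, hσ]; omega
  obtain ⟨A, B, hO, hA, hB⟩ := split_at he (sorted_openPos _ _)
  have hO' : openPos (partner w) (t + 1) = A ++ B := by
    rw [openPos_close hσ ht, hO, filter_split hA hB]
  have hlab : w.getD (partner w t) 0 = w.getD t 0 := by
    rw [getD_eq_iff hw (by omega) htw, hσ]; exact Or.inr rfl
  have hlabel_ne : ∀ x ∈ openPos (partner w) t, x ≠ partner w t → w.getD x 0 ≠ w.getD t 0 := by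
    intro x hx hxe h
    rw [mem_openPos] at hx
    rcases (getD_eq_iff hw (by omega) htw).1 h with h1 | h1
    · omega
    · apply hxe
      rw [h1, hσ]
  have hany : (s.1.any fun y => decide (y = w.getD t 0)) = true := by
    rw [List.any_eq_true]
    refine ⟨w.getD t 0, ?_, by simp⟩
    rw [hs.labels, List.mem_map]
    exact ⟨partner w t, he, hlab⟩
  have hs1 : s.1 = (A.map fun i => w.getD i 0) ++ w.getD t 0 :: (B.map fun i => w.getD i 0) := by
    rw [hs.labels, hO, List.map_append, List.map_cons, hlab]
  have hAl : w.getD t 0 ∉ (A.map fun i => w.getD i 0) := by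
    intro h
    obtain ⟨x, hx, hxl⟩ := List.mem_map.1 h
    have := hA x hx
    exact hlabel_ne x (by rw [hO]; exact List.mem_append_left _ hx) (by omega) hxl
  have hBl : w.getD t 0 ∉ (B.map fun i => w.getD i 0) := by
    intro h
    obtain ⟨x, hx, hxl⟩ := List.mem_map.1 h
    have := hB x hx
    exact hlabel_ne x (by rw [hO]; exact List.mem_append_right _ (List.mem_cons_of_mem _ hx))
      (by omega) hxl
  have hidx : indexOf s.1 (w.getD t 0) = A.length := by
    rw [hs1, indexOf_split hAl, List.length_map]
  have hfil : (s.1.filter fun y => !decide (y = w.getD t 0)) =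
      (A ++ B).map fun i => w.getD i 0 := by
    rw [hs1, List.filter_append, List.filter_cons, List.map_append]
    simp only [decide_true, Bool.not_true, Bool.false_eq_true, if_false]
    congr 1
    · rw [List.filter_eq_self]
      intro y hy
      simp only [Bool.not_eq_true', decide_eq_false_iff_not]
      rintro rfl; exact hAl hy
    · rw [List.filter_eq_self]
      intro y hy
      simp only [Bool.not_eq_true', decide_eq_false_iff_not]
      rintro rfl; exact hBl hy
  have hstep : stepRun p d s (w.getD t 0) = ((A ++ B).map (fun i => w.getD i 0),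
      rr p d (rr p d (closeAt p d A.length s.2))) := by
    unfold stepRun
    rw [hany, hidx, hfil]; rfl
  have hlen : (closeAt p d A.length s.2).2.1.length = (A ++ B).length := by
    have h1 : s.2.2.1.length = A.length + (B.length + 1) := by
      rw [hs.len, hO]; simp
    have h2 := length_closeAt p d s.2 (i := A.length) (by omega)
    rw [List.length_append]
    omega
  have hval := fun u hu => val_close hp hdD hw ht hs hO hA hB u hu
  rw [hstep]
  refine ⟨?_, ?_, ?_, ?_⟩
  · rw [hO']
  · rw [length_rr, length_rr, hlen, hO']
  · apply supp_rr_rr hp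
    apply cutRank_close hσ hne (t := t + 1) hD
    · rw [hlen, hO']
    · rw [hO']; exact hval
  · rw [hO']
    intro u hu
    have e1 : val p d (rr p d (rr p d (closeAt p d A.length s.2))) u.reverse.reverse =
        val p d (rr p d (closeAt p d A.length s.2)) u.reverse :=
      val_rr hp d _ _ (by rw [length_rr, hlen, List.length_reverse, hu])
    rw [List.reverse_reverse] at e1
    rw [e1, val_rr hp d _ _ (by rw [hlen, hu]), hval u hu]

theorem inv_all {p : ℕ} (hp : p.Prime) {d D : ℕ} (hdD : 3 * D ≤ d)
    (hw : IsChordDiagram n w) (hD : 51 * (w.length + 1) ^ 4 ≤ D) :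
    ∀ t ≤ w.length, Inv p d D w t (stateAt p d w t) := by
  have hpos : 1 ≤ (w.length + 1) ^ 4 := Nat.one_le_pow _ _ (by omega)
  intro t
  induction t with
  | zero => intro _; exact inv_zero hp (by omega) (by omega)
  | succ t ih =>
    intro ht
    rw [stateAt_succ p d (by omega)]
    rcases lt_trichotomy t (partner w t) with h | h | h
    · exact inv_open hp (by omega) (by omega) hw (by omega) h (ih (by omega))
    · exact (partner_ne hw t h.symm).elim
    · refine inv_close hp hdD hw (by omega) h ?_ (ih (by omega))
      refine le_trans (Nat.mul_le_mul_left _ (Nat.pow_le_pow_left ?_ 4)) hD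
      omega

/-- The algorithm counts the proper colourings modulo `p`. -/
theorem countMod_eq {p : ℕ} (hp : p.Prime) (hw : IsChordDiagram n w) :
    ((countMod p (dimBound w.length) w : ℕ) : ZMod p) =
      (F (partner w) 0 w.length (fun _ => 0) : ZMod p) := by
  have hinv := inv_all hp (d := dimBound w.length) (D := 51 * (w.length + 1) ^ 4) le_rfl hw le_rfl
    w.length le_rfl
  have hO : openPos (partner w) w.length = [] := by
    rw [List.eq_nil_iff_forall_not_mem]
    intro x hx
    rw [mem_openPos] at hx
    have := partner_lt hw hx.1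
    omega
  have hlen := hinv.len
  have hv := hinv.value [] (by rw [hO]; rfl)
  rw [hO] at hlen hv
  have hst : stateAt p (dimBound w.length) w w.length =
      w.foldl (stepRun p (dimBound w.length)) ([], ([1 % p], [], [1 % p])) := by
    unfold stateAt; rw [List.take_length]
  rw [hst] at hlen hv
  have hw0 : (wd [] [] : ℕ → Fin 3) = fun _ => 0 := by funext x; rfl
  rw [hw0] at hv
  rw [← hv]
  set S := w.foldl (stepRun p (dimBound w.length)) ([], ([1 % p], [], [1 % p])) with hS
  have hcores : S.2.2.1 = [] := List.eq_nil_of_length_eq_zero hlen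
  unfold countMod
  rw [← hS]
  simp only [cast_dot, val, hcores, leftV]

/-- The decision procedure is correct on chord diagrams. -/
theorem decideWord_iff (hw : IsChordDiagram n w) :
    decideWord w = true ↔ (circleGraph n w).Colorable 3 := by
  rw [colorable_iff hw]
  unfold decideWord
  rw [List.any_eq_true]
  constructor
  · rintro ⟨p, hp, h⟩
    rw [Bool.and_eq_true, isPrime_iff] at h
    obtain ⟨hpp, h⟩ := h
    simp only [Bool.not_eq_true', decide_eq_false_iff_not] at h
    by_contra hF
    have hF0 : F (partner w) 0 w.length (fun _ => 0) = 0 := by omega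
    have h1 := countMod_eq hpp hw
    rw [hF0, Nat.cast_zero, ZMod.natCast_eq_zero_iff] at h1
    apply h
    refine Nat.eq_zero_of_dvd_of_lt h1 ?_
    unfold countMod
    exact Nat.mod_lt _ hpp.pos
  · intro hF
    obtain ⟨p, hp, hpp, hnd⟩ := exists_prime w.length _ hF (by
      have := F_le (partner w) 0 w.length (fun _ => 0)
      simpa using this)
    refine ⟨p, List.mem_range.2 hp, ?_⟩
    rw [Bool.and_eq_true, isPrime_iff]
    refine ⟨hpp, ?_⟩
    simp only [Bool.not_eq_true', decide_eq_false_iff_not]
    intro h
    apply hnd
    have h1 := countMod_eq hpp hw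
    rw [h, Nat.cast_zero] at h1
    exact (ZMod.natCast_eq_zero_iff _ _).1 h1.symm

end run

/-- The decision procedure on binary words. -/
def decideBits (x : List Bool) : Bool :=
  decide ((parseState x).1 = 0) && (isDiagram (parseState x).2 && decideWord (parseState x).2)

theorem decideBits_iff (x : List Bool) : decideBits x = true ↔ x ∈ ThreeColCircle := by
  unfold decideBits
  rw [Bool.and_eq_true, Bool.and_eq_true, decide_eq_true_eq, isDiagram_iff]
  constructor
  · rintro ⟨h1, ⟨n, hn⟩, h2⟩
    refine ⟨n, (parseState x).2, hn, (decideWord_iff hn).1 h2, ?_⟩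
    rw [parse_iff, ← h1]
  · rintro ⟨n, w, hw, hc, hx⟩
    rw [parse_iff] at hx
    rw [hx]
    exact ⟨rfl, ⟨n, hw⟩, (decideWord_iff hw).2 hc⟩

open Pool.Agent.H83 Pool.Agent.H83.Poly Turing in
theorem poly_decideBits : Poly decideBits := by
  unfold decideBits
  have h1 : Poly (fun x : List Bool => (parseState x).2) := snd' poly_parse
  exact and (natEq (fst' poly_parse) (const 0)) (and (poly_isDiagram.comp h1)
    (poly_decideWord.comp h1))

open Pool.Agent.H83 Pool.Agent.H83.Poly Turing in
/-- 3-colourability of circle graphs is decidable in polynomial time. -/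
theorem threeColCircle_in_P : ∃ f : List Bool → Bool,
    Nonempty (TM2ComputableInPolyTime (id : List Bool → List Bool) Computability.encodeBool f) ∧
    ∀ x, f x = true ↔ x ∈ ThreeColCircle := by
  refine ⟨decideBits, ?_, decideBits_iff⟩
  obtain ⟨c⟩ := Poly.toTM2 (f := fun x : List Bool => [decideBits x])
    (cons poly_decideBits (const []))
  refine ⟨{ c.toTM2ComputableAux with
    time := c.time
    outputsFun := fun x => ?_ }⟩
  exact c.outputsFun x

end Pool.Agent.H79.TC
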