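import Pool.Agent.H79.TC.Alg
import Pool.Agent.H83.Tableau

/-!
# Folds with an invariant, and bounds for the sizes of vectors, matrices and cores
-/

set_option autoImplicit false

namespace Pool.Agent.H79.TC

open Pool.Agent.H83 Pool.Agent.H83.Poly

variable {α β σ : Type} [Enc α] [Enc β] [Enc σ]

/-- Left folds with an invariant which bounds the size of the state. -/
theorem foldl_inv {l : α → List β} {s : α → σ} {f : α → σ → β → σ} (hl : Poly l) (hs : Poly s)
    (hf : Poly (fun p : α × σ × β => f p.1 p.2.1 p.2.2)) (I : α → ℕ → σ → Prop)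
    (h0 : ∀ a, I a 0 (s a)) (hI : ∀ a i t, ∀ x ∈ l a, I a i t → I a (i + 1) (f a t x))
    (B : ℕ → ℕ) (hB : PB B) (hIB : ∀ a, ∀ i ≤ (l a).length, ∀ t, I a i t → sz t ≤ B (sz a)) :
    Poly (fun a => (l a).foldl (f a) (s a)) := by
  refine Poly.foldl hl hs hf B hB fun a i hi => hIB a i hi _ ?_
  have key : ∀ (m : List β) (k : ℕ) (t : σ), (∀ x ∈ m, x ∈ l a) → I a k t →
      I a (k + m.length) (m.foldl (f a) t) := by
    intro m
    induction m with
    | nil => intro k t _ h; simpa using h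
    | cons x m ih =>
      intro k t hm h
      have := ih (k + 1) (f a t x) (fun y hy => hm y (List.mem_cons_of_mem _ hy))
        (hI a k t x (hm x List.mem_cons_self) h)
      rw [List.foldl_cons, List.length_cons]
      rwa [show k + (m.length + 1) = k + 1 + m.length by omega]
  have h1 := key ((l a).take i) 0 (s a) (fun x hx => List.mem_of_mem_take hx) (h0 a)
  rwa [List.length_take, min_eq_left hi, zero_add] at h1

/-- The size of a list with at most `L` entries of size at most `c`. -/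
theorem sz_list_le {L c : ℕ} {l : List β} (hl : l.length ≤ L) (hc : ∀ x ∈ l, sz x ≤ c) :
    sz l ≤ L * (c + 1) + 1 := by
  have : sz l ≤ l.length * (c + 1) + 1 := by
    clear hl
    induction l with
    | nil => simp
    | cons x l ih =>
      have h1 := ih fun y hy => hc y (List.mem_cons_of_mem _ hy)
      have h2 := hc x List.mem_cons_self
      rw [sz_cons, List.length_cons, Nat.add_mul]
      omega
  have := Nat.mul_le_mul_right (c + 1) hl
  omega

/-- A vector with at most `L` entries, all below `p`. -/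
def BV (p L : ℕ) (v : List ℕ) : Prop := v.length ≤ L ∧ ∀ x ∈ v, x < p

/-- At most `R` rows, which are vectors with at most `L` entries, all below `p`. -/
def BM (p L R : ℕ) (M : Mat) : Prop := M.length ≤ R ∧ ∀ v ∈ M, BV p L v

/-- A bounded core. -/
def BC (p L : ℕ) (A : Core) : Prop := A.length ≤ 3 ∧ ∀ M ∈ A, BM p L L M

/-- A bounded MPS with at most `k` cores. -/
def BMPS (p L k : ℕ) (M : MPS) : Prop :=
  BV p L M.1 ∧ (M.2.1.length ≤ k ∧ ∀ A ∈ M.2.1, BC p L A) ∧ BV p L M.2.2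

theorem BV.sz_le {p L : ℕ} {v : List ℕ} (h : BV p L v) : sz v ≤ L * (2 * p + 2) + 1 :=
  sz_list_le (c := 2 * p + 1) h.1 fun x hx => by
    have := h.2 x hx
    rw [sz_nat]
    omega

theorem BM.sz_le {p L R : ℕ} {M : Mat} (h : BM p L R M) :
    sz M ≤ R * (L * (2 * p + 2) + 2) + 1 :=
  sz_list_le (c := L * (2 * p + 2) + 1) h.1 fun v hv => (h.2 v hv).sz_le

theorem BC.sz_le {p L : ℕ} {A : Core} (h : BC p L A) :
    sz A ≤ 3 * (L * (L * (2 * p + 2) + 2) + 2) + 1 :=
  sz_list_le (c := L * (L * (2 * p + 2) + 2) + 1) h.1 fun v hv => (h.2 v hv).sz_le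

theorem cores_sz_le {p L k : ℕ} {l : List Core} (h : l.length ≤ k) (hl : ∀ A ∈ l, BC p L A) :
    sz l ≤ k * (3 * (L * (L * (2 * p + 2) + 2) + 2) + 2) + 1 :=
  sz_list_le (c := 3 * (L * (L * (2 * p + 2) + 2) + 2) + 1) h fun v hv => (hl v hv).sz_le

theorem BMPS.sz_le {p L k : ℕ} {M : MPS} (h : BMPS p L k M) :
    sz M ≤ (L * (2 * p + 2) + 1) + ((k * (3 * (L * (L * (2 * p + 2) + 2) + 2) + 2) + 1) +
      (L * (2 * p + 2) + 1) + 1) + 1 := by
  obtain ⟨a, b, c⟩ := M
  have h1 := h.1.sz_le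
  have h2 := cores_sz_le h.2.1.1 h.2.1.2
  have h3 := h.2.2.sz_le
  rw [sz_pair, sz_pair]
  simp only at h1 h2 h3
  omega

theorem BV.mono {p L L' : ℕ} (hL : L ≤ L') {v : List ℕ} (h : BV p L v) : BV p L' v :=
  ⟨h.1.trans hL, h.2⟩

theorem BMPS.mono {p L k k' : ℕ} (hk : k ≤ k') {M : MPS} (h : BMPS p L k M) : BMPS p L k' M :=
  ⟨h.1, ⟨h.2.1.1.trans hk, h.2.1.2⟩, h.2.2⟩

end Pool.Agent.H79.TC
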