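import Mathlib

/-!
# Functions of two variables with a short factorisation
-/

set_option autoImplicit false

open Finset

namespace Pool.Agent.H79.TC

/-- `f x y` is a sum of `r` products of a function of `x` and a function of `y`. -/
def RankLE {X Y R : Type*} [CommSemiring R] (r : ℕ) (f : X → Y → R) : Prop :=
  ∃ (u : Fin r → X → R) (v : Fin r → Y → R), ∀ x y, f x y = ∑ k, u k x * v k y

end Pool.Agent.H79.TC
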