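import Pool.Agent.H79.TC.Rank

/-!
# Operations on functions with short factorisations
-/

set_option autoImplicit false

open Finset

namespace Pool.Agent.H79.TC

namespace RankLE

variable {X Y X' Y' R : Type*} [CommSemiring R]

theorem congr {r : ℕ} {f g : X → Y → R} (hf : RankLE r f) (h : ∀ x y, f x y = g x y) :
    RankLE r g := by
  obtain ⟨u, v, huv⟩ := hf
  exact ⟨u, v, fun x y => by rw [← h, huv]⟩

theorem mono {r s : ℕ} (hrs : r ≤ s) {f : X → Y → R} (hf : RankLE r f) : RankLE s f := by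
  obtain ⟨u, v, huv⟩ := hf
  obtain ⟨t, rfl⟩ := Nat.exists_eq_add_of_le hrs
  refine ⟨Fin.append u (fun _ _ => 0), Fin.append v (fun _ _ => 0), fun x y => ?_⟩
  rw [Fin.sum_univ_add, huv]
  simp

theorem zero : RankLE 0 (fun (_ : X) (_ : Y) => (0 : R)) :=
  ⟨fun k => k.elim0, fun k => k.elim0, fun _ _ => by simp⟩

theorem one (u : X → R) (v : Y → R) : RankLE 1 (fun x y => u x * v y) :=
  ⟨fun _ => u, fun _ => v, fun _ _ => by simp⟩

theorem of_left (u : X → R) : RankLE 1 (fun x (_ : Y) => u x) :=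
  (one u (fun _ => 1)).congr fun _ _ => mul_one _

theorem of_right (v : Y → R) : RankLE 1 (fun (_ : X) y => v y) :=
  (one (fun _ => 1) v).congr fun _ _ => one_mul _

theorem add {r s : ℕ} {f g : X → Y → R} (hf : RankLE r f) (hg : RankLE s g) :
    RankLE (r + s) (fun x y => f x y + g x y) := by
  obtain ⟨u, v, huv⟩ := hf
  obtain ⟨u', v', huv'⟩ := hg
  refine ⟨Fin.append u u', Fin.append v v', fun x y => ?_⟩
  beta_reduce
  rw [Fin.sum_univ_add, huv, huv']
  simp

theorem comp {r : ℕ} {f : X → Y → R} (hf : RankLE r f) (φ : X' → X) (ψ : Y' → Y) :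
    RankLE r (fun x y => f (φ x) (ψ y)) := by
  obtain ⟨u, v, huv⟩ := hf
  exact ⟨fun k x => u k (φ x), fun k y => v k (ψ y), fun x y => huv _ _⟩

theorem mul {r : ℕ} {f : X → Y → R} (hf : RankLE r f) (α : X → R) (β : Y → R) :
    RankLE r (fun x y => α x * β y * f x y) := by
  obtain ⟨u, v, huv⟩ := hf
  refine ⟨fun k x => α x * u k x, fun k y => β y * v k y, fun x y => ?_⟩
  beta_reduce
  rw [huv, Finset.mul_sum]
  exact Finset.sum_congr rfl fun k _ => by ring

/-- Restriction to a product set. -/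
theorem restrict {r : ℕ} {f g : X → Y → R} (hf : RankLE r f) (P : X → Prop) (Q : Y → Prop)
    (h : ∀ x y, P x → Q y → g x y = f x y) (h0 : ∀ x y, ¬ (P x ∧ Q y) → g x y = 0) :
    RankLE r g := by
  classical
  refine (hf.mul (fun x => if P x then 1 else 0) (fun y => if Q y then 1 else 0)).congr ?_
  intro x y
  by_cases hP : P x
  · by_cases hQ : Q y
    · simp [hP, hQ, h x y hP hQ]
    · simp [hQ, h0 x y (fun h => hQ h.2)]
  · simp [hP, h0 x y (fun h => hP h.1)]

theorem sum {ι : Type*} (s : Finset ι) (r : ι → ℕ) (f : ι → X → Y → R)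
    (h : ∀ i ∈ s, RankLE (r i) (f i)) :
    RankLE (∑ i ∈ s, r i) (fun x y => ∑ i ∈ s, f i x y) := by
  classical
  induction s using Finset.induction_on with
  | empty => simpa using zero
  | insert i s hi ih =>
    have h1 := h i (Finset.mem_insert_self i s)
    have h2 := ih (fun j hj => h j (Finset.mem_insert_of_mem hj))
    rw [Finset.sum_insert hi]
    exact (h1.add h2).congr fun x y => (Finset.sum_insert (f := fun i => f i x y) hi).symm

/-- Partition into classes. -/
theorem fiber {ι : Type*} [DecidableEq ι] {f : X → Y → R} (D : X → Y → ι) (s : Finset ι)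
    (r : ι → ℕ) (hD : ∀ x y, f x y ≠ 0 → D x y ∈ s)
    (h : ∀ i ∈ s, RankLE (r i) (fun x y => if D x y = i then f x y else 0)) :
    RankLE (∑ i ∈ s, r i) f := by
  refine (sum s r _ h).congr fun x y => ?_
  by_cases h0 : f x y = 0
  · rw [h0]; simp
  · rw [Finset.sum_ite_eq, if_pos (hD x y h0)]

/-- Multiplication of matrices. -/
theorem sandwich {U V : Type*} {r : ℕ} {f : U → V → R} (hf : RankLE r f) (S : Finset U)
    (T : Finset V) (A : X → U → R) (B : V → Y → R) :
    RankLE r (fun x y => ∑ u ∈ S, ∑ v ∈ T, A x u * f u v * B v y) := by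
  obtain ⟨p, q, hpq⟩ := hf
  refine ⟨fun k x => ∑ u ∈ S, A x u * p k u, fun k y => ∑ v ∈ T, q k v * B v y, fun x y => ?_⟩
  simp only [Finset.sum_mul_sum]
  rw [Finset.sum_comm]
  rw [Finset.sum_congr rfl (fun k _ => rfl)]
  simp only [hpq, Finset.mul_sum, Finset.sum_mul]
  rw [Finset.sum_comm]
  rw [Finset.sum_comm (s := (Finset.univ : Finset (Fin r))) (t := S)]
  refine Finset.sum_congr rfl fun u _ => ?_
  rw [Finset.sum_comm (s := (Finset.univ : Finset (Fin r))) (t := T)]
  exact Finset.sum_congr rfl fun v _ => Finset.sum_congr rfl fun k _ => by ring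

theorem cast {S : Type*} [CommSemiring S] {r : ℕ} {f : X → Y → ℕ} (hf : RankLE r f) :
    RankLE r (fun x y => (f x y : S)) := by
  obtain ⟨u, v, huv⟩ := hf
  exact ⟨fun k x => (u k x : S), fun k y => (v k y : S), fun x y => by
    beta_reduce; rw [huv]; push_cast; rfl⟩

end RankLE

end Pool.Agent.H79.TC
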