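import Pool.Agent.H79.TC.Kappa

/-!
# The rank theorem

At every cut, the number of colourings of an interval, as a function of the colours of the chords
which leave it, has polynomial rank.
-/

set_option autoImplicit false

open Finset

namespace Pool.Agent.H79.TC

section

open Classical

variable {σ : ℕ → ℕ} {g h s : ℕ}

/-- Adjacent external points of different colours. -/
theorem cut_diff (hσ : ∀ x, σ (σ x) = x) (hne : ∀ x, σ x ≠ x) {e : ℕ} (he : e ∈ Ext σ g h)
    (hn : nxt σ g h e ∈ Ext σ g h) (hes : e < s) (hse : s ≤ nxt σ g h e) {c c' : Fin 3}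
    (hc : c ≠ c') : RankLE (rho σ g h e) (fun p q : ℕ → Fin 3 =>
      if p e = c ∧ q (nxt σ g h e) = c' then F σ g h (glue s p q) else 0) := by
  refine bdE hσ hne he hn ?_ hc hes hse
  have := gap_rank hσ hne (nxt σ g h e - (e + 1)) (e + 1) (nxt σ g h e) le_rfl
  have h3 := lt_nxt (σ := σ) (g := g) (h := h) e
  have h4 : nxt σ g h e - (e + 1) + 1 = nxt σ g h e - e := by omega
  rw [h4] at this
  exact this

/-- Adjacent external points of the same colour. -/
theorem cut_same (hσ : ∀ x, σ (σ x) = x) (hne : ∀ x, σ x ≠ x) {e : ℕ} (he : e ∈ Ext σ g h)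
    (hn : nxt σ g h e ∈ Ext σ g h) (hes : e < s) (hse : s ≤ nxt σ g h e) (c : Fin 3) :
    RankLE (1 + ∑ i ∈ (Ext σ g h).filter (· < e), 2 * rho σ g h i) (fun p q : ℕ → Fin 3 =>
      if p e = c ∧ q (nxt σ g h e) = c then F σ g h (glue s p q) else 0) := by
  obtain ⟨c₁, c₂, h1, h2, h3, h4⟩ : ∃ c₁ c₂ : Fin 3, c₁ ≠ c ∧ c₂ ≠ c ∧ c₁ ≠ c₂ ∧
      ∀ t, t ≠ c → t = c₁ ∨ t = c₂ := by
    revert c; decide
  refine split_last ((Ext σ g h).filter (· < e)) (fun p _ i => p i ≠ c) _ 1 _ ?_ ?_
  · refine (RankLE.of_right (X := ℕ → Fin 3) (fun q : ℕ → Fin 3 => F σ g h (glue s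
      (fun _ => c) q))).restrict
      (fun p => p e = c ∧ (∀ j ∈ (Ext σ g h).filter (· < e), ¬ p j ≠ c))
      (fun q => q (nxt σ g h e) = c) ?_ ?_
    · rintro p q ⟨hp1, hp2⟩ hq
      rw [if_pos hp2, if_pos ⟨hp1, hq⟩]
      apply F_congr
      intro x hx
      simp only [glue]
      split_ifs with k
      · by_cases k3 : x = e
        · rw [k3]; exact hp1
        · by_contra hcon
          refine hp2 x (Finset.mem_filter.2 ⟨hx, ?_⟩) hcon
          by_contra hcon2
          have := nxt_le (by omega : e < x) hx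
          omega
      · rfl
    · intro p q hpq
      by_cases k : (∀ j ∈ (Ext σ g h).filter (· < e), ¬ p j ≠ c)
      · rw [if_pos k, if_neg]
        exact fun h' => hpq ⟨⟨h'.1, k⟩, h'.2⟩
      · rw [if_neg k]
  · intro i hi
    rw [Finset.mem_filter] at hi
    have hni := nxt_le hi.2 he
    have hnE : nxt σ g h i ∈ Ext σ g h := by
      rcases nxt_mem (σ := σ) (g := g) (h := h) i with h5 | h5
      · exact h5
      · have := (mem_ext.1 he).1; omega
    have key : ∀ d : Fin 3, d ≠ c → RankLE (rho σ g h i) (fun p q : ℕ → Fin 3 =>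
        if p i = d then (if (p i ≠ c ∧ ∀ j ∈ (Ext σ g h).filter (· < e), i < j → ¬ p j ≠ c) then
          (if p e = c ∧ q (nxt σ g h e) = c then F σ g h (glue s p q) else 0) else 0) else 0) := by
      intro d hd
      refine ((cut_diff (s := i + 1) hσ hne hi.1 hnE (by omega) (lt_nxt i) hd).comp (fun p => p)
        (fun q => glue (e + 1) (fun _ => c) q)).restrict
        (fun p => p i = d ∧ (∀ j ∈ (Ext σ g h).filter (· < e), i < j → ¬ p j ≠ c) ∧ p e = c)
        (fun q => q (nxt σ g h e) = c) ?_ ?_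
      · rintro p q ⟨hp1, hp2, hp3⟩ hq
        have e1 : (glue (e + 1) (fun _ => c) q) (nxt σ g h i) = c := by
          simp [glue, show nxt σ g h i < e + 1 by omega]
        rw [if_pos hp1, if_pos ⟨by rw [hp1]; exact hd, hp2⟩, if_pos ⟨hp3, hq⟩, if_pos ⟨hp1, e1⟩]
        apply F_congr
        intro x hx
        simp only [glue]
        by_cases k1 : x < i + 1
        · simp [k1, show x < s by omega]
        · by_cases k2 : x < e + 1
          · simp only [k1, k2, show x < s by omega, if_true, if_false]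
            by_cases k3 : x = e
            · rw [k3]; exact hp3
            · by_contra hcon
              exact hp2 x (Finset.mem_filter.2 ⟨hx, by omega⟩) (by omega) hcon
          · have h7 := nxt_le (by omega : e < x) hx
            simp [k1, k2, show ¬ x < s by omega]
      · intro p q hpq
        by_cases k1 : p i = d
        · by_cases k2 : (p i ≠ c ∧ ∀ j ∈ (Ext σ g h).filter (· < e), i < j → ¬ p j ≠ c)
          · rw [if_pos k1, if_pos k2, if_neg]
            exact fun h' => hpq ⟨⟨k1, k2.2, h'.1⟩, h'.2⟩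
          · rw [if_pos k1, if_neg k2]
        · rw [if_neg k1]
    refine (((key c₁ h1).add (key c₂ h2)).mono (by omega)).congr fun p q => ?_
    by_cases k0 : (p i ≠ c ∧ ∀ j ∈ (Ext σ g h).filter (· < e), i < j → ¬ p j ≠ c)
    · rcases h4 (p i) k0.1 with h5 | h5
      · have : p i ≠ c₂ := by rw [h5]; exact h3
        beta_reduce
        rw [if_pos h5, if_neg this, add_zero]
        congr
      · have : p i ≠ c₁ := by rw [h5]; exact h3.symm
        beta_reduce
        rw [if_neg this, if_pos h5, zero_add]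
        congr
    · simp only [if_neg k0, ite_self, add_zero]

end

/-- The rank theorem. -/
theorem rank_F {σ : ℕ → ℕ} (hσ : ∀ x, σ (σ x) = x) (hne : ∀ x, σ x ≠ x) (a s b : ℕ) :
    RankLE (51 * (b - a + 1) ^ 4) (fun w₁ w₂ : ℕ → Fin 3 => F σ a b (glue s w₁ w₂)) := by
  classical
  have hpos : 1 ≤ (b - a + 1) ^ 4 := Nat.one_le_pow _ _ (by omega)
  by_cases h1 : ((Ext σ a b).filter (· < s)).Nonempty
  swap
  · rw [Finset.not_nonempty_iff_eq_empty] at h1
    refine RankLE.mono (show 1 ≤ _ by omega) ?_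
    refine (RankLE.of_right (X := ℕ → Fin 3) (fun w : ℕ → Fin 3 => F σ a b w)).congr ?_
    intro w₁ w₂
    apply F_congr
    intro x hx
    simp only [glue]
    split_ifs with k
    · have : x ∈ (Ext σ a b).filter (· < s) := Finset.mem_filter.2 ⟨hx, k⟩
      rw [h1] at this
      simp at this
    · rfl
  set e := ((Ext σ a b).filter (· < s)).max' h1 with he
  have heE := Finset.mem_filter.1 (Finset.max'_mem _ h1)
  rw [← he] at heE
  have hmax : ∀ x ∈ Ext σ a b, x < s → x ≤ e := fun x hx hxs =>
    Finset.le_max' _ x (Finset.mem_filter.2 ⟨hx, hxs⟩)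
  by_cases hn : nxt σ a b e ∈ Ext σ a b
  swap
  · refine RankLE.mono (show 1 ≤ _ by omega) ?_
    refine (RankLE.of_left (Y := ℕ → Fin 3) (fun w : ℕ → Fin 3 => F σ a b w)).congr ?_
    intro w₁ w₂
    apply F_congr
    intro x hx
    simp only [glue]
    split_ifs with k
    · rfl
    · exfalso
      have h2 := nxt_le (by omega : e < x) hx
      rcases nxt_mem (σ := σ) (g := a) (h := b) e with h3 | h3
      · exact hn h3
      · have := (mem_ext.1 hx).1; omega
  have hsn : s ≤ nxt σ a b e := by
    by_contra hcon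
    have := hmax _ hn (by omega)
    have := lt_nxt (σ := σ) (g := a) (h := b) e
    omega
  have hall : ∀ c c' : Fin 3, RankLE ((if c = c' then 1 + ∑ i ∈ (Ext σ a b).filter (· < e),
      2 * rho σ a b i else rho σ a b e)) (fun p q : ℕ → Fin 3 =>
      if p e = c ∧ q (nxt σ a b e) = c' then F σ a b (glue s p q) else 0) := by
    intro c c'
    split_ifs with hc
    · subst hc
      exact (cut_same hσ hne heE.1 hn heE.2 hsn c).congr fun p q => by congr
    · exact (cut_diff hσ hne heE.1 hn heE.2 hsn hc).congr fun p q => by congr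
  have hsum := RankLE.sum (Finset.univ : Finset (Fin 3 × Fin 3)) _ _
    (fun c _ => hall c.1 c.2)
  refine (hsum.congr fun p q => ?_).mono ?_
  · rw [Finset.sum_eq_single (p e, q (nxt σ a b e))]
    · simp
    · rintro ⟨c, c'⟩ _ hcc
      rw [if_neg]
      rintro ⟨h5, h6⟩
      exact hcc (by simp [h5, h6])
    · intro h; exact (h (Finset.mem_univ _)).elim
  · have hR : ∑ i ∈ (Ext σ a b).filter (· < e), 2 * rho σ a b i ≤
        2 * ∑ i ∈ (Ext σ a b).filter (· < e), rho σ a b i := by
      rw [Finset.mul_sum]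
    have hT : rho σ a b e + ∑ i ∈ (Ext σ a b).filter (· < e), rho σ a b i ≤
        8 * (b - a + 1) ^ 4 := by
      have e1 : rho σ a b e + ∑ i ∈ (Ext σ a b).filter (· < e), rho σ a b i ≤
          ∑ i ∈ Ext σ a b, rho σ a b i := by
        rw [← Finset.sum_erase_add _ _ heE.1, add_comm]
        apply Nat.add_le_add_right
        apply Finset.sum_le_sum_of_subset
        intro x hx
        rw [Finset.mem_filter] at hx
        exact Finset.mem_erase.2 ⟨by omega, hx.1⟩
      have e2 : ∑ i ∈ Ext σ a b, rho σ a b i ≤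
          ∑ i ∈ Ext σ a b, 8 * (b - a + 1) ^ 3 * (nxt σ a b i - i) := by
        apply Finset.sum_le_sum
        intro i hi
        unfold rho
        have h3 : nxt σ a b i - i ≤ b - a + 1 := by
          have h4 := (mem_ext.1 hi).1
          have h5 := nxt_le' (σ := σ) (g := a) (h := b) h4.2
          omega
        have := Nat.pow_le_pow_left h3 3
        calc 8 * (nxt σ a b i - i) ^ 4 = 8 * (nxt σ a b i - i) ^ 3 * (nxt σ a b i - i) := by ring
          _ ≤ _ := Nat.mul_le_mul_right _ (Nat.mul_le_mul_left _ this)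
      rw [← Finset.mul_sum] at e2
      calc _ ≤ _ := e1
        _ ≤ _ := e2
        _ ≤ 8 * (b - a + 1) ^ 3 * (b - a) := Nat.mul_le_mul_left _ (sum_nxt_sub σ a b)
        _ ≤ 8 * (b - a + 1) ^ 3 * (b - a + 1) := Nat.mul_le_mul_left _ (by omega)
        _ = _ := by ring
    have hsumle : ∑ c : Fin 3 × Fin 3, (if c.1 = c.2 then 1 +
        ∑ i ∈ (Ext σ a b).filter (· < e), 2 * rho σ a b i else rho σ a b e) =
        3 * (1 + ∑ i ∈ (Ext σ a b).filter (· < e), 2 * rho σ a b i) + 6 * rho σ a b e := by
      rw [Fintype.sum_prod_type]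
      simp [Fin.sum_univ_three]
      ring
    rw [hsumle]
    omega

end Pool.Agent.H79.TC
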