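import Pool.Agent.H79.TC.Alg
import Pool.Agent.H79.TC.Rank

/-!
# Meaning of the data of the algorithm
-/

set_option autoImplicit false

open Finset

namespace Pool.Agent.H79.TC

/-- A list as a vector over `ZMod p`. -/
def toV (p : ℕ) (v : List ℕ) (i : ℕ) : ZMod p := ((v.getD i 0 : ℕ) : ZMod p)

/-- The entries of a matrix, in `ZMod p`. -/
def entM (p : ℕ) (M : Mat) (i j : ℕ) : ZMod p := (((M.getD i []).getD j 0 : ℕ) : ZMod p)

/-- Row vector times matrix. -/
def stepV (p n : ℕ) (x : ℕ → ZMod p) (M : Mat) (j : ℕ) : ZMod p :=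
  if j < n then ∑ s ∈ range n, x s * entM p M s j else 0

/-- The state vector after the colours `u` have been read, starting with `x`. -/
def leftV (p n : ℕ) : (ℕ → ZMod p) → List Core → List (Fin 3) → ℕ → ZMod p
  | x, A :: As, a :: u => leftV p n (stepV p n x (A.getD (a : ℕ) [])) As u
  | x, [], _ => x
  | x, _ :: _, [] => x

/-- The value of an MPS on a colour word (whose length is the number of cores). -/
def val (p n : ℕ) (M : MPS) (u : List (Fin 3)) : ZMod p :=
  ∑ s ∈ range n, leftV p n (toV p M.1) M.2.1 u s * toV p M.2.2 s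

/-- Only the state indices below `D` are used. -/
def SuppLE (D : ℕ) (M : MPS) : Prop :=
  (∀ s, D ≤ s → M.1.getD s 0 = 0) ∧
  ∀ A ∈ M.2.1, ∀ a i s, D ≤ s → (((A.getD a []).getD i []).getD s 0) = 0

/-- At every cut, the value is a function of rank at most `D`. -/
def CutRank (p n D : ℕ) (M : MPS) : Prop :=
  ∀ j ≤ M.2.1.length, RankLE D (fun (x : {l : List (Fin 3) // l.length = j})
    (y : {l : List (Fin 3) // l.length = M.2.1.length - j}) => val p n M (x.1 ++ y.1))

end Pool.Agent.H79.TC
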